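import Mathlib

/-!
# Growth of polynomials
-/

namespace MPc2b80f

open Filter Topology

private theorem Alg1_one_var (q : Polynomial ℂ) (C Z κ : ℝ) (hZ : 0 ≤ Z) (hκ0 : 0 ≤ κ) (hκ : κ < 1)
    (h : ∀ n : ℕ, ‖q.eval (n : ℂ)‖ ≤ C * (1 + n * Z) ^ κ) : q = Polynomial.C (q.eval 0) := by
  -- `q = X r + q 0`
  set r := q.divX with hr
  have hq : q = Polynomial.X * r + Polynomial.C (q.coeff 0) := by
    rw [mul_comm]
    exact (Polynomial.divX_mul_X_add q).symm
  have hC : 0 ≤ C := by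
    have h0 := h 0
    simp only [Nat.cast_zero, zero_mul, add_zero, Real.one_rpow, mul_one] at h0
    exact le_trans (norm_nonneg _) h0
  -- the values of `r`
  have h1 : ∀ n : ℕ, 1 ≤ n → ‖r.eval (n : ℂ)‖ ≤
      C * (1 + Z) ^ κ * (n : ℝ) ^ (-(1 - κ)) + ‖q.coeff 0‖ * (n : ℝ) ^ (-(1 : ℝ)) := by
    intro n hn
    have hn0 : (0 : ℝ) < n := by exact_mod_cast hn
    have hn1 : (1 : ℝ) ≤ n := by exact_mod_cast hn
    have e1 : (n : ℂ) * r.eval (n : ℂ) = q.eval (n : ℂ) - q.coeff 0 := by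
      conv_rhs => rw [hq]
      simp
    have e2 : (n : ℝ) * ‖r.eval (n : ℂ)‖ ≤ C * (1 + n * Z) ^ κ + ‖q.coeff 0‖ := by
      have e3 : (n : ℝ) * ‖r.eval (n : ℂ)‖ = ‖q.eval (n : ℂ) - q.coeff 0‖ := by
        rw [← e1, norm_mul, Complex.norm_natCast]
      rw [e3]
      exact le_trans (norm_sub_le _ _) (by linarith [h n])
    have e4 : (1 + n * Z) ^ κ ≤ (n : ℝ) ^ κ * (1 + Z) ^ κ := by
      rw [← Real.mul_rpow hn0.le (by positivity)]
      apply Real.rpow_le_rpow (by positivity) _ hκ0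
      nlinarith
    have e5 : (n : ℝ) ^ (-(1 - κ)) = (n : ℝ) ^ κ / n := by
      rw [show (-(1 - κ)) = κ - 1 by ring, Real.rpow_sub hn0, Real.rpow_one]
    have e6 : (n : ℝ) ^ (-(1 : ℝ)) = 1 / n := by
      rw [Real.rpow_neg hn0.le, Real.rpow_one, one_div]
    rw [e5, e6]
    have e7 : C * (1 + Z) ^ κ * ((n : ℝ) ^ κ / n) + ‖q.coeff 0‖ * (1 / n) =
        (C * ((n : ℝ) ^ κ * (1 + Z) ^ κ) + ‖q.coeff 0‖) / n := by
      field_simp
    rw [e7, le_div_iff₀ hn0]
    have e8 := mul_le_mul_of_nonneg_left e4 hC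
    linarith
  have h2 : Tendsto (fun n : ℕ => ‖r.eval (n : ℂ)‖) atTop (𝓝 0) := by
    have t1 : Tendsto (fun n : ℕ => C * (1 + Z) ^ κ * (n : ℝ) ^ (-(1 - κ)) +
        ‖q.coeff 0‖ * (n : ℝ) ^ (-(1 : ℝ))) atTop (𝓝 (C * (1 + Z) ^ κ * 0 + ‖q.coeff 0‖ * 0)) := by
      apply Tendsto.add
      · apply Tendsto.const_mul
        exact (tendsto_rpow_neg_atTop (by linarith)).comp tendsto_natCast_atTop_atTop
      · apply Tendsto.const_mul
        exact (tendsto_rpow_neg_atTop (by norm_num)).comp tendsto_natCast_atTop_atTop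
    rw [mul_zero, mul_zero, add_zero] at t1
    apply squeeze_zero' (Eventually.of_forall fun n => norm_nonneg _) _ t1
    filter_upwards [eventually_ge_atTop 1] with n hn
    exact h1 n hn
  have h3 : r = 0 := by
    by_contra hr0
    rcases lt_or_ge 0 r.degree with hd | hd
    · have h4 : Tendsto (fun n : ℕ => ‖r.eval (n : ℂ)‖) atTop atTop := by
        apply Polynomial.tendsto_norm_atTop r hd
        simp only [Complex.norm_natCast]
        exact tendsto_natCast_atTop_atTop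
      exact not_tendsto_nhds_of_tendsto_atTop h4 _ h2
    · have h4 := Polynomial.eq_C_of_degree_le_zero hd
      rw [h4] at h2
      simp only [Polynomial.eval_C] at h2
      have h5 := tendsto_nhds_unique h2 tendsto_const_nhds
      apply hr0
      rw [h4]
      have h6 : r.coeff 0 = 0 := by rw [← norm_eq_zero]; exact h5.symm
      rw [h6, Polynomial.C_0]
  have h4 : q = Polynomial.C (q.coeff 0) := by
    conv_lhs => rw [hq, h3, mul_zero, zero_add]
  conv_lhs => rw [h4]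
  rw [Polynomial.coeff_zero_eq_eval_zero]

/-- Liouville theorem for polynomials in several variables.
Proof: for fixed `z` the polynomial `q (s) = p (s z)` of one complex variable `s` satisfies
`|q s| ≤ C' (1 + |s|) ^ κ` with `κ < 1`; write `q = q 0 + X * r` (`Polynomial.divX`); then `r (s) → 0` as
`|s| → ∞`, so `r` has degree `≤ 0` (`Polynomial.tendsto_norm_atTop`) and is `0`. Hence `p z = p 0` for all
complex `z`, in particular for rational `z`, and `MvPolynomial.funext` gives the claim. -/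
theorem mv_growth_const {d : ℕ} (p : MvPolynomial (Fin d) ℚ) (C κ : ℝ) (hκ0 : 0 ≤ κ) (hκ : κ < 1)
    (h : ∀ z : Fin d → ℂ, ‖MvPolynomial.aeval z p‖ ≤ C * (1 + ∑ i, ‖z i‖) ^ κ) :
    ∃ a : ℚ, p = MvPolynomial.C a := by
  refine ⟨MvPolynomial.eval 0 p, ?_⟩
  apply MvPolynomial.funext
  intro x
  rw [MvPolynomial.eval_C]
  set z : Fin d → ℂ := fun i => (x i : ℂ) with hz
  set q : Polynomial ℂ := MvPolynomial.aeval (fun i => Polynomial.X * Polynomial.C (z i)) p with hq
  have hqe : ∀ s : ℂ, q.eval s = MvPolynomial.aeval (fun i => s * z i) p := by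
    intro s
    have e1 : q.eval s = (Polynomial.evalRingHom s) q := rfl
    rw [e1, hq, MvPolynomial.aeval_def, MvPolynomial.aeval_def, MvPolynomial.hom_eval₂]
    congr 1
    · exact Subsingleton.elim _ _
    · funext i
      rw [Polynomial.coe_evalRingHom, Polynomial.eval_mul, Polynomial.eval_X, Polynomial.eval_C]
  have h1 := Alg1_one_var q C (∑ i, ‖z i‖) κ (Finset.sum_nonneg fun i _ => norm_nonneg _) hκ0 hκ (by
    intro n
    rw [hqe]
    have h2 := h (fun i => (n : ℂ) * z i)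
    have h3 : ∑ i, ‖(n : ℂ) * z i‖ = n * ∑ i, ‖z i‖ := by
      rw [Finset.mul_sum]
      apply Finset.sum_congr rfl
      intro i _
      rw [norm_mul, Complex.norm_natCast]
    rwa [h3] at h2)
  have h2 : q.eval 1 = q.eval 0 := by
    rw [h1]
    simp
  rw [hqe, hqe] at h2
  have h3 : ∀ y : Fin d → ℚ, MvPolynomial.aeval (fun i => (y i : ℂ)) p =
      ((MvPolynomial.eval y p : ℚ) : ℂ) := by
    intro y
    have e1 : ((MvPolynomial.eval y p : ℚ) : ℂ) = (algebraMap ℚ ℂ) (MvPolynomial.eval y p) := rfl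
    rw [e1, ← MvPolynomial.eval₂_id, MvPolynomial.hom_eval₂, MvPolynomial.aeval_def]
    rfl
  have h4 : (fun i => (1 : ℂ) * z i) = fun i => ((x i : ℚ) : ℂ) := by
    funext i
    rw [one_mul]
  have h5 : (fun i => (0 : ℂ) * z i) = fun i => (((0 : Fin d → ℚ) i : ℚ) : ℂ) := by
    funext i
    simp
  rw [h4, h5, h3, h3] at h2
  exact_mod_cast h2

/-- Polynomials have polynomial growth (`MvPolynomial.induction_on`). -/
theorem mv_poly_growth {d : ℕ} (p : MvPolynomial (Fin d) ℚ) :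
    ∃ (C : ℝ) (k : ℕ), 0 ≤ C ∧ ∀ z : Fin d → ℂ, ‖MvPolynomial.aeval z p‖ ≤ C * (1 + ∑ i, ‖z i‖) ^ k := by
  induction p using MvPolynomial.induction_on with
  | C a =>
    refine ⟨‖(algebraMap ℚ ℂ) a‖, 0, norm_nonneg _, fun z => ?_⟩
    rw [MvPolynomial.aeval_C, pow_zero, mul_one]
  | add p q hp hq =>
    obtain ⟨C1, k1, h1, h1'⟩ := hp
    obtain ⟨C2, k2, h2, h2'⟩ := hq
    refine ⟨C1 + C2, max k1 k2, by positivity, fun z => ?_⟩
    have hb : (1 : ℝ) ≤ 1 + ∑ i, ‖z i‖ := by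
      have : 0 ≤ ∑ i, ‖z i‖ := Finset.sum_nonneg fun i _ => norm_nonneg _
      linarith
    rw [map_add]
    refine le_trans (norm_add_le _ _) ?_
    have e1 : C1 * (1 + ∑ i, ‖z i‖) ^ k1 ≤ C1 * (1 + ∑ i, ‖z i‖) ^ (max k1 k2) :=
      mul_le_mul_of_nonneg_left (pow_le_pow_right₀ hb (le_max_left _ _)) h1
    have e2 : C2 * (1 + ∑ i, ‖z i‖) ^ k2 ≤ C2 * (1 + ∑ i, ‖z i‖) ^ (max k1 k2) :=
      mul_le_mul_of_nonneg_left (pow_le_pow_right₀ hb (le_max_right _ _)) h2
    rw [add_mul]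
    linarith [h1' z, h2' z]
  | mul_X p i hp =>
    obtain ⟨C1, k1, h1, h1'⟩ := hp
    refine ⟨C1, k1 + 1, h1, fun z => ?_⟩
    rw [map_mul, MvPolynomial.aeval_X, norm_mul, pow_succ, ← mul_assoc]
    have hs : ‖z i‖ ≤ 1 + ∑ i, ‖z i‖ := by
      have := Finset.single_le_sum (f := fun i => ‖z i‖) (fun i _ => norm_nonneg _)
        (Finset.mem_univ i)
      linarith
    have hpos : 0 ≤ ∑ i, ‖z i‖ := Finset.sum_nonneg fun i _ => norm_nonneg _
    exact mul_le_mul (h1' z) hs (norm_nonneg _) (by positivity)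

/-- Elements integral over the polynomial ring have polynomial growth.
Proof: let `f` be a monic polynomial over `MvPolynomial (Fin d) ℚ` with root `e`, of degree `m ≥ 1`, with
lower coefficients `c j`. For a ring homomorphism `φ : R → ℂ`, `z i = φ (X i)`, the number `ρ = φ e` satisfies
`ρ ^ m = - ∑ j < m, (c j)(z) ρ ^ j`, so `|ρ| ≤ 1 + ∑ j, |(c j) (z)|`; use `mv_poly_growth` for every `c j`.
(Ring homomorphisms to `ℂ` are automatically `ℚ`-linear.) -/
theorem integral_growth {d : ℕ} {R : Type*} [CommRing R] [Algebra (MvPolynomial (Fin d) ℚ) R]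
    (e : R) (he : IsIntegral (MvPolynomial (Fin d) ℚ) e) :
    ∃ (C : ℝ) (k : ℕ), 0 ≤ C ∧ ∀ φ : R →+* ℂ, ‖φ e‖ ≤
      C * (1 + ∑ i, ‖φ (algebraMap (MvPolynomial (Fin d) ℚ) R (MvPolynomial.X i))‖) ^ k := by
  obtain ⟨f, hf, hfe⟩ := he
  choose Cf kf hCf hkf using fun j : ℕ => mv_poly_growth (f.coeff j)
  refine ⟨1 + ∑ j ∈ Finset.range f.natDegree, Cf j, ∑ j ∈ Finset.range f.natDegree, kf j,
    by
      have : 0 ≤ ∑ j ∈ Finset.range f.natDegree, Cf j := Finset.sum_nonneg fun j _ => hCf j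
      linarith, ?_⟩
  intro φ
  set z : Fin d → ℂ := fun i => φ (algebraMap (MvPolynomial (Fin d) ℚ) R (MvPolynomial.X i)) with hz
  have hb : (1 : ℝ) ≤ 1 + ∑ i, ‖z i‖ := by
    have : 0 ≤ ∑ i, ‖z i‖ := Finset.sum_nonneg fun i _ => norm_nonneg _
    linarith
  have hφ : φ.comp (algebraMap (MvPolynomial (Fin d) ℚ) R) =
      (MvPolynomial.aeval z : MvPolynomial (Fin d) ℚ →ₐ[ℚ] ℂ).toRingHom := by
    apply MvPolynomial.ringHom_ext
    · intro a
      have e1 : (φ.comp (algebraMap (MvPolynomial (Fin d) ℚ) R)).comp MvPolynomial.C =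
          algebraMap ℚ ℂ := Subsingleton.elim _ _
      have e2 := congrArg (fun g => g a) e1
      change (φ.comp (algebraMap (MvPolynomial (Fin d) ℚ) R)) (MvPolynomial.C a) = algebraMap ℚ ℂ a at e2
      rw [e2]
      change _ = MvPolynomial.aeval z (MvPolynomial.C a)
      rw [MvPolynomial.aeval_C]
    · intro i
      change _ = MvPolynomial.aeval z (MvPolynomial.X i)
      rw [MvPolynomial.aeval_X]
      rfl
  set g : Polynomial ℂ := f.map (φ.comp (algebraMap (MvPolynomial (Fin d) ℚ) R)) with hg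
  have hgm : g.Monic := hf.map _
  have hroot : g.IsRoot (φ e) := by
    rw [Polynomial.IsRoot, hg, Polynomial.eval_map, ← Polynomial.hom_eval₂, hfe, map_zero]
  have hb1 := Polynomial.IsRoot.norm_lt_cauchyBound hgm.ne_zero hroot
  have hb2 : ((Polynomial.cauchyBound g : NNReal) : ℝ) ≤
      1 + ∑ j ∈ Finset.range f.natDegree, ‖g.coeff j‖ := by
    unfold Polynomial.cauchyBound
    rw [hgm.leadingCoeff, nnnorm_one, div_one, hf.natDegree_map]
    push_cast
    rw [add_comm]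
    have e1 : (Finset.range f.natDegree).sup (fun j => ‖g.coeff j‖₊) ≤
        ∑ j ∈ Finset.range f.natDegree, ‖g.coeff j‖₊ := by
      apply Finset.sup_le
      intro j hj
      exact Finset.single_le_sum (f := fun j => ‖g.coeff j‖₊) (fun j _ => zero_le) hj
    have e2 : (((Finset.range f.natDegree).sup (fun j => ‖g.coeff j‖₊) : NNReal) : ℝ) ≤
        ((∑ j ∈ Finset.range f.natDegree, ‖g.coeff j‖₊ : NNReal) : ℝ) := by exact_mod_cast e1
    push_cast at e2
    linarith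
  have hb3 : ‖φ e‖ ≤ 1 + ∑ j ∈ Finset.range f.natDegree, ‖g.coeff j‖ := by
    have : ‖φ e‖ < ((Polynomial.cauchyBound g : NNReal) : ℝ) := by exact_mod_cast hb1
    linarith
  refine le_trans hb3 ?_
  set K := ∑ j ∈ Finset.range f.natDegree, kf j with hK
  have hKp : (1 : ℝ) ≤ (1 + ∑ i, ‖z i‖) ^ K := one_le_pow₀ hb
  have hc : ∀ j ∈ Finset.range f.natDegree, ‖g.coeff j‖ ≤ Cf j * (1 + ∑ i, ‖z i‖) ^ K := by
    intro j hj
    have e1 : g.coeff j = MvPolynomial.aeval z (f.coeff j) := by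
      rw [hg, Polynomial.coeff_map, hφ]
      rfl
    rw [e1]
    refine le_trans (hkf j z) (mul_le_mul_of_nonneg_left (pow_le_pow_right₀ hb ?_) (hCf j))
    exact Finset.single_le_sum (f := kf) (fun j _ => Nat.zero_le _) hj
  have hsum := Finset.sum_le_sum hc
  rw [← Finset.sum_mul] at hsum
  rw [add_mul]
  linarith

end MPc2b80f
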