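import Mathlib

/-!
# Extension of homomorphisms to the complex numbers along integral extensions
-/

namespace MPc2b80f

/-- Homomorphisms to an algebraically closed field extend along injective integral extensions of domains.
Proof: `ker z` is prime; by lying over there is a prime `Q` of `R` over it
(`Ideal.exists_ideal_over_prime_of_isIntegral_of_isDomain`); `R ⧸ Q` is a domain, integral over
`A ⧸ ker z`, which embeds into `ℂ`; use `IsAlgClosed.lift`. -/
theorem exists_extension {A R : Type*} [CommRing A] [IsDomain A] [CommRing R] [IsDomain R] [Algebra A R]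
    [Algebra.IsIntegral A R] (hinj : Function.Injective (algebraMap A R)) (z : A →+* ℂ) :
    ∃ φ : R →+* ℂ, φ.comp (algebraMap A R) = z := by
  have hp : (RingHom.ker z).IsPrime := RingHom.ker_isPrime z
  obtain ⟨Q, hQ, hQc⟩ := Ideal.exists_ideal_over_prime_of_isIntegral_of_isDomain (S := R)
    (RingHom.ker z) (by rw [(RingHom.injective_iff_ker_eq_bot _).1 hinj]; exact bot_le)
  have : Q.LiesOver (RingHom.ker z) := ⟨hQc.symm⟩
  let : Algebra (A ⧸ RingHom.ker z) ℂ := (RingHom.kerLift z).toAlgebra
  have h1 : Function.Injective (algebraMap (A ⧸ RingHom.ker z) ℂ) := RingHom.kerLift_injective z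
  have h2 : Function.Injective (algebraMap (A ⧸ RingHom.ker z) (R ⧸ Q)) :=
    FaithfulSMul.algebraMap_injective _ _
  have : Module.IsTorsionFree (A ⧸ RingHom.ker z) ℂ := Module.isTorsionFree_iff_algebraMap_injective.2 h1
  have : Module.IsTorsionFree (A ⧸ RingHom.ker z) (R ⧸ Q) :=
    Module.isTorsionFree_iff_algebraMap_injective.2 h2
  have : Algebra.IsIntegral (A ⧸ RingHom.ker z) (R ⧸ Q) := inferInstance
  let f : (R ⧸ Q) →ₐ[A ⧸ RingHom.ker z] ℂ := IsAlgClosed.lift
  refine ⟨f.toRingHom.comp (Ideal.Quotient.mk Q), ?_⟩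
  ext a
  have h3 : f (algebraMap (A ⧸ RingHom.ker z) (R ⧸ Q) (Ideal.Quotient.mk _ a)) =
      algebraMap (A ⧸ RingHom.ker z) ℂ (Ideal.Quotient.mk _ a) := f.commutes _
  have h4 : algebraMap (A ⧸ RingHom.ker z) ℂ (Ideal.Quotient.mk _ a) = z a := rfl
  rw [h4] at h3
  simpa using h3

/-- Proof: `A = P[t] ⊆ R` is isomorphic to `AdjoinRoot (minpoly P t)` (`minpoly.equivAdjoin`, as `P` is
integrally closed); so there is `ψ : A → ℂ` extending `z` with `ψ t = ρ`. `R` is integral over `A`; apply
`exists_extension`. -/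
theorem exists_hom {P R : Type*} [CommRing P] [IsDomain P] [IsIntegrallyClosed P] [CommRing R] [IsDomain R]
    [Algebra P R] [Algebra.IsIntegral P R] (hinj : Function.Injective (algebraMap P R))
    (z : P →+* ℂ) (t : R) (ρ : ℂ) (hρ : ((minpoly P t).map z).IsRoot ρ) :
    ∃ φ : R →+* ℂ, φ.comp (algebraMap P R) = z ∧ φ t = ρ := by
  have ht : IsIntegral P t := Algebra.IsIntegral.isIntegral t
  have : Module.IsTorsionFree P R := Module.isTorsionFree_iff_algebraMap_injective.2 hinj
  let e := minpoly.equivAdjoin ht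
  have hρ' : Polynomial.eval₂ z ρ (minpoly P t) = 0 := by
    rwa [Polynomial.IsRoot.def, Polynomial.eval_map] at hρ
  let ψ : Algebra.adjoin P {t} →+* ℂ := (AdjoinRoot.lift z ρ hρ').comp (e.symm : _ →+* _)
  have : Algebra.IsIntegral (Algebra.adjoin P {t}) R := Algebra.IsIntegral.tower_top P
  obtain ⟨φ, hφ⟩ := exists_extension (A := Algebra.adjoin P {t}) (R := R)
    Subtype.val_injective ψ
  refine ⟨φ, ?_, ?_⟩
  · ext a
    have h1 := congrArg (fun g => g (algebraMap P (Algebra.adjoin P {t}) a)) hφ
    simp only [RingHom.comp_apply] at h1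
    have h2 : e.symm (algebraMap P (Algebra.adjoin P {t}) a) = algebraMap P _ a := e.symm.commutes a
    have h3 : ψ (algebraMap P (Algebra.adjoin P {t}) a) = z a := by
      change (AdjoinRoot.lift z ρ hρ') (e.symm (algebraMap P (Algebra.adjoin P {t}) a)) = z a
      rw [h2]
      simp
    rw [h3] at h1
    rw [RingHom.comp_apply, ← h1]
    rfl
  · have h1 := congrArg (fun g => g (e (AdjoinRoot.root _))) hφ
    simp only [RingHom.comp_apply] at h1
    have h3 : ψ (e (AdjoinRoot.root _)) = ρ := by
      change (AdjoinRoot.lift z ρ hρ') (e.symm (e (AdjoinRoot.root _))) = ρ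
      rw [AlgEquiv.symm_apply_apply]
      simp
    rw [h3] at h1
    have h4 : algebraMap (Algebra.adjoin P {t}) R (e (AdjoinRoot.root (minpoly P t))) = t := by
      simp [e]
    rw [h4] at h1
    exact h1

end MPc2b80f
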