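import Pool.Agent.Lib.MP_c2b80f_alB.Alg1
import Pool.Agent.Lib.MP_c2b80f_alB.Alg2

/-!
# Slowly growing elements of finitely generated domains are algebraic
-/

namespace MPc2b80f

/-- Let `R` be a domain, finitely generated as a `ℚ`-algebra, and `E` a finite subset. There is `ε > 0` such that
every `t ∈ R` with `|φ t| ≤ 2 (3 + ∑ e ∈ E, |φ e|) ^ ε` for all ring homomorphisms `φ : R → ℂ` is algebraic.

Proof: Noether normalisation (`exists_integral_inj_algHom_of_fg`): `P = MvPolynomial (Fin d) ℚ → R` injective,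
integral. `R` is a finite `P`-module (finite type and integral), generated by `D` elements, so every `t ∈ R`
is a root of a monic polynomial of degree `D` over `P` (Cayley-Hamilton; for instance
`LinearMap.exists_monic_and_natDegree_eq_and_coeff_mem_pow_and_aeval_eq_zero` or `LinearMap.charpoly`-type lemmas),
hence `(minpoly P t).natDegree ≤ D` (`minpoly.min`). By `integral_growth` there are `C`, `k` with
`3 + ∑ e ∈ E, |φ e| ≤ C (1 + |z|) ^ k` where `z i = φ (X i)`, `|z| = ∑ |z i|`, `C ≥ 1`. Let `ε > 0` be such that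
`k ε D < 1`. If `t` satisfies the bound, then for each `z ∈ ℂ ^ d` every root `ρ` of `(minpoly P t).map (ev z)` is
`φ t` for some `φ` over `z` (`exists_hom`), so `|ρ| ≤ 2 C ^ ε (1 + |z|) ^ (k ε)`. By
`Polynomial.coeff_bdd_of_roots_le` the coefficients `c j` of the minimal polynomial satisfy
`|c j (z)| ≤ C' (1 + |z|) ^ (k ε D)` for all `z`, so they are constants by `mv_growth_const`; so `t` is a root of
a monic polynomial with coefficients in `ℚ`. -/
theorem exists_eps_isAlgebraic (R : Type*) [CommRing R] [IsDomain R] [Algebra ℚ R] [Algebra.FiniteType ℚ R]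
    (E : Finset R) :
    ∃ ε : ℝ, 0 < ε ∧ ∀ t : R,
      (∀ φ : R →+* ℂ, ‖φ t‖ ≤ 2 * (3 + ∑ e ∈ E, ‖φ e‖) ^ ε) → IsIntegral ℚ t := by
  obtain ⟨d, g, hginj, hgfin⟩ := exists_finite_inj_algHom_of_fg ℚ R
  let P := MvPolynomial (Fin d) ℚ
  let _ : Algebra P R := g.toRingHom.toAlgebra
  have hinj : Function.Injective (algebraMap P R) := hginj
  have hfin : Module.Finite P R := hgfin
  have hint : Algebra.IsIntegral P R := inferInstance
  set D : ℕ := (⊤ : Submodule P R).spanFinrank with hD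
  choose Cf kf hCf hkf using fun e : R => integral_growth (d := d) e (hint.isIntegral e)
  set C : ℝ := 3 + ∑ e ∈ E, Cf e with hC
  set k : ℕ := ∑ e ∈ E, kf e with hk
  have hC1 : 1 ≤ C := by
    have : 0 ≤ ∑ e ∈ E, Cf e := Finset.sum_nonneg fun e _ => hCf e
    linarith
  set ε : ℝ := 1 / (2 * (k * D + 1)) with hε
  have hε0 : 0 < ε := by positivity
  refine ⟨ε, hε0, ?_⟩
  intro t ht
  set κ : ℝ := k * ε * D with hκ
  have hκ0 : 0 ≤ κ := by positivity
  have hκ1 : κ < 1 := by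
    rw [hκ, hε, mul_one_div, div_mul_eq_mul_div, div_lt_one (by positivity)]
    have : (0 : ℝ) ≤ k * D := by positivity
    linarith
  have hdeg : (minpoly P t).natDegree ≤ D := minpoly.natDegree_le_spanFinrank P t
  have hmonic : (minpoly P t).Monic := minpoly.monic (hint.isIntegral t)
  -- the growth of the coefficients
  have hgrow : ∀ (j : ℕ) (z : Fin d → ℂ), ‖MvPolynomial.aeval z ((minpoly P t).coeff j)‖ ≤
      ((2 * C ^ ε) ^ D * (D.choose (D / 2) : ℝ)) * (1 + ∑ i, ‖z i‖) ^ κ := by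
    intro j z
    set ev : P →+* ℂ := (MvPolynomial.aeval z : P →ₐ[ℚ] ℂ).toRingHom with hev
    have hb : (1 : ℝ) ≤ 1 + ∑ i, ‖z i‖ := by
      have : 0 ≤ ∑ i, ‖z i‖ := Finset.sum_nonneg fun i _ => norm_nonneg _
      linarith
    set B : ℝ := 2 * C ^ ε * (1 + ∑ i, ‖z i‖) ^ (k * ε) with hB
    have hCe : 1 ≤ C ^ ε := Real.one_le_rpow hC1 hε0.le
    have hze : 1 ≤ (1 + ∑ i, ‖z i‖) ^ (k * ε) := Real.one_le_rpow hb (by positivity)
    have hB1 : 1 ≤ B := by
      rw [hB]
      nlinarith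
    have hroots : ∀ ρ ∈ ((minpoly P t).map ev).roots, ‖ρ‖ ≤ B := by
      intro ρ hρ
      have hρ' : ((minpoly P t).map ev).IsRoot ρ := Polynomial.isRoot_of_mem_roots hρ
      obtain ⟨φ, hφ1, hφ2⟩ := exists_hom hinj ev t ρ hρ'
      have h1 := ht φ
      rw [hφ2] at h1
      have hX : ∀ i, φ (algebraMap P R (MvPolynomial.X i)) = z i := by
        intro i
        have h2 := congrArg (fun h => h (MvPolynomial.X i)) hφ1
        change φ (algebraMap P R (MvPolynomial.X i)) = MvPolynomial.aeval z (MvPolynomial.X i) at h2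
        rw [h2, MvPolynomial.aeval_X]
      have h3 : 3 + ∑ e ∈ E, ‖φ e‖ ≤ C * (1 + ∑ i, ‖z i‖) ^ k := by
        have h4 : ∀ e ∈ E, ‖φ e‖ ≤ Cf e * (1 + ∑ i, ‖z i‖) ^ k := by
          intro e he
          have h5 := hkf e φ
          have h6 : (∑ i, ‖φ (algebraMap (MvPolynomial (Fin d) ℚ) R (MvPolynomial.X i))‖) =
              ∑ i, ‖z i‖ := Finset.sum_congr rfl (fun i _ => by rw [hX i])
          rw [h6] at h5
          refine le_trans h5 (mul_le_mul_of_nonneg_left (pow_le_pow_right₀ hb ?_) (hCf e))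
          exact Finset.single_le_sum (f := kf) (fun j _ => Nat.zero_le _) he
        have h7 := Finset.sum_le_sum h4
        rw [← Finset.sum_mul] at h7
        have h8 : 1 ≤ (1 + ∑ i, ‖z i‖) ^ k := one_le_pow₀ hb
        rw [hC, add_mul]
        linarith
      have h9 : (3 + ∑ e ∈ E, ‖φ e‖) ^ ε ≤ C ^ ε * (1 + ∑ i, ‖z i‖) ^ (k * ε) := by
        have h10 : (0 : ℝ) ≤ 3 + ∑ e ∈ E, ‖φ e‖ := by
          have : 0 ≤ ∑ e ∈ E, ‖φ e‖ := Finset.sum_nonneg fun e _ => norm_nonneg _
          linarith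
        calc (3 + ∑ e ∈ E, ‖φ e‖) ^ ε ≤ (C * (1 + ∑ i, ‖z i‖) ^ k) ^ ε :=
              Real.rpow_le_rpow h10 h3 hε0.le
          _ = C ^ ε * (1 + ∑ i, ‖z i‖) ^ (k * ε) := by
              rw [Real.mul_rpow (by linarith) (by positivity), ← Real.rpow_natCast,
                ← Real.rpow_mul (by linarith)]
      calc ‖ρ‖ ≤ 2 * (3 + ∑ e ∈ E, ‖φ e‖) ^ ε := h1
        _ ≤ B := by rw [hB]; linarith
    have h11 := Polynomial.coeff_bdd_of_roots_le ev hmonic (IsAlgClosed.splits _) hdeg hroots j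
    rw [Polynomial.coeff_map, max_eq_left hB1] at h11
    have h12 : ev ((minpoly P t).coeff j) = MvPolynomial.aeval z ((minpoly P t).coeff j) := rfl
    rw [h12] at h11
    refine le_trans h11 (le_of_eq ?_)
    have h13 : B ^ D = (2 * C ^ ε) ^ D * (1 + ∑ i, ‖z i‖) ^ κ := by
      rw [hB, mul_pow, hκ, Real.rpow_mul (by linarith) (k * ε) (D : ℝ), Real.rpow_natCast]
    rw [h13]
    ring
  -- the coefficients are constants
  have hconst : ∀ j, ∃ a : ℚ, (minpoly P t).coeff j = MvPolynomial.C a := fun j =>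
    mv_growth_const _ _ κ hκ0 hκ1 (hgrow j)
  have hlift : minpoly P t ∈ Polynomial.lifts (MvPolynomial.C : ℚ →+* P) := by
    rw [Polynomial.lifts_iff_coeff_lifts]
    intro j
    obtain ⟨a, ha⟩ := hconst j
    exact ⟨a, ha.symm⟩
  obtain ⟨q, hq1, _, hq3⟩ := Polynomial.lifts_and_natDegree_eq_and_monic hlift hmonic
  refine ⟨q, hq3, ?_⟩
  have h14 : algebraMap ℚ R = (algebraMap P R).comp (MvPolynomial.C : ℚ →+* P) :=
    Subsingleton.elim _ _
  rw [h14, ← Polynomial.eval₂_map, hq1]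
  exact minpoly.aeval P t

end MPc2b80f
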