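import Pool.Agent.Lib.MP_c2b80f_alB.Pow

/-!
# Transfer of growth bounds through weak commensurability
-/

open Matrix MatrixGroups

namespace MPc2b80f

private theorem transfer_dg_mul (s t : ℂˣ) : dg (s * t) = dg s * dg t := by
  apply Subtype.ext
  rw [Matrix.SpecialLinearGroup.coe_mul]
  ext i j
  fin_cases i <;> fin_cases j <;> simp [dg, Matrix.mul_apply, Fin.sum_univ_two, mul_comm]

private theorem transfer_dg_one : dg 1 = 1 := by
  apply Subtype.ext
  ext i j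
  fin_cases i <;> fin_cases j <;> simp [dg]

theorem dg_pow (t : ℂˣ) (n : ℕ) : (dg t) ^ n = dg (t ^ n) := by
  induction n with
  | zero => simp [transfer_dg_one]
  | succ n ih => rw [pow_succ, pow_succ, ih, transfer_dg_mul]

theorem nrm_dg (t : ℂˣ) : nrm (dg t) = ‖(t : ℂ)‖ + ‖(t : ℂ)‖⁻¹ := by
  simp [nrm, nr, dg]

private theorem transfer_isMS : IsMS (fun z : ℂ => ‖z‖) :=
  ⟨fun x => norm_nonneg x, norm_zero, norm_one, fun x y => norm_add_le x y,
    fun x y => norm_mul x y⟩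

theorem nrm_mul_le (g h : SL(2, ℂ)) : nrm (g * h) ≤ nrm g * nrm h := by
  have := nr_mul_le transfer_isMS (g : Matrix (Fin 2) (Fin 2) ℂ) (h : Matrix (Fin 2) (Fin 2) ℂ)
  simpa [nrm, Matrix.SpecialLinearGroup.coe_mul] using this

private theorem transfer_det (g : SL(2, ℂ)) : g.1 0 0 * g.1 1 1 - g.1 0 1 * g.1 1 0 = 1 := by
  have := g.2
  rwa [Matrix.det_fin_two] at this

theorem two_le_nrm (g : SL(2, ℂ)) : 2 ≤ nrm g := by
  have h1 := transfer_det g
  have h2 : (1 : ℝ) ≤ ‖g.1 0 0‖ * ‖g.1 1 1‖ + ‖g.1 0 1‖ * ‖g.1 1 0‖ := by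
    have h3 := norm_sub_le (g.1 0 0 * g.1 1 1) (g.1 0 1 * g.1 1 0)
    rwa [h1, norm_one, norm_mul, norm_mul] at h3
  show 2 ≤ ‖g.1 0 0‖ + ‖g.1 0 1‖ + ‖g.1 1 0‖ + ‖g.1 1 1‖
  have ha := norm_nonneg (g.1 0 0)
  have hb := norm_nonneg (g.1 0 1)
  have hc := norm_nonneg (g.1 1 0)
  have hd := norm_nonneg (g.1 1 1)
  by_contra hlt
  push Not at hlt
  nlinarith [sq_nonneg (‖g.1 0 0‖ - ‖g.1 1 1‖), sq_nonneg (‖g.1 0 1‖ - ‖g.1 1 0‖),
    mul_nonneg (add_nonneg ha hd) (add_nonneg hb hc)]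

private theorem transfer_conj (g p : SL(2, ℂ)) (t : ℂˣ)
    (h : (g : Matrix (Fin 2) (Fin 2) ℂ) * p = p * (dg t : Matrix (Fin 2) (Fin 2) ℂ)) :
    g = p * dg t * p⁻¹ := by
  rw [eq_mul_inv_iff_mul_eq]
  apply Subtype.ext
  rw [Matrix.SpecialLinearGroup.coe_mul, Matrix.SpecialLinearGroup.coe_mul]
  exact h

/-- An element of `SL_2(ℂ)` with two distinct eigenvalues `t`, `t⁻¹` is diagonalisable by an element
of `SL_2(ℂ)`. -/
theorem diag_of_trace (g : SL(2, ℂ)) (t : ℂˣ)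
    (ht : Matrix.trace (g : Matrix (Fin 2) (Fin 2) ℂ) = t + ((t⁻¹ : ℂˣ) : ℂ)) (hne : t ≠ t⁻¹) :
    ∃ p : SL(2, ℂ), g = p * dg t * p⁻¹ := by
  obtain ⟨A, hA⟩ := g
  have hdet : A 0 0 * A 1 1 - A 0 1 * A 1 0 = 1 := by rwa [Matrix.det_fin_two] at hA
  have htr : A 0 0 + A 1 1 = t + ((t⁻¹ : ℂˣ) : ℂ) := by
    have := ht
    rwa [Matrix.trace_fin_two] at this
  have htt : (t : ℂ) * ((t⁻¹ : ℂˣ) : ℂ) = 1 := by simp
  have hne' : (t : ℂ) - ((t⁻¹ : ℂˣ) : ℂ) ≠ 0 := by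
    intro h
    apply hne
    exact Units.ext (sub_eq_zero.mp h)
  set a := A 0 0 with ha
  set b := A 0 1 with hb
  set c := A 1 0 with hc
  set d := A 1 1 with hd
  set u : ℂ := (t : ℂ) with hu
  set v : ℂ := ((t⁻¹ : ℂˣ) : ℂ) with hv
  have hAe : A = !![a, b; c, d] := by
    ext i j; fin_cases i <;> fin_cases j <;> rfl
  by_cases hb0 : b = 0
  · by_cases hc0 : c = 0
    · -- diagonal
      have h1 : (a - u) * (a - v) = 0 := by
        have : d = u + v - a := by linear_combination htr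
        rw [hb0, this] at hdet
        linear_combination -hdet + htt
      rcases mul_eq_zero.mp h1 with h | h
      · refine ⟨1, transfer_conj _ _ _ ?_⟩
        have e1 : a = u := by linear_combination h
        have e2 : d = v := by linear_combination htr - h
        show A * (1 : Matrix (Fin 2) (Fin 2) ℂ) = 1 * !![u, 0; 0, v]
        rw [hAe, Matrix.mul_one, Matrix.one_mul, hb0, hc0, e1, e2]
      · have e1 : a = v := by linear_combination h
        have e2 : d = u := by linear_combination htr - h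
        refine ⟨⟨!![0, 1; -1, 0], by simp [Matrix.det_fin_two]⟩, transfer_conj _ _ _ ?_⟩
        show A * !![0, 1; -1, 0] = !![0, 1; -1, 0] * !![u, 0; 0, v]
        rw [hAe, hb0, hc0, e1, e2]
        ext i j
        fin_cases i <;> fin_cases j <;> simp [Matrix.mul_apply, Fin.sum_univ_two]
    · have hD : c * (u - v) ≠ 0 := mul_ne_zero hc0 hne'
      refine ⟨⟨!![u - d, (v - d) / (c * (u - v)); c, c / (c * (u - v))], ?_⟩,
        transfer_conj _ _ _ ?_⟩
      · rw [Matrix.det_fin_two]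
        simp only [Matrix.of_apply, Matrix.cons_val', Matrix.cons_val_zero, Matrix.cons_val_one,
          Matrix.cons_val_fin_one]
        field_simp
        ring
      · show A * !![u - d, (v - d) / (c * (u - v)); c, c / (c * (u - v))] =
          !![u - d, (v - d) / (c * (u - v)); c, c / (c * (u - v))] * !![u, 0; 0, v]
        rw [hAe]
        ext i j
        fin_cases i <;> fin_cases j <;>
          simp only [Matrix.mul_apply, Fin.sum_univ_two, Matrix.of_apply, Matrix.cons_val',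
            Matrix.cons_val_zero, Matrix.cons_val_one, Matrix.cons_val_fin_one, Fin.zero_eta,
            Fin.mk_one, Fin.isValue]
        · linear_combination u * htr - hdet + htt
        · field_simp
          linear_combination v * htr - hdet + htt
        · ring
        · field_simp
          ring
  · have hvu : v - u ≠ 0 := by
      intro h; apply hne'; linear_combination -h
    have hD : b * (v - u) ≠ 0 := mul_ne_zero hb0 hvu
    refine ⟨⟨!![b, b / (b * (v - u)); u - a, (v - a) / (b * (v - u))], ?_⟩,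
      transfer_conj _ _ _ ?_⟩
    · rw [Matrix.det_fin_two]
      simp only [Matrix.of_apply, Matrix.cons_val', Matrix.cons_val_zero, Matrix.cons_val_one,
        Matrix.cons_val_fin_one]
      field_simp
      ring
    · show A * !![b, b / (b * (v - u)); u - a, (v - a) / (b * (v - u))] =
        !![b, b / (b * (v - u)); u - a, (v - a) / (b * (v - u))] * !![u, 0; 0, v]
      rw [hAe]
      ext i j
      fin_cases i <;> fin_cases j <;>
        simp only [Matrix.mul_apply, Fin.sum_univ_two, Matrix.of_apply, Matrix.cons_val',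
          Matrix.cons_val_zero, Matrix.cons_val_one, Matrix.cons_val_fin_one, Fin.zero_eta,
          Fin.mk_one, Fin.isValue]
      · ring
      · field_simp
        ring
      · linear_combination u * htr - hdet + htt
      · field_simp
        linear_combination v * htr - hdet + htt

private theorem transfer_conj_pow (p : SL(2, ℂ)) (t : ℂˣ) (n : ℕ) :
    (p * dg t * p⁻¹) ^ n = p * dg (t ^ n) * p⁻¹ := by
  rw [conj_pow, dg_pow]

private theorem transfer_trace (p : SL(2, ℂ)) (t : ℂˣ) :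
    Matrix.trace ((p * dg t * p⁻¹ : SL(2, ℂ)) : Matrix (Fin 2) (Fin 2) ℂ) =
      t + ((t⁻¹ : ℂˣ) : ℂ) := by
  rw [Matrix.SpecialLinearGroup.coe_mul, Matrix.trace_mul_comm, ← Matrix.SpecialLinearGroup.coe_mul,
    ← mul_assoc, inv_mul_cancel, one_mul, Matrix.trace_fin_two]
  simp [dg]

private theorem transfer_map_trace {R : Type*} [CommRing R] (ι : R →+* ℂ) (g : SL(2, R)) (m : ℕ) :
    ι (Matrix.trace ((g ^ m : SL(2, R)) : Matrix (Fin 2) (Fin 2) R)) =
      Matrix.trace (((Matrix.SpecialLinearGroup.map ι g) ^ m : SL(2, ℂ)) :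
        Matrix (Fin 2) (Fin 2) ℂ) := by
  rw [← map_pow, Matrix.trace_fin_two, Matrix.trace_fin_two, map_add]
  rfl

private theorem transfer_two_case {R : Type*} [CommRing R] (ι : R →+* ℂ)
    (hι : Function.Injective ι) (N : R → ℝ) (hN : IsMS N) (B : ℝ) (hB : 0 ≤ B) (g : SL(2, R))
    (t : ℂˣ) (ht1 : 1 ≤ ‖(t : ℂ)‖) (k : ℕ)
    (h : ∀ n : ℕ, Matrix.trace (((Matrix.SpecialLinearGroup.map ι g) ^ (k * n) : SL(2, ℂ)) :
        Matrix (Fin 2) (Fin 2) ℂ) = 2) :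
    ∃ K' : ℝ, ∀ n : ℕ,
      N (Matrix.trace ((g ^ (k * n) : SL(2, R)) : Matrix (Fin 2) (Fin 2) R)) ≤
        K' * (‖(t : ℂ)‖ ^ B) ^ (k * n) := by
  refine ⟨2, fun n => ?_⟩
  have h1 : Matrix.trace ((g ^ (k * n) : SL(2, R)) : Matrix (Fin 2) (Fin 2) R) = ((2 : ℕ) : R) := by
    apply hι
    rw [transfer_map_trace, h n, map_natCast]
    norm_num
  rw [h1]
  have h2 : N ((2 : ℕ) : R) ≤ 2 := by
    have := hN.natCast_le 2
    simpa using this
  have h3 : (1 : ℝ) ≤ (‖(t : ℂ)‖ ^ B) ^ (k * n) := one_le_pow₀ (Real.one_le_rpow ht1 hB)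
  linarith

/-- The main transfer lemma. Proof. If `t = t⁻¹`, then `tr g = 2` or `-2`, and `tr (g ^ (2 n)) = 2`
by `trace_pow_eq` (compare with the matrix `1` or `-1`), so `k = 2`, `K' = 2` works. Otherwise `g` is
semisimple (over `ℂ`) by `diag_of_trace`. If `g` has finite order `m` take `k = m`, `K' = 2`. Otherwise take
`h ∈ Γ` weakly commensurable to `g`: the image of `g` is `p * dg s * p⁻¹`, the image of `h` is
`q * dg t' * q⁻¹` and `s ^ k₀ = t' ^ l₀ ≠ 1`, so `k₀, l₀ ≠ 0`. Put `k = |k₀|`, `l = |l₀|`. Then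
`tr (g ^ (k n)) = tr (h ^ (l n))` (apply `ι`: both are `s ^ (k₀ n) + s ^ (- k₀ n)`), hence
`N (tr (g ^ (k n))) ≤ K nrm (ι h ^ (l n)) ^ B` and
`nrm (ι h ^ (l n)) ≤ nrm q * nrm q⁻¹ * (|t'| ^ (l n) + |t'| ^ (- l n)) ≤ 2 nrm q nrm q⁻¹ ‖t‖ ^ (k n)`,
since `s + s⁻¹ = t + t⁻¹` gives `s = t` or `s = t⁻¹`. -/
theorem growth_of_dom {R : Type*} [CommRing R] (ι : R →+* ℂ) (hι : Function.Injective ι)
    (N : R → ℝ) (hN : IsMS N) (Γ : Subgroup SL(2, R)) (B K : ℝ) (hB : 0 ≤ B) (hK : 0 ≤ K)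
    (hDom : ∀ g ∈ Γ, N (Matrix.trace (g : Matrix (Fin 2) (Fin 2) R)) ≤
      K * (nrm (Matrix.SpecialLinearGroup.map ι g)) ^ B)
    (g : SL(2, R))
    (hwc : Semisimple (Matrix.SpecialLinearGroup.map ι g) →
      ¬ IsOfFinOrder (Matrix.SpecialLinearGroup.map ι g) →
      ∃ h ∈ Γ, WComm (Matrix.SpecialLinearGroup.map ι g) (Matrix.SpecialLinearGroup.map ι h))
    (t : ℂˣ) (ht : ι (Matrix.trace (g : Matrix (Fin 2) (Fin 2) R)) = t + ((t⁻¹ : ℂˣ) : ℂ))
    (ht1 : 1 ≤ ‖(t : ℂ)‖) :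
    ∃ k : ℕ, 1 ≤ k ∧ ∃ K' : ℝ, ∀ n : ℕ,
      N (Matrix.trace ((g ^ (k * n) : SL(2, R)) : Matrix (Fin 2) (Fin 2) R)) ≤
        K' * (‖(t : ℂ)‖ ^ B) ^ (k * n) := by
  have htr : Matrix.trace ((Matrix.SpecialLinearGroup.map ι g : SL(2, ℂ)) :
      Matrix (Fin 2) (Fin 2) ℂ) = t + ((t⁻¹ : ℂˣ) : ℂ) := by
    rw [← ht]
    have := transfer_map_trace ι g 1
    rw [pow_one, pow_one] at this
    exact this.symm
  by_cases hne : t = t⁻¹
  · refine ⟨2, by norm_num, transfer_two_case ι hι N hN B hB g t ht1 2 fun n => ?_⟩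
    rw [trace_pow_unit t _ htr]
    have h2 : t ^ 2 = 1 := by
      rw [pow_two]
      nth_rewrite 2 [hne]
      exact mul_inv_cancel t
    have h3 : (t⁻¹) ^ 2 = 1 := by rw [inv_pow, h2, inv_one]
    rw [pow_mul, h2, one_pow, pow_mul, h3, one_pow]
    norm_num
  obtain ⟨p₀, hp₀⟩ := diag_of_trace _ t htr hne
  by_cases hfin : IsOfFinOrder (Matrix.SpecialLinearGroup.map ι g)
  · obtain ⟨m, hm, hgm⟩ := isOfFinOrder_iff_pow_eq_one.mp hfin
    refine ⟨m, hm, transfer_two_case ι hι N hN B hB g t ht1 m fun n => ?_⟩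
    rw [pow_mul, hgm, one_pow, Matrix.SpecialLinearGroup.coe_one, Matrix.trace_one]
    simp
  obtain ⟨h, hh, p, q, s, t', k₀, l₀, hgp, hhq, hst, hs1⟩ := hwc ⟨p₀, t, hp₀⟩ hfin
  have hk₀ : k₀ ≠ 0 := by
    rintro rfl
    exact hs1 (zpow_zero s)
  refine ⟨k₀.natAbs, Int.natAbs_pos.mpr hk₀,
    K * (2 * (nrm q * nrm q⁻¹)) ^ B, fun n => ?_⟩
  set k := k₀.natAbs with hk
  set l := l₀.natAbs with hl
  -- the two possible relations
  have hrel : s ^ k = t' ^ l ∨ s ^ k = (t' ^ l)⁻¹ := by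
    rcases Int.natAbs_eq k₀ with e1 | e1 <;> rcases Int.natAbs_eq l₀ with e2 | e2 <;>
      rw [e1, e2] at hst <;> simp only [_root_.zpow_neg, zpow_natCast, _root_.inv_inj] at hst
    · exact Or.inl hst
    · exact Or.inr hst
    · right
      rw [← hst, inv_inv]
    · exact Or.inl hst
  -- s = t or s = t⁻¹
  have hst2 : s = t ∨ s = t⁻¹ := by
    have h1 : (s : ℂ) + ((s⁻¹ : ℂˣ) : ℂ) = t + ((t⁻¹ : ℂˣ) : ℂ) := by
      rw [← htr, hgp, transfer_trace]
    have h2 : (s : ℂ) * ((s⁻¹ : ℂˣ) : ℂ) = 1 := by simp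
    have h3 : (t : ℂ) * ((t⁻¹ : ℂˣ) : ℂ) = 1 := by simp
    have h4 : ((s : ℂ) - t) * ((s : ℂ) - ((t⁻¹ : ℂˣ) : ℂ)) = 0 := by
      linear_combination (s : ℂ) * h1 - h2 + h3
    rcases mul_eq_zero.mp h4 with h | h
    · left; exact Units.ext (sub_eq_zero.mp h)
    · right; exact Units.ext (sub_eq_zero.mp h)
  -- equality of traces
  have htrace : Matrix.trace ((g ^ (k * n) : SL(2, R)) : Matrix (Fin 2) (Fin 2) R) =
      Matrix.trace ((h ^ (l * n) : SL(2, R)) : Matrix (Fin 2) (Fin 2) R) := by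
    apply hι
    rw [transfer_map_trace, transfer_map_trace, hgp, hhq, transfer_conj_pow, transfer_conj_pow,
      transfer_trace, transfer_trace]
    have e1 : s ^ (k * n) = t' ^ (l * n) ∨ s ^ (k * n) = (t' ^ (l * n))⁻¹ := by
      rcases hrel with e | e
      · left; rw [pow_mul, e, ← pow_mul]
      · right; rw [pow_mul, e, inv_pow, ← pow_mul]
    rcases e1 with e | e
    · rw [e]
    · rw [e, inv_inv, add_comm]
  -- the norm of the power of h
  have hnt : ‖((t' ^ (l * n) : ℂˣ) : ℂ)‖ + ‖((t' ^ (l * n) : ℂˣ) : ℂ)‖⁻¹ =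
      ‖(t : ℂ)‖ ^ (k * n) + (‖(t : ℂ)‖ ^ (k * n))⁻¹ := by
    have e1 : t' ^ (l * n) = s ^ (k * n) ∨ t' ^ (l * n) = (s ^ (k * n))⁻¹ := by
      rcases hrel with e | e
      · left; rw [pow_mul, ← e, ← pow_mul]
      · right; rw [pow_mul s, e, inv_pow, ← pow_mul, inv_inv]
    have e2 : t' ^ (l * n) = t ^ (k * n) ∨ t' ^ (l * n) = (t ^ (k * n))⁻¹ := by
      rcases hst2 with e | e
      · rw [e] at e1; exact e1
      · rw [e, inv_pow, inv_inv] at e1; exact e1.symm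
    rcases e2 with e | e
    · rw [e]; simp
    · rw [e]; simp [add_comm]
  have hpos : 0 < ‖(t : ℂ)‖ := lt_of_lt_of_le one_pos ht1
  have hq1 : 2 ≤ nrm q := two_le_nrm q
  have hq2 : 2 ≤ nrm q⁻¹ := two_le_nrm q⁻¹
  have hnrm : nrm (Matrix.SpecialLinearGroup.map ι (h ^ (l * n))) ≤
      2 * (nrm q * nrm q⁻¹) * ‖(t : ℂ)‖ ^ (k * n) := by
    rw [map_pow, hhq, transfer_conj_pow]
    calc nrm (q * dg (t' ^ (l * n)) * q⁻¹) ≤ nrm (q * dg (t' ^ (l * n))) * nrm q⁻¹ :=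
          nrm_mul_le _ _
      _ ≤ (nrm q * nrm (dg (t' ^ (l * n)))) * nrm q⁻¹ :=
          mul_le_mul_of_nonneg_right (nrm_mul_le _ _) (by linarith)
      _ = nrm q * nrm q⁻¹ * (‖(t : ℂ)‖ ^ (k * n) + (‖(t : ℂ)‖ ^ (k * n))⁻¹) := by
          rw [nrm_dg, hnt]; ring
      _ ≤ nrm q * nrm q⁻¹ * (‖(t : ℂ)‖ ^ (k * n) + ‖(t : ℂ)‖ ^ (k * n)) := by
          apply mul_le_mul_of_nonneg_left _ (by positivity)
          have h1 : 1 ≤ ‖(t : ℂ)‖ ^ (k * n) := one_le_pow₀ ht1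
          have h2 : (‖(t : ℂ)‖ ^ (k * n))⁻¹ ≤ 1 := inv_le_one_of_one_le₀ h1
          linarith
      _ = _ := by ring
  have hnn : 0 ≤ nrm (Matrix.SpecialLinearGroup.map ι (h ^ (l * n))) := by
    linarith [two_le_nrm (Matrix.SpecialLinearGroup.map ι (h ^ (l * n)))]
  rw [htrace]
  calc N (Matrix.trace ((h ^ (l * n) : SL(2, R)) : Matrix (Fin 2) (Fin 2) R)) ≤
        K * (nrm (Matrix.SpecialLinearGroup.map ι (h ^ (l * n)))) ^ B :=
        hDom _ (Γ.pow_mem hh _)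
    _ ≤ K * (2 * (nrm q * nrm q⁻¹) * ‖(t : ℂ)‖ ^ (k * n)) ^ B :=
        mul_le_mul_of_nonneg_left (Real.rpow_le_rpow hnn hnrm hB) hK
    _ = K * (2 * (nrm q * nrm q⁻¹)) ^ B * (‖(t : ℂ)‖ ^ B) ^ (k * n) := by
        rw [Real.mul_rpow (by positivity) (by positivity), ← Real.rpow_natCast,
          ← Real.rpow_natCast, ← Real.rpow_mul hpos.le, ← Real.rpow_mul hpos.le,
          mul_comm ((k * n : ℕ) : ℝ) B]
        ring

end MPc2b80f
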