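import Pool.Agent.Lib.MP_c2b80f_alB.Cartan
import Pool.Agent.Lib.MP_c2b80f_alB.Transfer

/-!
# Convex cocompact groups are logarithmically generated
-/

open Matrix MatrixGroups Topology

namespace MPc2b80f

theorem dg_mul (s t : ℂˣ) : dg s * dg t = dg (s * t) := by
  apply Subtype.ext
  show !![(s : ℂ), 0; 0, ((s⁻¹ : ℂˣ) : ℂ)] * !![(t : ℂ), 0; 0, ((t⁻¹ : ℂˣ) : ℂ)] =
    !![((s * t : ℂˣ) : ℂ), 0; 0, (((s * t)⁻¹ : ℂˣ) : ℂ)]
  ext i j
  fin_cases i <;> fin_cases j <;> simp [Matrix.mul_apply, mul_comm]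

theorem aexp_add (s t : ℝ) : aexp (s + t) = aexp s * aexp t := by
  unfold aexp
  rw [dg_mul]
  congr 1
  apply Units.ext
  simp [Real.exp_add]

theorem aexp_zero : aexp 0 = 1 := by
  have h := aexp_add 0 0
  rw [add_zero] at h
  exact (mul_eq_left.mp h.symm)

theorem continuous_aexp : Continuous aexp := by
  have hind : Topology.IsInducing (fun g : SL(2, ℂ) => (g : Matrix (Fin 2) (Fin 2) ℂ)) :=
    Topology.IsInducing.subtypeVal
  rw [hind.continuous_iff]
  refine continuous_matrix fun i j => ?_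
  fin_cases i <;> fin_cases j
  · show Continuous fun s : ℝ => ((Real.exp s : ℝ) : ℂ)
    fun_prop
  · show Continuous fun s : ℝ => (0 : ℂ)
    fun_prop
  · show Continuous fun s : ℝ => (0 : ℂ)
    fun_prop
  · have h : (fun s : ℝ => ((Real.exp (-s) : ℝ) : ℂ)) =
        fun s : ℝ => (((Units.mk0 ((Real.exp s : ℝ) : ℂ)
          (by exact_mod_cast (Real.exp_pos s).ne'))⁻¹ : ℂˣ) : ℂ) := by
      funext s
      rw [Units.val_inv_eq_inv_val, Units.val_mk0, Real.exp_neg, Complex.ofReal_inv]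
    show Continuous fun s : ℝ => (((Units.mk0 ((Real.exp s : ℝ) : ℂ)
          (by exact_mod_cast (Real.exp_pos s).ne'))⁻¹ : ℂˣ) : ℂ)
    rw [← h]
    fun_prop

theorem exp_le_nrm_aexp (s : ℝ) : Real.exp s ≤ nrm (aexp s) := by
  unfold aexp
  rw [nrm_dg]
  have h : ‖((Units.mk0 ((Real.exp s : ℝ) : ℂ)
      (by exact_mod_cast (Real.exp_pos s).ne') : ℂˣ) : ℂ)‖ = Real.exp s := by
    rw [Units.val_mk0, Complex.norm_real, Real.norm_of_nonneg (Real.exp_pos s).le]
  rw [h]
  have := inv_pos.mpr (Real.exp_pos s)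
  linarith

/-- Convex cocompact groups are logarithmically generated. -/
theorem logGen_of_convexCocompact (Γ : Subgroup SL(2, ℂ)) (h : ConvexCocompact Γ) : LogGen Γ := by
  classical
  obtain ⟨hdisc, K, hK, hseg⟩ := h
  set K' : Set SL(2, ℂ) := K ∪ SUtwo with hK'
  have hK'c : IsCompact K' := hK.union isCompact_SUtwo
  have h1SU : (1 : SL(2, ℂ)) ∈ SUtwo := by simp [SUtwo]
  set A₁ : Set SL(2, ℂ) := aexp '' Set.Icc 0 1 with hA₁
  have hA₁c : IsCompact A₁ := isCompact_Icc.image continuous_aexp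
  set Q : Set SL(2, ℂ) := (fun x : (SL(2, ℂ) × SL(2, ℂ)) × SL(2, ℂ) => x.1.1 * x.1.2 * x.2⁻¹) ''
    ((K' ×ˢ A₁) ×ˢ K') with hQ
  have hQc : IsCompact Q := by
    refine ((hK'c.prod hA₁c).prod hK'c).image ?_
    fun_prop
  have hΓc : IsClosed (Γ : Set SL(2, ℂ)) := by
    have := hdisc
    exact Subgroup.isClosed_of_discrete
  have hfin : (Q ∩ (Γ : Set SL(2, ℂ))).Finite := by
    have hc : IsCompact (Q ∩ (Γ : Set SL(2, ℂ))) := hQc.inter_right hΓc
    refine hc.finite ?_
    exact ⟨DiscreteTopology.of_subset (s := (Γ : Set SL(2, ℂ))) hdisc Set.inter_subset_right⟩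
  refine ⟨hfin.toFinset, ∅, 10, by simp, ?_⟩
  intro γ hγ
  obtain ⟨k₁, hk₁, k₂, hk₂, s, hs, hγe⟩ := cartan γ
  -- the induction
  have key : ∀ n : ℕ, ∃ l : List (SL(2, ℂ) × ℤ),
      (∀ x ∈ l, x.1 ∈ hfin.toFinset ∧ x.2 = 1) ∧ l.length = n ∧ pr l ∈ Γ ∧
      ∃ κ ∈ K', k₁ * aexp (min (n : ℝ) s) = pr l * κ := by
    intro n
    induction n with
    | zero =>
      refine ⟨[], by simp, rfl, by simp [pr, one_mem], k₁, Or.inr hk₁, ?_⟩
      have : min ((0 : ℕ) : ℝ) s = 0 := by simpa using hs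
      rw [this, aexp_zero]
      simp [pr]
    | succ n ih =>
      obtain ⟨l, hl, hlen, hlΓ, κ, hκ, he⟩ := ih
      have ht : min ((n + 1 : ℕ) : ℝ) s ∈ Set.Icc 0 s :=
        ⟨le_min (by positivity) hs, min_le_right _ _⟩
      obtain ⟨γ', hγ', κ', hκ', he'⟩ := hseg γ hγ k₁ hk₁ k₂ hk₂ s hs hγe _ ht
      have hx : (pr l)⁻¹ * γ' = κ * aexp (min ((n + 1 : ℕ) : ℝ) s - min (n : ℝ) s) * κ'⁻¹ := by
        have h3 : aexp (min ((n + 1 : ℕ) : ℝ) s) =
            aexp (min (n : ℝ) s) * aexp (min ((n + 1 : ℕ) : ℝ) s - min (n : ℝ) s) := by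
          rw [← aexp_add]; congr 1; ring
        have h4 : γ' = k₁ * aexp (min ((n + 1 : ℕ) : ℝ) s) * κ'⁻¹ := by
          rw [he']; group
        rw [h4, h3, ← mul_assoc k₁, he]
        group
      have hstep : min ((n + 1 : ℕ) : ℝ) s - min (n : ℝ) s ∈ Set.Icc (0:ℝ) 1 := by
        constructor
        · have : min (n : ℝ) s ≤ min ((n + 1 : ℕ) : ℝ) s := by
            apply min_le_min_right
            push_cast; linarith
          linarith
        · rcases le_total (n : ℝ) s with h | h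
          · rw [min_eq_left h]
            have := min_le_left ((n + 1 : ℕ) : ℝ) s
            push_cast at this ⊢
            linarith
          · rw [min_eq_right h]
            have := min_le_right ((n + 1 : ℕ) : ℝ) s
            linarith
      refine ⟨l ++ [((pr l)⁻¹ * γ', 1)], ?_, by simp [hlen], ?_, κ', Or.inl hκ', ?_⟩
      · intro x hx'
        rcases List.mem_append.mp hx' with hx' | hx'
        · exact hl x hx'
        · rw [List.mem_singleton] at hx'
          subst hx'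
          refine ⟨?_, rfl⟩
          rw [Set.Finite.mem_toFinset]
          refine ⟨?_, mul_mem (inv_mem hlΓ) hγ'⟩
          rw [hx]
          exact ⟨((κ, aexp (min ((n + 1 : ℕ) : ℝ) s - min (n : ℝ) s)), κ'),
            ⟨⟨hκ, ⟨_, hstep, rfl⟩⟩, Or.inl hκ'⟩, rfl⟩
      · have : pr (l ++ [((pr l)⁻¹ * γ', 1)]) = γ' := by
          simp [pr]
        rw [this]; exact hγ'
      · have : pr (l ++ [((pr l)⁻¹ * γ', 1)]) = γ' := by
          simp [pr]
        rw [this]; exact he'
  obtain ⟨l, hl, hlen, hlΓ, κ, hκ, he⟩ := key ⌈s⌉₊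
  have hmin : min ((⌈s⌉₊ : ℕ) : ℝ) s = s := min_eq_right (Nat.le_ceil s)
  rw [hmin] at he
  have hlast : (pr l)⁻¹ * γ = κ * aexp 0 * (k₂⁻¹)⁻¹ := by
    rw [hγe, he, aexp_zero]; group
  refine ⟨l ++ [((pr l)⁻¹ * γ, 1)], ?_, ?_, ?_⟩
  · intro x hx
    left
    rcases List.mem_append.mp hx with hx | hx
    · exact hl x hx
    · rw [List.mem_singleton] at hx
      subst hx
      refine ⟨?_, rfl⟩
      rw [Set.Finite.mem_toFinset]
      refine ⟨?_, mul_mem (inv_mem hlΓ) hγ⟩
      show (pr l)⁻¹ * γ ∈ Q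
      rw [hlast]
      exact ⟨((κ, aexp 0), k₂⁻¹), ⟨⟨hκ, ⟨0, by simp, rfl⟩⟩, Or.inr (inv_mem_SUtwo _ hk₂)⟩, rfl⟩
  · simp [pr]
  · -- the cost
    have hcost : ∀ l' : List (SL(2, ℂ) × ℤ), (∀ x ∈ l', x.2 = 1) →
        cost l' = l'.length * (1 + Real.log 2) := by
      intro l' hl'
      induction l' with
      | nil => simp [cost]
      | cons a l' ih =>
        have h1 := ih fun x hx => hl' x (List.mem_cons_of_mem _ hx)
        have h2 := hl' a List.mem_cons_self
        have h3 : cost (a :: l') = (1 + Real.log (1 + |(a.2 : ℝ)|)) + cost l' := by simp [cost]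
        rw [h3, h1, h2]
        push_cast
        rw [List.length_cons]
        push_cast
        rw [abs_one, show (1:ℝ) + 1 = 2 by norm_num]
        ring
    rw [hcost _ (by
      intro x hx
      rcases List.mem_append.mp hx with hx | hx
      · exact (hl x hx).2
      · rw [List.mem_singleton] at hx
        subst hx
        rfl)]
    rw [List.length_append, hlen]
    simp only [List.length_cons, List.length_nil, zero_add]
    push_cast
    have hceil : ((⌈s⌉₊ : ℕ) : ℝ) ≤ s + 1 := (Nat.ceil_lt_add_one hs).le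
    have hlog2 : Real.log 2 ≤ 1 := by
      have := Real.log_two_lt_d9; linarith
    have hlog20 : 0 ≤ Real.log 2 := Real.log_nonneg (by norm_num)
    have hnrm : Real.exp s ≤ 16 * nrm γ := by
      have h1 : aexp s = k₁⁻¹ * γ * k₂⁻¹ := by rw [hγe]; group
      have h2 := exp_le_nrm_aexp s
      have h3 : nrm (k₁⁻¹ * γ * k₂⁻¹) ≤ nrm k₁⁻¹ * nrm γ * nrm k₂⁻¹ :=
        (nrm_mul_le _ _).trans (mul_le_mul_of_nonneg_right (nrm_mul_le _ _)
          (by linarith [two_le_nrm k₂⁻¹]))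
      have h4 := nrm_SUtwo_le _ (inv_mem_SUtwo _ hk₁)
      have h5 := nrm_SUtwo_le _ (inv_mem_SUtwo _ hk₂)
      have h6 := two_le_nrm γ
      have h7 : nrm k₁⁻¹ * nrm γ * nrm k₂⁻¹ ≤ 4 * nrm γ * 4 := by
        have h8 := two_le_nrm k₁⁻¹
        have h9 := two_le_nrm k₂⁻¹
        refine mul_le_mul (mul_le_mul_of_nonneg_right h4 (by linarith)) h5 (by linarith) (by positivity)
      rw [h1] at h2
      linarith
    have hpos : 0 < nrm γ := by linarith [two_le_nrm γ]
    have hs2 : s ≤ Real.log 16 + Real.log (nrm γ) := by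
      rw [← Real.log_mul (by norm_num) hpos.ne', ← Real.log_exp s]
      exact Real.log_le_log (Real.exp_pos s) hnrm
    have hlog16 : Real.log 16 ≤ 3 := by
      have : Real.log 16 = 4 * Real.log 2 := by
        rw [show (16:ℝ) = 2 ^ 4 by norm_num, Real.log_pow]; norm_num
      rw [this]
      have := Real.log_two_lt_d9
      linarith
    have hlogn : 0 ≤ Real.log (nrm γ) := Real.log_nonneg (by linarith [two_le_nrm γ])
    have h10 : (((⌈s⌉₊ : ℕ) : ℝ) + 1) * (1 + Real.log 2) ≤ (s + 2) * 2 := by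
      refine mul_le_mul (by linarith) (by linarith) (by linarith) (by linarith)
    linarith

end MPc2b80f
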