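import Pool.Agent.Lib.MP_c2b80f_alB.Defs

/-!
# Convex cocompact groups
-/

open Matrix MatrixGroups

namespace MPc2b80f

/-- The diagonal matrix with entries `exp s` and `exp (-s)`. -/
noncomputable def aexp (s : ℝ) : SL(2, ℂ) :=
  dg (Units.mk0 ((Real.exp s : ℝ) : ℂ) (by exact_mod_cast (Real.exp_pos s).ne'))

/-- The special unitary group `SU(2)`. -/
def SUtwo : Set SL(2, ℂ) :=
  {k | (k : Matrix (Fin 2) (Fin 2) ℂ) * (k : Matrix (Fin 2) (Fin 2) ℂ)ᴴ = 1}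

/-- Convex cocompact subgroups of `SL_2(ℂ)`, acting on hyperbolic 3-space `SL_2(ℂ) / SU(2)` with base point `o` the class
of `1`: `Γ` is discrete and there is a compact set `K` such that for every `γ` in `Γ` the geodesic segment from `o`
to `γ o` is contained in `Γ K o`. (If `γ = k₁ a(s) k₂` is a Cartan decomposition, this segment consists of the points
`k₁ a(t) o`, `0 ≤ t ≤ s`.) -/
def ConvexCocompact (Γ : Subgroup SL(2, ℂ)) : Prop :=
  DiscreteTopology Γ ∧ ∃ K : Set SL(2, ℂ), IsCompact K ∧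
    ∀ γ ∈ Γ, ∀ k₁ ∈ SUtwo, ∀ k₂ ∈ SUtwo, ∀ s : ℝ, 0 ≤ s → γ = k₁ * aexp s * k₂ →
      ∀ t ∈ Set.Icc 0 s, ∃ γ' ∈ Γ, ∃ κ ∈ K, k₁ * aexp t = γ' * κ

end MPc2b80f
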