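import Pool.Agent.Lib.MP_c2b80f_alB.CCDefs

/-!
# Cartan decomposition in `SL_2(ℂ)`
-/

open Matrix MatrixGroups

namespace MPc2b80f

theorem inv_mem_SUtwo (k : SL(2, ℂ)) (hk : k ∈ SUtwo) : k⁻¹ ∈ SUtwo := by
  have h1 : (k : Matrix (Fin 2) (Fin 2) ℂ) * (k : Matrix (Fin 2) (Fin 2) ℂ)ᴴ = 1 := hk
  have h2 : (k : Matrix (Fin 2) (Fin 2) ℂ)ᴴ * (k : Matrix (Fin 2) (Fin 2) ℂ) = 1 :=
    mul_eq_one_comm.1 h1
  have h3 : ((k⁻¹ : SL(2, ℂ)) : Matrix (Fin 2) (Fin 2) ℂ) *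
      (k : Matrix (Fin 2) (Fin 2) ℂ) = 1 := by
    rw [← Matrix.SpecialLinearGroup.coe_mul, inv_mul_cancel, Matrix.SpecialLinearGroup.coe_one]
  have h4 : ((k⁻¹ : SL(2, ℂ)) : Matrix (Fin 2) (Fin 2) ℂ) =
      (k : Matrix (Fin 2) (Fin 2) ℂ)ᴴ := by
    calc ((k⁻¹ : SL(2, ℂ)) : Matrix (Fin 2) (Fin 2) ℂ)
        = ((k⁻¹ : SL(2, ℂ)) : Matrix (Fin 2) (Fin 2) ℂ) *
          ((k : Matrix (Fin 2) (Fin 2) ℂ) * (k : Matrix (Fin 2) (Fin 2) ℂ)ᴴ) := by
          rw [h1, mul_one]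
      _ = (k : Matrix (Fin 2) (Fin 2) ℂ)ᴴ := by rw [← mul_assoc, h3, one_mul]
  change ((k⁻¹ : SL(2, ℂ)) : Matrix (Fin 2) (Fin 2) ℂ) *
    ((k⁻¹ : SL(2, ℂ)) : Matrix (Fin 2) (Fin 2) ℂ)ᴴ = 1
  rw [h4, conjTranspose_conjTranspose, h2]

private theorem Cartan_unitary (k : SL(2, ℂ)) (hk : k ∈ SUtwo) :
    (k : Matrix (Fin 2) (Fin 2) ℂ) ∈ Matrix.unitaryGroup (Fin 2) ℂ :=
  Matrix.mem_unitaryGroup_iff.2 hk

/-- The entries of elements of `SU(2)` have absolute value at most 1. -/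
theorem nrm_SUtwo_le (k : SL(2, ℂ)) (hk : k ∈ SUtwo) : nrm k ≤ 4 := by
  have h := fun i j => entry_norm_bound_of_unitary (Cartan_unitary k hk) i j
  unfold nrm nr
  have h1 := h 0 0
  have h2 := h 0 1
  have h3 := h 1 0
  have h4 := h 1 1
  simp only
  linarith

/-- `SU(2)` is compact. -/
theorem isCompact_SUtwo : IsCompact SUtwo := by
  have h1 : IsCompact (Set.pi Set.univ fun _ : Fin 2 => Set.pi Set.univ fun _ : Fin 2 =>
      Metric.closedBall (0 : ℂ) 1) :=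
    isCompact_univ_pi fun _ => isCompact_univ_pi fun _ => isCompact_closedBall _ _
  have h2 : IsClosed {A : Matrix (Fin 2) (Fin 2) ℂ | A * Aᴴ = 1} :=
    isClosed_eq (by fun_prop) continuous_const
  have h3 : IsCompact {A : Matrix (Fin 2) (Fin 2) ℂ | A * Aᴴ = 1} := by
    apply IsCompact.of_isClosed_subset h1 h2
    intro A hA i _ j _
    rw [mem_closedBall_zero_iff]
    exact entry_norm_bound_of_unitary (Matrix.mem_unitaryGroup_iff.2 hA) i j
  have h4 : (SUtwo : Set SL(2, ℂ)) = (fun k : SL(2, ℂ) => (k : Matrix (Fin 2) (Fin 2) ℂ)) ⁻¹'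
      {A : Matrix (Fin 2) (Fin 2) ℂ | A * Aᴴ = 1} := rfl
  rw [h4]
  exact Matrix.SpecialLinearGroup.isClosedEmbedding_val.isCompact_preimage h3

/-- a unit eigenvector of `gᴴ g` for an eigenvalue `d ≥ 1` -/
private theorem Cartan_eigen (g : SL(2, ℂ)) : ∃ (d : ℝ) (p q : ℂ), 1 ≤ d ∧
    (starRingEnd ℂ) p * p + (starRingEnd ℂ) q * q = 1 ∧
    ((g : Matrix (Fin 2) (Fin 2) ℂ)ᴴ * (g : Matrix (Fin 2) (Fin 2) ℂ)) 0 0 * p +
      ((g : Matrix (Fin 2) (Fin 2) ℂ)ᴴ * (g : Matrix (Fin 2) (Fin 2) ℂ)) 0 1 * q = d * p ∧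
    ((g : Matrix (Fin 2) (Fin 2) ℂ)ᴴ * (g : Matrix (Fin 2) (Fin 2) ℂ)) 1 0 * p +
      ((g : Matrix (Fin 2) (Fin 2) ℂ)ᴴ * (g : Matrix (Fin 2) (Fin 2) ℂ)) 1 1 * q = d * q := by
  set A := (g : Matrix (Fin 2) (Fin 2) ℂ) with hA
  set h := Aᴴ * A with hh
  have hdetA : A.det = 1 := g.2
  have hdet : h 0 0 * h 1 1 - h 0 1 * h 1 0 = 1 := by
    rw [← Matrix.det_fin_two, hh, Matrix.det_mul, Matrix.det_conjTranspose, hdetA]
    simp
  set a : ℝ := ‖A 0 0‖ ^ 2 + ‖A 1 0‖ ^ 2 with ha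
  set c : ℝ := ‖A 0 1‖ ^ 2 + ‖A 1 1‖ ^ 2 with hc
  have h00 : h 0 0 = (a : ℂ) := by
    rw [hh, Matrix.mul_apply, Fin.sum_univ_two, Matrix.conjTranspose_apply,
      Matrix.conjTranspose_apply, ha]
    push_cast
    rw [← Complex.conj_mul', ← Complex.conj_mul']
    rfl
  have h11 : h 1 1 = (c : ℂ) := by
    rw [hh, Matrix.mul_apply, Fin.sum_univ_two, Matrix.conjTranspose_apply,
      Matrix.conjTranspose_apply, hc]
    push_cast
    rw [← Complex.conj_mul', ← Complex.conj_mul']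
    rfl
  have h10 : h 1 0 = (starRingEnd ℂ) (h 0 1) := by
    rw [hh, Matrix.mul_apply, Matrix.mul_apply, Fin.sum_univ_two, Fin.sum_univ_two]
    simp only [Matrix.conjTranspose_apply, map_add, map_mul]
    simp only [starRingEnd_apply, star_star]
    ring
  have hreal : a * c = 1 + ‖h 0 1‖ ^ 2 := by
    have e1 : (a : ℂ) * c - h 0 1 * (starRingEnd ℂ) (h 0 1) = 1 := by
      rw [← h00, ← h11, ← h10]
      exact hdet
    rw [Complex.mul_conj'] at e1
    have e2 : ((a * c - ‖h 0 1‖ ^ 2 : ℝ) : ℂ) = ((1 : ℝ) : ℂ) := by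
      push_cast
      exact e1
    have e3 := Complex.ofReal_injective e2
    linarith
  have ha0 : 0 ≤ a := by positivity
  have hc0 : 0 ≤ c := by positivity
  have hT : 4 ≤ (a + c) ^ 2 := by nlinarith [sq_nonneg (a - c), sq_nonneg ‖h 0 1‖]
  have hT2 : 2 ≤ a + c := by nlinarith
  set r := √((a + c) ^ 2 - 4) with hr
  have hr2 : r ^ 2 = (a + c) ^ 2 - 4 := Real.sq_sqrt (by linarith)
  have hr0 : 0 ≤ r := Real.sqrt_nonneg _
  set d : ℝ := ((a + c) + r) / 2 with hd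
  have hd1 : 1 ≤ d := by rw [hd]; linarith
  have hdd : d ^ 2 - (a + c) * d + 1 = 0 := by
    rw [hd]
    nlinarith
  have hsing : (h - (d : ℂ) • (1 : Matrix (Fin 2) (Fin 2) ℂ)).det = 0 := by
    rw [Matrix.det_fin_two]
    simp only [Matrix.sub_apply, Matrix.smul_apply, Matrix.one_apply_eq, smul_eq_mul,
      Matrix.one_apply_ne (show (0 : Fin 2) ≠ 1 by decide),
      Matrix.one_apply_ne (show (1 : Fin 2) ≠ 0 by decide)]
    have e1 : ((d ^ 2 - (a + c) * d + 1 : ℝ) : ℂ) = 0 := by rw [hdd]; simp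
    push_cast at e1
    rw [h00, h11] at hdet ⊢
    linear_combination e1 + hdet
  obtain ⟨v, hv0, hv⟩ := Matrix.exists_mulVec_eq_zero_iff.2 hsing
  have e1 := congrFun hv 0
  have e2 := congrFun hv 1
  simp only [Matrix.mulVec, dotProduct, Fin.sum_univ_two, Matrix.sub_apply, Matrix.smul_apply,
    Matrix.one_apply_eq, smul_eq_mul, Matrix.one_apply_ne (show (0 : Fin 2) ≠ 1 by decide),
    Matrix.one_apply_ne (show (1 : Fin 2) ≠ 0 by decide), Pi.zero_apply] at e1 e2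
  set n : ℝ := √(‖v 0‖ ^ 2 + ‖v 1‖ ^ 2) with hn
  have hpos : 0 < ‖v 0‖ ^ 2 + ‖v 1‖ ^ 2 := by
    by_contra hcon
    have h5 : ‖v 0‖ ^ 2 + ‖v 1‖ ^ 2 = 0 := le_antisymm (not_lt.1 hcon) (by positivity)
    have h6 : ‖v 0‖ = 0 := by nlinarith [sq_nonneg ‖v 0‖, sq_nonneg ‖v 1‖]
    have h7 : ‖v 1‖ = 0 := by nlinarith [sq_nonneg ‖v 0‖, sq_nonneg ‖v 1‖]
    apply hv0
    funext i
    fin_cases i
    · exact norm_eq_zero.1 h6
    · exact norm_eq_zero.1 h7
  have hn0 : 0 < n := Real.sqrt_pos.2 hpos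
  have hn2 : n ^ 2 = ‖v 0‖ ^ 2 + ‖v 1‖ ^ 2 := Real.sq_sqrt hpos.le
  have hnC : (n : ℂ) ≠ 0 := by exact_mod_cast hn0.ne'
  refine ⟨d, v 0 / n, v 1 / n, hd1, ?_, ?_, ?_⟩
  · rw [map_div₀, map_div₀, Complex.conj_ofReal]
    have e3 : (starRingEnd ℂ) (v 0) / n * (v 0 / n) + (starRingEnd ℂ) (v 1) / n * (v 1 / n) =
        ((starRingEnd ℂ) (v 0) * v 0 + (starRingEnd ℂ) (v 1) * v 1) / (n : ℂ) ^ 2 := by
      field_simp
    rw [e3, Complex.conj_mul', Complex.conj_mul']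
    have e4 : ((n : ℂ)) ^ 2 = (‖v 0‖ : ℂ) ^ 2 + (‖v 1‖ : ℂ) ^ 2 := by exact_mod_cast hn2
    rw [← e4]
    exact div_self (pow_ne_zero 2 hnC)
  · field_simp
    linear_combination e1
  · field_simp
    linear_combination e2

private theorem Cartan_aexp (s : ℝ) : ((aexp s : SL(2, ℂ)) : Matrix (Fin 2) (Fin 2) ℂ) =
    !![(Real.exp s : ℂ), 0; 0, (Real.exp (-s) : ℂ)] := by
  unfold aexp dg
  rw [Real.exp_neg]
  ext i j
  fin_cases i <;> fin_cases j <;> simp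

private theorem Cartan_aexp_mul (s : ℝ) : aexp (-s) * aexp s = 1 := by
  apply Subtype.ext
  rw [Matrix.SpecialLinearGroup.coe_mul, Cartan_aexp, Cartan_aexp, neg_neg,
    Matrix.SpecialLinearGroup.coe_one]
  have h1 : (Real.exp (-s) : ℂ) * (Real.exp s : ℂ) = 1 := by
    rw [← Complex.ofReal_mul, ← Real.exp_add]
    simp
  have h2 : (Real.exp s : ℂ) * (Real.exp (-s) : ℂ) = 1 := by rw [mul_comm]; exact h1
  ext i j
  fin_cases i <;> fin_cases j <;>
    simp [Matrix.mul_apply, Fin.sum_univ_two, h1, h2, -Complex.ofReal_exp]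

/-- Cartan decomposition (singular value decomposition). Proof: `h = gᴴ g` is positive definite of determinant 1; by the spectral
theorem (`Matrix.IsHermitian.spectral_theorem`, or by hand) `h = U D Uᴴ` with `U` unitary, `D = diag (d, 1 / d)`,
`d ≥ 1` (order the eigenvalues), and `U` can be normalised to have determinant 1. Put `s = log d / 2`, `k₂ = Uᴴ`,
`k₁ = g U a(-s)`. -/
theorem cartan (g : SL(2, ℂ)) :
    ∃ k₁ ∈ SUtwo, ∃ k₂ ∈ SUtwo, ∃ s : ℝ, 0 ≤ s ∧ g = k₁ * aexp s * k₂ := by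
  obtain ⟨d, p, q, hd1, hN, E1, E2⟩ := Cartan_eigen g
  have hd0 : 0 < d := by linarith
  set cp := (starRingEnd ℂ) p with hcp
  set cq := (starRingEnd ℂ) q with hcq
  -- the unitary matrix
  let U : SL(2, ℂ) := ⟨!![p, -cq; q, cp], by
    rw [Matrix.det_fin_two_of]
    linear_combination hN⟩
  have hUm : (U : Matrix (Fin 2) (Fin 2) ℂ) = !![p, -cq; q, cp] := rfl
  have hUH : (U : Matrix (Fin 2) (Fin 2) ℂ)ᴴ = !![cp, cq; -q, p] := by
    rw [hUm]
    ext i j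
    fin_cases i <;> fin_cases j
    · rfl
    · rfl
    · change star (-cq) = -q
      rw [star_neg, hcq, starRingEnd_apply, star_star]
    · change star cp = p
      rw [hcp, starRingEnd_apply, star_star]
  have hU : U ∈ SUtwo := by
    change (U : Matrix (Fin 2) (Fin 2) ℂ) * (U : Matrix (Fin 2) (Fin 2) ℂ)ᴴ = 1
    rw [hUH, hUm]
    ext i j
    fin_cases i <;> fin_cases j <;>
      simp only [Matrix.mul_apply, Fin.sum_univ_two, Fin.zero_eta, Fin.mk_one, Fin.isValue,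
        Matrix.of_apply, Matrix.cons_val', Matrix.cons_val_zero, Matrix.cons_val_one,
        Matrix.cons_val_fin_one, Matrix.one_apply_eq, ne_eq, zero_ne_one, not_false_eq_true,
        one_ne_zero, Matrix.one_apply_ne]
    · linear_combination hN
    · ring
    · ring
    · linear_combination hN
  set s : ℝ := Real.log d / 2 with hs
  have hs0 : 0 ≤ s := by
    have := Real.log_nonneg hd1
    rw [hs]
    linarith
  have hes : Real.exp s * Real.exp s = d := by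
    rw [← Real.exp_add, hs, add_halves, Real.exp_log hd0]
  have hes' : Real.exp (-s) * Real.exp (-s) * d = 1 := by
    rw [← hes]
    have : Real.exp (-s) * Real.exp s = 1 := by rw [← Real.exp_add]; simp
    calc Real.exp (-s) * Real.exp (-s) * (Real.exp s * Real.exp s) =
          (Real.exp (-s) * Real.exp s) * (Real.exp (-s) * Real.exp s) := by ring
      _ = 1 := by rw [this, one_mul]
  -- the Gram matrix of `g U`
  set G : SL(2, ℂ) := g * U with hG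
  set M := (G : Matrix (Fin 2) (Fin 2) ℂ)ᴴ * (G : Matrix (Fin 2) (Fin 2) ℂ) with hM
  have hMU : M = (U : Matrix (Fin 2) (Fin 2) ℂ)ᴴ * ((g : Matrix (Fin 2) (Fin 2) ℂ)ᴴ *
      (g : Matrix (Fin 2) (Fin 2) ℂ)) * (U : Matrix (Fin 2) (Fin 2) ℂ) := by
    rw [hM, hG, Matrix.SpecialLinearGroup.coe_mul, Matrix.conjTranspose_mul]
    simp only [Matrix.mul_assoc]
  generalize (g : Matrix (Fin 2) (Fin 2) ℂ)ᴴ * (g : Matrix (Fin 2) (Fin 2) ℂ) = h at hMU E1 E2
  have hM00 : M 0 0 = d := by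
    rw [hMU, hUH, hUm]
    simp only [Matrix.mul_apply, Fin.sum_univ_two, Matrix.of_apply, Matrix.cons_val',
      Matrix.cons_val_zero, Matrix.cons_val_one, Matrix.cons_val_fin_one]
    linear_combination cp * E1 + cq * E2 + (d : ℂ) * hN
  have hM10 : M 1 0 = 0 := by
    rw [hMU, hUH, hUm]
    simp only [Matrix.mul_apply, Fin.sum_univ_two, Matrix.of_apply, Matrix.cons_val',
      Matrix.cons_val_zero, Matrix.cons_val_one, Matrix.cons_val_fin_one]
    linear_combination (-q) * E1 + p * E2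
  have hM01 : M 0 1 = 0 := by
    have e1 : M 0 1 = star (M 1 0) := by
      have e2 : Mᴴ = M := by
        rw [hM, Matrix.conjTranspose_mul, Matrix.conjTranspose_conjTranspose]
      conv_lhs => rw [← e2]
      rw [Matrix.conjTranspose_apply]
    rw [e1, hM10, star_zero]
  have hM11 : (d : ℂ) * M 1 1 = 1 := by
    have e1 : M.det = 1 := by
      rw [hM, Matrix.det_mul, Matrix.det_conjTranspose, G.2]
      simp
    rw [Matrix.det_fin_two, hM00, hM01] at e1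
    linear_combination e1
  refine ⟨G * aexp (-s), ?_, U⁻¹, inv_mem_SUtwo U hU, s, hs0, ?_⟩
  · change ((G * aexp (-s) : SL(2, ℂ)) : Matrix (Fin 2) (Fin 2) ℂ) *
      ((G * aexp (-s) : SL(2, ℂ)) : Matrix (Fin 2) (Fin 2) ℂ)ᴴ = 1
    apply mul_eq_one_comm.1
    rw [Matrix.SpecialLinearGroup.coe_mul, Matrix.conjTranspose_mul]
    have e1 : ((aexp (-s) : SL(2, ℂ)) : Matrix (Fin 2) (Fin 2) ℂ)ᴴ *
        (G : Matrix (Fin 2) (Fin 2) ℂ)ᴴ * ((G : Matrix (Fin 2) (Fin 2) ℂ) *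
        ((aexp (-s) : SL(2, ℂ)) : Matrix (Fin 2) (Fin 2) ℂ)) =
        ((aexp (-s) : SL(2, ℂ)) : Matrix (Fin 2) (Fin 2) ℂ)ᴴ * M *
        ((aexp (-s) : SL(2, ℂ)) : Matrix (Fin 2) (Fin 2) ℂ) := by
      rw [hM]
      simp only [Matrix.mul_assoc]
    rw [e1, Cartan_aexp, neg_neg]
    have e2 : (!![(Real.exp (-s) : ℂ), 0; 0, (Real.exp s : ℂ)])ᴴ =
        !![(Real.exp (-s) : ℂ), 0; 0, (Real.exp s : ℂ)] := by
      ext i j
      fin_cases i <;> fin_cases j <;> simp [Matrix.conjTranspose_apply, ← starRingEnd_apply,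
        -Complex.ofReal_exp]
    rw [e2]
    have e3 : (Real.exp (-s) : ℂ) * (Real.exp (-s) : ℂ) * d = 1 := by exact_mod_cast hes'
    have e4 : (Real.exp s : ℂ) * (Real.exp s : ℂ) = d := by exact_mod_cast hes
    ext i j
    fin_cases i <;> fin_cases j <;>
      simp only [Matrix.mul_apply, Fin.sum_univ_two, Fin.zero_eta, Fin.mk_one, Fin.isValue,
        Matrix.of_apply, Matrix.cons_val', Matrix.cons_val_zero, Matrix.cons_val_one,
        Matrix.cons_val_fin_one, Matrix.one_apply_eq, ne_eq, zero_ne_one, not_false_eq_true,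
        one_ne_zero, Matrix.one_apply_ne, hM00, hM01, hM10]
    · linear_combination e3
    · ring
    · ring
    · linear_combination M 1 1 * e4 + hM11
  · rw [mul_assoc G, Cartan_aexp_mul, mul_one, hG, mul_assoc, mul_inv_cancel, mul_one]

end MPc2b80f
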