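import Pool.Agent.Lib.MP_c2b80f_alB.Defs
import Pool.Agent.Lib.MP_c2b80f_alB.Alg3

/-!
# Finiteness
-/

open NumberField IsDedekindDomain

namespace MPc2b80f

/-- a common exponent for finitely many bases -/
private theorem NF_exp {ι : Type*} (S : Finset ι) (M : ι → ℝ) (hM : ∀ i ∈ S, 1 ≤ M i) :
    ∃ ε₀ : ℝ, 0 < ε₀ ∧ ∀ ε : ℝ, 0 < ε → ε ≤ ε₀ → ∀ i ∈ S, M i ^ ε < 2 := by
  have h1 : ∀ i ∈ S, ∀ᶠ ε : ℝ in nhds 0, M i ^ ε < 2 := by
    intro i hi
    have hc : ContinuousAt (fun ε : ℝ => M i ^ ε) 0 :=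
      Real.continuousAt_const_rpow (by have := hM i hi; linarith)
    have h2 : (fun ε : ℝ => M i ^ ε) 0 < 2 := by simp
    exact hc.eventually (gt_mem_nhds h2)
  have h2 : ∀ᶠ ε : ℝ in nhds 0, ∀ i ∈ S, M i ^ ε < 2 := (Filter.eventually_all_finset S).2 h1
  obtain ⟨δ, hδ, hball⟩ := Metric.eventually_nhds_iff.1 h2
  refine ⟨δ / 2, by linarith, fun ε h0 h1 i hi => hball ?_ i hi⟩
  rw [Real.dist_eq, sub_zero, abs_of_pos h0]
  linarith

private theorem NF_val {k : Type*} [Field k] [NumberField k] (v : HeightOneSpectrum (𝓞 k)) (t : k)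
    (h : HeightOneSpectrum.adicAbv k v t < 2) : v.valuation k t ≤ 1 := by
  by_contra hlt
  push Not at hlt
  have hne : v.valuation k t ≠ 0 := (zero_lt_one.trans hlt).ne'
  have h0 : (0 : ℤ) < WithZero.log (v.valuation k t) := by
    rw [WithZero.lt_log_iff_exp_lt hne, WithZero.exp_zero]
    exact hlt
  have h1 : WithZero.exp (1 : ℤ) ≤ v.valuation k t := by
    rw [← WithZero.le_log_iff_exp_le hne]
    omega
  have h2 := (WithZeroMulInt.toNNReal_strictMono
    (NumberField.HeightOneSpectrum.one_lt_absNorm_nnreal v)).monotone h1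
  have h3 : WithZeroMulInt.toNNReal (NumberField.HeightOneSpectrum.absNorm_ne_zero v)
      (WithZero.exp (1 : ℤ)) = (Ideal.absNorm v.asIdeal : NNReal) := by
    rw [WithZeroMulInt.toNNReal_neg_apply _ WithZero.exp_ne_zero]
    show (Ideal.absNorm v.asIdeal : NNReal) ^ (1 : ℤ) = _
    rw [zpow_one]
  have h4 : (Ideal.absNorm v.asIdeal : NNReal) ≤ WithZeroMulInt.toNNReal
      (NumberField.HeightOneSpectrum.absNorm_ne_zero v) (v.valuation k t) :=
    h3.symm.le.trans h2
  have h5 : (2 : ℕ) ≤ Ideal.absNorm v.asIdeal := NumberField.HeightOneSpectrum.one_lt_absNorm v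
  have h6 : (2 : NNReal) ≤ WithZeroMulInt.toNNReal
      (NumberField.HeightOneSpectrum.absNorm_ne_zero v) (v.valuation k t) :=
    le_trans (by exact_mod_cast h5) h4
  rw [NumberField.HeightOneSpectrum.adicAbv_def] at h
  have h7 : ((2 : NNReal) : ℝ) ≤ (WithZeroMulInt.toNNReal
      (NumberField.HeightOneSpectrum.absNorm_ne_zero v) (v.valuation k t) : NNReal) :=
    NNReal.coe_le_coe.2 h6
  rw [NNReal.coe_ofNat] at h7
  linarith

private theorem NF_isMS {k : Type*} [Field k] [NumberField k] (v : HeightOneSpectrum (𝓞 k)) :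
    IsMS (fun x : k => NumberField.HeightOneSpectrum.adicAbv k v x) where
  nonneg x := AbsoluteValue.nonneg _ x
  zero := map_zero _
  one := map_one _
  add x y := AbsoluteValue.add_le _ x y
  mul x y := map_mul _ x y

/-- the number field case for a finite family -/
private theorem NF_gen (k : Type*) [Field k] [NumberField k] {ι : Type*} (E : Finset ι) (f : ι → k) :
    ∃ ε₀ : ℝ, 0 < ε₀ ∧ ∀ ε : ℝ, 0 < ε → ε ≤ ε₀ →
    {t : k | t ∈ Algebra.adjoin ℤ (f '' (E : Set ι)) ∧
      (∀ σ : k →+* ℂ, ‖σ t‖ ≤ 2 * (3 + ∑ e ∈ E, ‖σ (f e)‖) ^ ε) ∧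
      (∀ N : k → ℝ, IsMS N → (∀ x y, N (x + y) ≤ max (N x) (N y)) →
        N t ≤ (3 + ∑ e ∈ E, N (f e)) ^ ε)}.Finite := by
  classical
  have hfin : (⋃ e ∈ (E : Set ι), HeightOneSpectrum.Support (𝓞 k) (f e)).Finite :=
    E.finite_toSet.biUnion fun e _ => HeightOneSpectrum.Support.finite (𝓞 k) (f e)
  obtain ⟨ε₁, hε₁, h1⟩ := NF_exp hfin.toFinset
    (fun v => 3 + ∑ e ∈ E, NumberField.HeightOneSpectrum.adicAbv k v (f e)) (by
      intro v _
      have : 0 ≤ ∑ e ∈ E, NumberField.HeightOneSpectrum.adicAbv k v (f e) :=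
        Finset.sum_nonneg fun e _ => AbsoluteValue.nonneg _ _
      linarith)
  obtain ⟨ε₂, hε₂, h2⟩ := NF_exp (Finset.univ : Finset (k →+* ℂ))
    (fun σ => 3 + ∑ e ∈ E, ‖σ (f e)‖) (by
      intro σ _
      have : 0 ≤ ∑ e ∈ E, ‖σ (f e)‖ := Finset.sum_nonneg fun e _ => norm_nonneg _
      linarith)
  refine ⟨min ε₁ ε₂, lt_min hε₁ hε₂, fun ε hε hεm => ?_⟩
  refine (NumberField.Embeddings.finite_of_norm_le k ℂ 4).subset ?_
  rintro t ⟨ht, hσ, hN⟩
  have hval : ∀ v : HeightOneSpectrum (𝓞 k), v.valuation k t ≤ 1 := by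
    intro v
    by_cases hv : v ∈ hfin.toFinset
    · apply NF_val
      have h3 := hN _ (NF_isMS v) (NumberField.HeightOneSpectrum.adicAbv_add_le_max k v)
      have h4 := h1 ε hε (hεm.trans (min_le_left _ _)) v hv
      exact lt_of_le_of_lt h3 h4
    · rw [Set.Finite.mem_toFinset, Set.mem_iUnion₂] at hv
      push Not at hv
      have h3 : ∀ e ∈ E, v.valuation k (f e) ≤ 1 := by
        intro e he
        have := hv e he
        unfold HeightOneSpectrum.Support at this
        exact not_lt.1 this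
      let S : Subalgebra ℤ k := subalgebraOfSubring (v.valuation k).integer
      have h4 : Algebra.adjoin ℤ (f '' (E : Set ι)) ≤ S := by
        apply Algebra.adjoin_le
        rintro _ ⟨e, he, rfl⟩
        exact h3 e he
      exact h4 ht
  refine ⟨?_, fun σ => ?_⟩
  · obtain ⟨x, rfl⟩ := HeightOneSpectrum.mem_integers_of_valuation_le_one k t hval
    exact x.isIntegral_coe
  · have h3 := hσ σ
    have h4 := h2 ε hε (hεm.trans (min_le_right _ _)) σ (Finset.mem_univ σ)
    have h5 : (3 + ∑ e ∈ E, ‖σ (f e)‖) ^ ε < 2 := h4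
    linarith

/-- Number field case. Let `k` be a number field and `E` a finite subset.
Proof. For all but finitely many finite places `v` (see `NumberField.FinitePlace`,
or `IsDedekindDomain.HeightOneSpectrum (𝓞 k)` with the `v`-adic absolute values) we have `|e|_v ≤ 1` for all
`e ∈ E`, so that every `t` in the ring generated by `E` has `|t|_v ≤ 1`. For the finitely many other places `v` choose
`ε` so small that `(3 + ∑ |e|_v) ^ ε < 2`; if `|t|_v < 2`, then `|t|_v ≤ 1` because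
the values of `v` are powers of an integer `≥ 2`. For the finitely many `σ : k →+* ℂ` let moreover
`(3 + ∑ |σ e|) ^ ε ≤ 2`. So `t` is integral (`IsDedekindDomain.HeightOneSpectrum.mem_integers_of_valuation_le_one`)
and all its conjugates are bounded by `4`: `NumberField.Embeddings.finite_of_norm_le`. -/
theorem nf_finite (k : Type*) [Field k] [NumberField k] (E : Finset k) :
    ∃ ε₀ : ℝ, 0 < ε₀ ∧ ∀ ε : ℝ, 0 < ε → ε ≤ ε₀ →
    {t : k | t ∈ Algebra.adjoin ℤ (E : Set k) ∧
      (∀ σ : k →+* ℂ, ‖σ t‖ ≤ 2 * (3 + ∑ e ∈ E, ‖σ e‖) ^ ε) ∧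
      (∀ N : k → ℝ, IsMS N → (∀ x y, N (x + y) ≤ max (N x) (N y)) →
        N t ≤ (3 + ∑ e ∈ E, N e) ^ ε)}.Finite := by
  have h := NF_gen k E (fun x => x)
  rw [Set.image_id'] at h
  exact h

private theorem NF_nf (k : Type*) [Field k] [alg : Algebra ℚ k] [Algebra.FiniteType ℚ k] : NumberField k := by
  have hchar : CharZero k := algebraRat.charZero k
  have hfin : Module.Finite ℚ k := finite_of_finite_type_of_isJacobsonRing ℚ k
  have halg : (DivisionRing.toRatAlgebra : Algebra ℚ k) = alg := Subsingleton.elim _ _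
  refine @NumberField.mk k _ hchar ?_
  rw [halg]
  exact hfin

private theorem NF_countable (k : Type*) [Field k] [NumberField k] : Countable k :=
  (Module.finBasis ℚ k).equivFun.toEquiv.injective.countable

universe u v in
private theorem NF_spec (R : Type u) [CommRing R] [IsDomain R] [Algebra ℚ R] [Algebra.FiniteType ℚ R] :
    ∃ (k : Type v) (_ : Field k) (_ : NumberField k) (π : R →+* k),
      ∀ s t : R, IsIntegral ℚ s → IsIntegral ℚ t → π s = π t → s = t := by
  obtain ⟨m, hm⟩ := Ideal.exists_maximal R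
  have hft : Algebra.FiniteType ℚ (R ⧸ m) :=
    Algebra.FiniteType.of_surjective (Ideal.Quotient.mkₐ ℚ m) (Ideal.Quotient.mkₐ_surjective ℚ m)
  let hF : Field (R ⧸ m) := Ideal.Quotient.field m
  have hNF : NumberField (R ⧸ m) := @NF_nf (R ⧸ m) hF (Ideal.instAlgebraQuotient ℚ m) hft
  have hcount : Countable (R ⧸ m) := @NF_countable (R ⧸ m) hF hNF
  have hNF' : NumberField (Shrink.{v} (R ⧸ m)) :=
    NumberField.of_ringEquiv (R ⧸ m) (Shrink.{v} (R ⧸ m)) (Shrink.ringEquiv.{v} (R ⧸ m)).symm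
  refine ⟨Shrink.{v} (R ⧸ m), inferInstance, hNF',
    ((Shrink.ringEquiv.{v} (R ⧸ m)).symm : (R ⧸ m) →+* Shrink.{v} (R ⧸ m)).comp (Ideal.Quotient.mk m), ?_⟩
  intro s t hs ht hst'
  have hst : Ideal.Quotient.mk m s = Ideal.Quotient.mk m t :=
    (Shrink.ringEquiv.{v} (R ⧸ m)).symm.injective hst'
  by_contra hne
  have hu : IsIntegral ℚ (s - t) := hs.sub ht
  have hu0 : s - t ≠ 0 := sub_ne_zero.2 hne
  have hunit : IsUnit (s - t) := hu.isUnit hu0
  have h1 : Ideal.Quotient.mk m (s - t) = 0 := by rw [map_sub, hst, sub_self]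
  have h2 := hunit.map (Ideal.Quotient.mk m)
  rw [h1] at h2
  exact not_isUnit_zero h2

/-- Specialisation to a number field: a finitely generated `ℚ`-algebra (a domain) has a homomorphism `π` to a
number field, and `π` is injective on the set of elements algebraic over `ℚ`.
Proof: take a maximal ideal `m` and `k = R ⧸ m` (finite over `ℚ` by the Nullstellensatz,
`finite_of_finite_type_of_isJacobsonRing`). If `π t = π s` and `t ≠ s` are algebraic, then `u = t - s ≠ 0` is
algebraic, so it is a unit of `ℚ[u] ⊆ R` (`isUnit` of a nonzero element algebraic over a field in a domain), and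
`π u = 0` is impossible. -/
theorem exists_specialisation (R : Type*) [CommRing R] [IsDomain R] [Algebra ℚ R] [Algebra.FiniteType ℚ R] :
    ∃ (k : Type _) (_ : Field k) (_ : NumberField k) (π : R →+* k),
      ∀ s t : R, IsIntegral ℚ s → IsIntegral ℚ t → π s = π t → s = t :=
  NF_spec R

/-- Combination of `exists_eps_isAlgebraic`, `nf_finite` (for `E.image π`; note that the sum over the image is at most
the sum over `E`), and `exists_specialisation`. -/
theorem exists_eps_finite (R : Type*) [CommRing R] [IsDomain R] [Algebra ℚ R] [Algebra.FiniteType ℚ R]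
    (E : Finset R) :
    ∃ ε : ℝ, 0 < ε ∧
    {t : R | t ∈ Algebra.adjoin ℤ (E : Set R) ∧
      (∀ φ : R →+* ℂ, ‖φ t‖ ≤ 2 * (3 + ∑ e ∈ E, ‖φ e‖) ^ ε) ∧
      (∀ N : R → ℝ, IsMS N → (∀ x y, N (x + y) ≤ max (N x) (N y)) →
        N t ≤ (3 + ∑ e ∈ E, N e) ^ ε)}.Finite := by
  classical
  obtain ⟨ε₁, hε₁, h1⟩ := exists_eps_isAlgebraic R E
  obtain ⟨k, hk, hNF, π, hπ⟩ := NF_spec.{_, 0} R
  obtain ⟨ε₂, hε₂, h2⟩ := NF_gen k E π
  refine ⟨min ε₁ ε₂, lt_min hε₁ hε₂, ?_⟩
  have hε0 : 0 < min ε₁ ε₂ := lt_min hε₁ hε₂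
  refine Set.Finite.of_finite_image (f := π) ?_ ?_
  · refine (h2 (min ε₁ ε₂) hε0 (min_le_right _ _)).subset ?_
    rintro _ ⟨t, ⟨ht, hφ, hN⟩, rfl⟩
    refine ⟨?_, ?_, ?_⟩
    · have h3 : (Algebra.adjoin ℤ (E : Set R)).map (π.toIntAlgHom) =
          Algebra.adjoin ℤ (π '' (E : Set R)) := by
        rw [AlgHom.map_adjoin]
        rfl
      rw [← h3]
      exact ⟨t, ht, rfl⟩
    · intro σ
      exact hφ (σ.comp π)
    · intro N hNS hNa
      refine hN (fun x => N (π x)) ⟨fun x => hNS.nonneg _, by rw [map_zero, hNS.zero],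
        by rw [map_one, hNS.one], fun x y => by rw [map_add]; exact hNS.add _ _,
        fun x y => by rw [map_mul]; exact hNS.mul _ _⟩ ?_
      intro x y
      simp only [map_add]
      exact hNa _ _
  · intro s hs t ht hst
    have hint : ∀ s : R, (∀ φ : R →+* ℂ, ‖φ s‖ ≤ 2 * (3 + ∑ e ∈ E, ‖φ e‖) ^ (min ε₁ ε₂)) → IsIntegral ℚ s := by
      intro s hs
      apply h1
      intro φ
      refine (hs φ).trans ?_
      have h3 : (1 : ℝ) ≤ 3 + ∑ e ∈ E, ‖φ e‖ := by
        have : 0 ≤ ∑ e ∈ E, ‖φ e‖ := Finset.sum_nonneg fun e _ => norm_nonneg _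
        linarith
      have h4 := Real.rpow_le_rpow_of_exponent_le h3 (min_le_left ε₁ ε₂)
      linarith
    exact hπ s t (hint s hs.2.1) (hint t ht.2.1) hst

end MPc2b80f
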