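import Pool.Agent.Lib.MP_c2b80f_alB.Pow

/-!
# Elements with trace near 2 in a non-discrete group
-/

open Matrix MatrixGroups

namespace MPc2b80f

/-- If `z` is near `2` then `z = t + t⁻¹` with `|t| ≥ 1` near `1`.
Proof: `z - 2 = (t - 1) ^ 2 / t`, and `|t| ≤ |z| + 1 ≤ 4`. -/
theorem small_unit (η : ℝ) (hη : 0 < η) :
    ∃ δ : ℝ, 0 < δ ∧ ∀ z : ℂ, ‖z - 2‖ < δ → ∀ t : ℂˣ, z = t + ((t⁻¹ : ℂˣ) : ℂ) → 1 ≤ ‖(t : ℂ)‖ →
      Real.log ‖(t : ℂ)‖ < η := by
  refine ⟨min 1 (η ^ 2 / 4), by positivity, ?_⟩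
  intro z hz t hzt ht
  have hz1 : ‖z - 2‖ < 1 := lt_of_lt_of_le hz (min_le_left _ _)
  have hz2 : ‖z - 2‖ < η ^ 2 / 4 := lt_of_lt_of_le hz (min_le_right _ _)
  have ht0 : (t : ℂ) ≠ 0 := t.ne_zero
  have htinv : ((t⁻¹ : ℂˣ) : ℂ) = (t : ℂ)⁻¹ := by simp
  have hz3 : ‖z‖ ≤ 3 := by
    have h1 : ‖z‖ ≤ ‖z - 2‖ + ‖(2 : ℂ)‖ := by
      have := norm_add_le (z - 2) 2
      simpa using this
    have h2 : ‖(2 : ℂ)‖ = 2 := by simp
    rw [h2] at h1
    linarith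
  have hinv : ‖(t : ℂ)⁻¹‖ ≤ 1 := by
    rw [norm_inv]
    exact inv_le_one_of_one_le₀ ht
  have ht4 : ‖(t : ℂ)‖ ≤ 4 := by
    have h1 : (t : ℂ) = z - (t : ℂ)⁻¹ := by
      rw [hzt, htinv]
      ring
    have h2 : ‖(t : ℂ)‖ ≤ ‖z‖ + ‖(t : ℂ)⁻¹‖ := by
      conv_lhs => rw [h1]
      exact norm_sub_le _ _
    linarith
  have hkey : ((t : ℂ) - 1) ^ 2 = (z - 2) * t := by
    rw [hzt, htinv]
    field_simp
    ring
  have hn : ‖(t : ℂ) - 1‖ ^ 2 < η ^ 2 := by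
    rw [← norm_pow, hkey, norm_mul]
    calc ‖z - 2‖ * ‖(t : ℂ)‖ ≤ ‖z - 2‖ * 4 := by gcongr
      _ < η ^ 2 / 4 * 4 := by gcongr
      _ = η ^ 2 := by ring
  have hn2 : ‖(t : ℂ) - 1‖ < η := lt_of_pow_lt_pow_left₀ 2 hη.le hn
  have h3 : Real.log ‖(t : ℂ)‖ ≤ ‖(t : ℂ)‖ - 1 := Real.log_le_sub_one_of_pos (by linarith)
  have h4 : ‖(t : ℂ)‖ - 1 ≤ ‖(t : ℂ) - 1‖ := by
    have := norm_sub_norm_le (t : ℂ) 1
    simpa using this
  linarith

/-- Zariski dense subgroups have no invariant line. Apply `ZDense` to the polynomial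
`v 0 * (g v) 1 - v 1 * (g v) 0` in the entries of `g` (which does not vanish on `SL_2`). -/
theorem noLine_of_zDense {Γ : Subgroup SL(2, ℂ)} (hz : ZDense Γ) : NoLine Γ := by
  intro v hv
  by_contra hcon
  push Not at hcon
  let P : MvPolynomial (Fin 2 × Fin 2) ℂ :=
    MvPolynomial.C (v 0) * (MvPolynomial.X (1, 0) * MvPolynomial.C (v 0) +
      MvPolynomial.X (1, 1) * MvPolynomial.C (v 1)) -
    MvPolynomial.C (v 1) * (MvPolynomial.X (0, 0) * MvPolynomial.C (v 0) +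
      MvPolynomial.X (0, 1) * MvPolynomial.C (v 1))
  have hev : ∀ g : SL(2, ℂ), MvPolynomial.eval
      (fun ij : Fin 2 × Fin 2 => (g : Matrix (Fin 2) (Fin 2) ℂ) ij.1 ij.2) P =
      v 0 * ((g : Matrix (Fin 2) (Fin 2) ℂ) 1 0 * v 0 + (g : Matrix (Fin 2) (Fin 2) ℂ) 1 1 * v 1) -
      v 1 * ((g : Matrix (Fin 2) (Fin 2) ℂ) 0 0 * v 0 + (g : Matrix (Fin 2) (Fin 2) ℂ) 0 1 * v 1) := by
    intro g
    simp [P]
  have hvan := hz P (by
    intro g hg
    obtain ⟨c, hc⟩ := hcon g hg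
    have h0 := congrFun hc 0
    have h1 := congrFun hc 1
    simp only [Matrix.mulVec, dotProduct, Fin.sum_univ_two, Pi.smul_apply, smul_eq_mul] at h0 h1
    rw [hev, h0, h1]
    ring)
  have ha := (hev ⟨!![1, 1; 0, 1], by simp [Matrix.det_fin_two]⟩).symm.trans (hvan _)
  have hb := (hev ⟨!![1, 0; 1, 1], by simp [Matrix.det_fin_two]⟩).symm.trans (hvan _)
  simp at ha hb
  apply hv
  have hv1 : v 1 = 0 := by
    have : v 1 * v 1 = 0 := by linear_combination -ha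
    simpa using this
  have hv0 : v 0 = 0 := by
    have : v 0 * v 0 = 0 := by linear_combination hb
    simpa using this
  ext i
  fin_cases i
  · exact hv0
  · exact hv1

private lemma near_line {g : Matrix (Fin 2) (Fin 2) ℂ} {v : Fin 2 → ℂ} (hv : v ≠ 0)
    (h : v 0 * (g *ᵥ v) 1 - v 1 * (g *ᵥ v) 0 = 0) : ∃ c : ℂ, g *ᵥ v = c • v := by
  by_cases h0 : v 0 = 0
  · have h1 : v 1 ≠ 0 := by
      intro h1
      apply hv
      ext i
      fin_cases i
      · exact h0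
      · exact h1
    have h2 : (g *ᵥ v) 0 = 0 := by
      rw [h0, zero_mul, zero_sub, neg_eq_zero] at h
      exact (mul_eq_zero.1 h).resolve_left h1
    refine ⟨(g *ᵥ v) 1 / v 1, ?_⟩
    ext i
    fin_cases i
    · simp [h2, h0]
    · simp [h1]
  · refine ⟨(g *ᵥ v) 0 / v 0, ?_⟩
    ext i
    fin_cases i
    · simp [h0]
    · simp only [Fin.mk_one, Pi.smul_apply, smul_eq_mul]
      field_simp
      linear_combination h

/-- If a finite set `S` generates `Γ` and `Γ` has no invariant line, then for every nonzero `v` there is an element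
of `S` not fixing the line of `v`. -/
theorem exists_gen_not_fix {Γ : Subgroup SL(2, ℂ)} (hz : NoLine Γ) (S : Finset SL(2, ℂ))
    (hS : Subgroup.closure (S : Set SL(2, ℂ)) = Γ) (v : Fin 2 → ℂ) (hv : v ≠ 0) :
    ∃ g ∈ S, v 0 * ((g : Matrix (Fin 2) (Fin 2) ℂ) *ᵥ v) 1 -
      v 1 * ((g : Matrix (Fin 2) (Fin 2) ℂ) *ᵥ v) 0 ≠ 0 := by
  by_contra hcon
  push Not at hcon
  obtain ⟨g, hg, hgv⟩ := hz v hv
  have key : ∀ g ∈ Γ, ∃ c : ℂ, (g : Matrix (Fin 2) (Fin 2) ℂ) *ᵥ v = c • v := by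
    intro g hg
    rw [← hS] at hg
    induction hg using Subgroup.closure_induction with
    | mem x hx => exact near_line hv (hcon x hx)
    | one => exact ⟨1, by simp⟩
    | mul x y _ _ hx hy =>
      obtain ⟨a, ha⟩ := hx
      obtain ⟨b, hb⟩ := hy
      refine ⟨b * a, ?_⟩
      rw [Matrix.SpecialLinearGroup.coe_mul, ← Matrix.mulVec_mulVec, hb, Matrix.mulVec_smul, ha,
        smul_smul]
    | inv x _ hx =>
      obtain ⟨a, ha⟩ := hx
      have h1 : ((x⁻¹ : SL(2, ℂ)) : Matrix (Fin 2) (Fin 2) ℂ) *ᵥ ((x : Matrix (Fin 2) (Fin 2) ℂ) *ᵥ v) = v := by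
        rw [Matrix.mulVec_mulVec, ← Matrix.SpecialLinearGroup.coe_mul, inv_mul_cancel]
        simp
      rw [ha, Matrix.mulVec_smul] at h1
      have ha0 : a ≠ 0 := by
        intro h
        rw [h, zero_smul] at h1
        exact hv h1.symm
      refine ⟨a⁻¹, ?_⟩
      rw [← h1, smul_smul, inv_mul_cancel₀ ha0, one_smul, h1]
  obtain ⟨c, hc⟩ := key g hg
  exact hgv c hc

private lemma near_comm (κ v0 v1 : ℂ) (g s : SL(2, ℂ))
    (h00 : (g : Matrix (Fin 2) (Fin 2) ℂ) 0 0 = 1 - κ * v0 * v1)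
    (h01 : (g : Matrix (Fin 2) (Fin 2) ℂ) 0 1 = κ * v0 ^ 2)
    (h10 : (g : Matrix (Fin 2) (Fin 2) ℂ) 1 0 = -(κ * v1 ^ 2))
    (h11 : (g : Matrix (Fin 2) (Fin 2) ℂ) 1 1 = 1 + κ * v0 * v1) :
    Matrix.trace ((g * s * g⁻¹ * s⁻¹ : SL(2, ℂ)) : Matrix (Fin 2) (Fin 2) ℂ) =
      2 + κ ^ 2 * (v0 * ((s : Matrix (Fin 2) (Fin 2) ℂ) 1 0 * v0 + (s : Matrix (Fin 2) (Fin 2) ℂ) 1 1 * v1) -
        v1 * ((s : Matrix (Fin 2) (Fin 2) ℂ) 0 0 * v0 + (s : Matrix (Fin 2) (Fin 2) ℂ) 0 1 * v1)) ^ 2 := by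
  have hdet : (s : Matrix (Fin 2) (Fin 2) ℂ) 0 0 * (s : Matrix (Fin 2) (Fin 2) ℂ) 1 1 -
      (s : Matrix (Fin 2) (Fin 2) ℂ) 0 1 * (s : Matrix (Fin 2) (Fin 2) ℂ) 1 0 = 1 := by
    have := s.det_coe
    rwa [Matrix.det_fin_two] at this
  simp only [Matrix.SpecialLinearGroup.coe_mul, Matrix.SpecialLinearGroup.coe_inv,
    Matrix.adjugate_fin_two, Matrix.trace_fin_two, Matrix.mul_apply, Fin.sum_univ_two]
  simp only [Matrix.of_apply, Matrix.cons_val', Matrix.cons_val_zero, Matrix.cons_val_one,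
    Matrix.cons_val_fin_one, h00, h01, h10, h11]
  linear_combination (2 : ℂ) * hdet

/-- Commutator with a unipotent element: if `tr g = 2`, `g ≠ 1` then there is a nonzero `v` such that for every
`s` not fixing the line of `v` the trace of `g * s * g⁻¹ * s⁻¹` is not `2`.
Proof: `M := g - 1` satisfies `M ^ 2 = 0`, `M ≠ 0`, so `M = v * φ` (column times row) with
`φ v = 0`, and `g⁻¹ = 1 - M`;
`tr (g s g⁻¹ s⁻¹) = 2 - tr (M s M s⁻¹) = 2 - (φ (s v)) (φ (s⁻¹ v))`. -/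
theorem comm_trace (g : SL(2, ℂ)) (hg : Matrix.trace (g : Matrix (Fin 2) (Fin 2) ℂ) = 2) (hg1 : g ≠ 1) :
    ∃ v : Fin 2 → ℂ, v ≠ 0 ∧ ∀ s : SL(2, ℂ),
      v 0 * ((s : Matrix (Fin 2) (Fin 2) ℂ) *ᵥ v) 1 - v 1 * ((s : Matrix (Fin 2) (Fin 2) ℂ) *ᵥ v) 0 ≠ 0 →
      Matrix.trace ((g * s * g⁻¹ * s⁻¹ : SL(2, ℂ)) : Matrix (Fin 2) (Fin 2) ℂ) ≠ 2 := by
  have hdet : (g : Matrix (Fin 2) (Fin 2) ℂ) 0 0 * (g : Matrix (Fin 2) (Fin 2) ℂ) 1 1 -
      (g : Matrix (Fin 2) (Fin 2) ℂ) 0 1 * (g : Matrix (Fin 2) (Fin 2) ℂ) 1 0 = 1 := by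
    have := g.det_coe
    rwa [Matrix.det_fin_two] at this
  rw [Matrix.trace_fin_two] at hg
  set p := (g : Matrix (Fin 2) (Fin 2) ℂ) 0 0 with hp
  set q := (g : Matrix (Fin 2) (Fin 2) ℂ) 0 1 with hq
  set r := (g : Matrix (Fin 2) (Fin 2) ℂ) 1 0 with hr
  set u := (g : Matrix (Fin 2) (Fin 2) ℂ) 1 1 with hu
  have hu2 : u = 2 - p := by linear_combination hg
  have hqr : q * r = -(p - 1) ^ 2 := by
    rw [hu2] at hdet
    linear_combination -hdet
  -- the description of `g`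
  obtain ⟨κ, v, hκ, hv, e00, e01, e10, e11⟩ : ∃ (κ : ℂ) (v : Fin 2 → ℂ), κ ≠ 0 ∧ v ≠ 0 ∧
      p = 1 - κ * v 0 * v 1 ∧ q = κ * v 0 ^ 2 ∧ r = -(κ * v 1 ^ 2) ∧ u = 1 + κ * v 0 * v 1 := by
    by_cases hq0 : q = 0
    · have hp1 : p = 1 := by
        rw [hq0, zero_mul] at hqr
        have h1 : (p - 1) ^ 2 = 0 := by linear_combination hqr
        have h2 : p - 1 = 0 := by simpa using h1
        linear_combination h2
      have hr0 : r ≠ 0 := by
        intro hr0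
        apply hg1
        ext i j
        fin_cases i <;> fin_cases j
        · simpa [hp] using hp1
        · simpa [hq] using hq0
        · simpa [hr] using hr0
        · simp only [Fin.mk_one, Matrix.SpecialLinearGroup.coe_one, Matrix.one_apply_eq]
          rw [← hu, hu2, hp1]
          norm_num
      refine ⟨-r, ![0, 1], neg_ne_zero.2 hr0, ?_, ?_, ?_, ?_, ?_⟩
      · intro h
        have := congrFun h 1
        simp at this
      · simp [hp1]
      · simp [hq0]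
      · simp
      · simp [hu2, hp1]
        norm_num
    · refine ⟨q⁻¹, ![q, -(p - 1)], inv_ne_zero hq0, ?_, ?_, ?_, ?_, ?_⟩
      · intro h
        have := congrFun h 0
        exact hq0 (by simpa using this)
      · have e1 : (![q, -(p - 1)] : Fin 2 → ℂ) 1 = -(p - 1) := rfl
        have e0 : (![q, -(p - 1)] : Fin 2 → ℂ) 0 = q := rfl
        rw [e1, e0]
        field_simp
        ring
      · have e0 : (![q, -(p - 1)] : Fin 2 → ℂ) 0 = q := rfl
        rw [e0]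
        field_simp
      · have e1 : (![q, -(p - 1)] : Fin 2 → ℂ) 1 = -(p - 1) := rfl
        rw [e1]
        field_simp
        linear_combination hqr
      · have e1 : (![q, -(p - 1)] : Fin 2 → ℂ) 1 = -(p - 1) := rfl
        have e0 : (![q, -(p - 1)] : Fin 2 → ℂ) 0 = q := rfl
        rw [e1, e0, hu2]
        field_simp
        ring
  refine ⟨v, hv, ?_⟩
  intro s hs
  rw [near_comm κ (v 0) (v 1) g s e00 e01 e10 e11]
  simp only [Matrix.mulVec, dotProduct, Fin.sum_univ_two] at hs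
  intro h
  have h1 : κ ^ 2 * (v 0 * ((s : Matrix (Fin 2) (Fin 2) ℂ) 1 0 * v 0 + (s : Matrix (Fin 2) (Fin 2) ℂ) 1 1 * v 1) -
        v 1 * ((s : Matrix (Fin 2) (Fin 2) ℂ) 0 0 * v 0 + (s : Matrix (Fin 2) (Fin 2) ℂ) 0 1 * v 1)) ^ 2 = 0 := by
    linear_combination h
  rcases mul_eq_zero.1 h1 with h2 | h2
  · exact hκ (by simpa using h2)
  · exact hs (by simpa using h2)

/-- A non-discrete finitely generated subgroup without invariant line has elements with trace arbitrarily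
near `2`, but different from `2`.
Proof: let `S` be a finite generating set. By continuity there is a neighbourhood `U` of `1` such that
for `g ∈ U`: `|tr g - 2| < δ` and `|tr (g s g⁻¹ s⁻¹) - 2| < δ` for all `s ∈ S`. As `Γ` is not discrete there is
`g ∈ Γ ∩ U`, `g ≠ 1`. If `tr g ≠ 2` take `g`; otherwise use `comm_trace` and `exists_gen_not_fix`. -/
theorem exists_trace_near_two (Γ : Subgroup SL(2, ℂ)) (hfg : Γ.FG) (hz : NoLine Γ)
    (hnd : ¬ DiscreteTopology Γ) (δ : ℝ) (hδ : 0 < δ) :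
    ∃ g ∈ Γ, Matrix.trace (g : Matrix (Fin 2) (Fin 2) ℂ) ≠ 2 ∧
      ‖Matrix.trace (g : Matrix (Fin 2) (Fin 2) ℂ) - 2‖ < δ := by
  obtain ⟨S, hS⟩ := hfg
  let tr : SL(2, ℂ) → ℂ := fun g => Matrix.trace (g : Matrix (Fin 2) (Fin 2) ℂ)
  have hctr : Continuous tr := by
    have h1 : Continuous fun g : SL(2, ℂ) => (g : Matrix (Fin 2) (Fin 2) ℂ) := continuous_subtype_val
    exact h1.matrix_trace
  have htr1 : tr 1 = 2 := by
    simp [tr, Matrix.trace_one]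
  have hcomm : ∀ s : SL(2, ℂ), Continuous fun g : SL(2, ℂ) => g * s * g⁻¹ * s⁻¹ := by
    intro s
    exact ((continuous_id.mul continuous_const).mul continuous_inv).mul continuous_const
  let f0 : SL(2, ℂ) → ℝ := fun g => ‖tr g - 2‖
  have hf0 : Continuous f0 := (hctr.sub continuous_const).norm
  let f1 : SL(2, ℂ) → SL(2, ℂ) → ℝ := fun s g => ‖tr (g * s * g⁻¹ * s⁻¹) - 2‖
  have hf1 : ∀ s, Continuous (f1 s) := fun s => ((hctr.comp (hcomm s)).sub continuous_const).norm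
  let U : Set SL(2, ℂ) := {g | f0 g < δ} ∩ ⋂ s ∈ S, {g | f1 s g < δ}
  have hU : IsOpen U := by
    refine IsOpen.inter (isOpen_lt hf0 continuous_const) ?_
    refine isOpen_biInter_finset fun s _ => ?_
    exact isOpen_lt (hf1 s) continuous_const
  have h1U : (1 : SL(2, ℂ)) ∈ U := by
    refine ⟨?_, ?_⟩
    · change ‖tr 1 - 2‖ < δ
      rw [htr1]
      simpa using hδ
    · simp only [Set.mem_iInter]
      intro s _
      change ‖tr (1 * s * 1⁻¹ * s⁻¹) - 2‖ < δ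
      have h1 : (1 * s * 1⁻¹ * s⁻¹ : SL(2, ℂ)) = 1 := by group
      rw [h1, htr1]
      simpa using hδ
  obtain ⟨g, hg, hgU, hg1⟩ : ∃ g ∈ Γ, g ∈ U ∧ g ≠ 1 := by
    by_contra hcon
    push Not at hcon
    apply hnd
    rw [discreteTopology_iff_isOpen_singleton_one]
    have : ({1} : Set Γ) = (Subtype.val : Γ → SL(2, ℂ)) ⁻¹' U := by
      ext x
      constructor
      · intro hx
        rw [Set.mem_singleton_iff] at hx
        rw [hx]
        exact h1U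
      · intro hx
        have := hcon x.1 x.2 hx
        rw [Set.mem_singleton_iff]
        exact Subtype.ext this
    rw [this]
    exact hU.preimage continuous_subtype_val
  by_cases htr : Matrix.trace (g : Matrix (Fin 2) (Fin 2) ℂ) = 2
  · obtain ⟨v, hv, hcv⟩ := comm_trace g htr hg1
    obtain ⟨s, hsS, hs⟩ := exists_gen_not_fix hz S hS v hv
    have hsΓ : s ∈ Γ := by
      rw [← hS]
      exact Subgroup.subset_closure hsS
    refine ⟨g * s * g⁻¹ * s⁻¹, Γ.mul_mem (Γ.mul_mem (Γ.mul_mem hg hsΓ) (Γ.inv_mem hg)) (Γ.inv_mem hsΓ),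
      hcv s hs, ?_⟩
    have := hgU.2
    simp only [Set.mem_iInter] at this
    exact this s hsS
  · exact ⟨g, hg, htr, hgU.1⟩

end MPc2b80f
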