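import Pool.Agent.Lib.MP_c2b80f_alB.Transfer
import Pool.Agent.Lib.MP_c2b80f_alB.Near
import Pool.Agent.Lib.MP_c2b80f_alB.NF

/-!
# The core theorem over a finitely generated domain
-/

open Matrix MatrixGroups

namespace MPc2b80f

/-- Entries of elements of the subgroup generated by `S₂` lie in the ring generated by the entries. -/
theorem entries_mem_adjoin {R : Type*} [CommRing R] (S₂ : Set SL(2, R)) (E : Set R)
    (hE : ∀ x ∈ S₂, ∀ i j, (x : Matrix (Fin 2) (Fin 2) R) i j ∈ E)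
    (g : SL(2, R)) (hg : g ∈ Subgroup.closure S₂) :
    ∀ i j, (g : Matrix (Fin 2) (Fin 2) R) i j ∈ Algebra.adjoin ℤ E := by
  refine Subgroup.closure_induction (G := SL(2, R)) (p := fun (g : SL(2, R)) _ => ∀ i j,
    (g : Matrix (Fin 2) (Fin 2) R) i j ∈ Algebra.adjoin ℤ E) ?_ ?_ ?_ ?_ hg
  · intro x hx i j
    exact Algebra.subset_adjoin (hE x hx i j)
  · intro i j
    rw [Matrix.SpecialLinearGroup.coe_one, Matrix.one_apply]
    split_ifs
    · exact one_mem _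
    · exact zero_mem _
  · intro x y _ _ hx hy i j
    rw [Matrix.SpecialLinearGroup.coe_mul, Matrix.mul_apply]
    exact Subalgebra.sum_mem _ fun k _ => mul_mem (hx i k) (hy k j)
  · intro x _ hx i j
    rw [Matrix.SpecialLinearGroup.coe_inv, Matrix.adjugate_fin_two]
    fin_cases i <;> fin_cases j
    · exact hx 1 1
    · exact neg_mem (hx 0 1)
    · exact neg_mem (hx 1 0)
    · exact hx 0 0

theorem trace_mem_adjoin {R : Type*} [CommRing R] (S₂ : Set SL(2, R)) (E : Set R)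
    (hE : ∀ x ∈ S₂, ∀ i j, (x : Matrix (Fin 2) (Fin 2) R) i j ∈ E)
    (g : SL(2, R)) (hg : g ∈ Subgroup.closure S₂) :
    Matrix.trace (g : Matrix (Fin 2) (Fin 2) R) ∈ Algebra.adjoin ℤ E := by
  rw [Matrix.trace_fin_two]
  exact add_mem (entries_mem_adjoin S₂ E hE g hg 0 0) (entries_mem_adjoin S₂ E hE g hg 1 1)

/-- The absolute value of a ring homomorphism to the complex numbers is a multiplicative seminorm. -/
theorem isMS_norm {R : Type*} [CommRing R] (φ : R →+* ℂ) : IsMS (fun x => ‖φ x‖) where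
  nonneg x := norm_nonneg _
  zero := by simp
  one := by simp
  add x y := by rw [map_add]; exact norm_add_le _ _
  mul x y := by rw [map_mul, norm_mul]

theorem trace_map_eq {R : Type*} [CommRing R] (φ : R →+* ℂ) (g : SL(2, R)) :
    Matrix.trace ((Matrix.SpecialLinearGroup.map φ g : SL(2, ℂ)) : Matrix (Fin 2) (Fin 2) ℂ) =
      φ (Matrix.trace (g : Matrix (Fin 2) (Fin 2) R)) := by
  rw [Matrix.trace_fin_two, Matrix.trace_fin_two, map_add]
  rfl

/-- The entries of the matrices in a finite set. -/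
noncomputable def entr {R : Type*} [CommRing R] [DecidableEq R] (S : Finset SL(2, R)) : Finset R :=
  S.biUnion fun x => (Finset.univ : Finset (Fin 2 × Fin 2)).image
    fun ij => (x : Matrix (Fin 2) (Fin 2) R) ij.1 ij.2

theorem mem_entr {R : Type*} [CommRing R] [DecidableEq R] (S : Finset SL(2, R)) (x : SL(2, R))
    (hx : x ∈ S) (i j : Fin 2) : (x : Matrix (Fin 2) (Fin 2) R) i j ∈ entr S := by
  unfold entr
  rw [Finset.mem_biUnion]
  exact ⟨x, hx, Finset.mem_image.mpr ⟨(i, j), Finset.mem_univ _, rfl⟩⟩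

theorem nr_le_sum {R : Type*} [CommRing R] {N : R → ℝ} (hN : IsMS N) (E : Finset R)
    (x : Matrix (Fin 2) (Fin 2) R) (hx : ∀ i j, x i j ∈ E) : nr N x ≤ 4 * ∑ e ∈ E, N e := by
  have h : ∀ i j, N (x i j) ≤ ∑ e ∈ E, N e := fun i j =>
    Finset.single_le_sum (f := N) (fun e _ => hN.nonneg e) (hx i j)
  unfold nr
  linarith [h 0 0, h 0 1, h 1 0, h 1 1]

/-- The domination property on `Γ₁`. -/
theorem dom_of_log {R : Type*} [CommRing R] (ι : R →+* ℂ) (S T : Finset SL(2, R))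
    (hT : ∀ u ∈ T, ((u : Matrix (Fin 2) (Fin 2) R) - 1) ^ 2 = 0) (C : ℝ)
    (Γ₁ : Subgroup SL(2, R))
    (hlog : ∀ g ∈ Γ₁, ∃ l : List (SL(2, R) × ℤ),
      (∀ x ∈ l, (x.1 ∈ S ∧ x.2 = 1) ∨ x.1 ∈ T) ∧ pr l = g ∧
      cost l ≤ C * (1 + Real.log (nrm (Matrix.SpecialLinearGroup.map ι g))))
    (E : Finset R) (hES : ∀ x ∈ S, ∀ i j, (x : Matrix (Fin 2) (Fin 2) R) i j ∈ E)
    (hET : ∀ x ∈ T, ∀ i j, (x : Matrix (Fin 2) (Fin 2) R) i j ∈ E)
    {N : R → ℝ} (hN : IsMS N) (B : ℝ)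
    (hB : B = 3 * max C 0 * Real.log (3 + ∑ e ∈ E, N e)) :
    ∀ g ∈ Γ₁, N (Matrix.trace (g : Matrix (Fin 2) (Fin 2) R)) ≤
      (2 * Real.exp B) * (nrm (Matrix.SpecialLinearGroup.map ι g)) ^ B := by
  intro g hg
  obtain ⟨l, hl, hpr, hc⟩ := hlog g hg
  have hs : 0 ≤ ∑ e ∈ E, N e := Finset.sum_nonneg fun e _ => hN.nonneg e
  set m : ℝ := 3 + ∑ e ∈ E, N e with hm
  have hm3 : 3 ≤ m := by linarith
  have hm1 : 9 * m ≤ m ^ 3 := by nlinarith [sq_nonneg m]
  have hM : Real.exp 1 ≤ m ^ 3 := by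
    have := Real.exp_one_lt_d9
    nlinarith
  have h2 : 2 ≤ nrm (Matrix.SpecialLinearGroup.map ι g) := two_le_nrm _
  have key := nr_pr_le hN (S := (S : Set SL(2, R))) (T := (T : Set SL(2, R))) hT hM
    (by
      intro x hx
      have := nr_le_sum hN E x (hES x hx)
      linarith)
    (by
      intro x hx
      have := nr_le_sum hN E x (hET x hx)
      linarith) l (by simpa using hl)
  rw [hpr] at key
  have hlogm : 0 ≤ Real.log (m ^ 3) := Real.log_nonneg (by linarith)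
  have hlm : Real.log (m ^ 3) = 3 * Real.log m := by
    rw [Real.log_pow]; norm_num
  have hlog1 : 0 ≤ Real.log (nrm (Matrix.SpecialLinearGroup.map ι g)) := Real.log_nonneg (by linarith)
  have hc' : cost l ≤ max C 0 * (1 + Real.log (nrm (Matrix.SpecialLinearGroup.map ι g))) :=
    hc.trans (mul_le_mul_of_nonneg_right (le_max_left _ _) (by linarith))
  calc N (Matrix.trace (g : Matrix (Fin 2) (Fin 2) R)) ≤ nr N (g : Matrix (Fin 2) (Fin 2) R) :=
        trace_le_nr hN _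
    _ ≤ 2 * Real.exp (Real.log (m ^ 3) * cost l) := key
    _ ≤ 2 * Real.exp (B + Real.log (nrm (Matrix.SpecialLinearGroup.map ι g)) * B) := by
        have : Real.log (m ^ 3) * cost l ≤
            B + Real.log (nrm (Matrix.SpecialLinearGroup.map ι g)) * B := by
          calc Real.log (m ^ 3) * cost l ≤ Real.log (m ^ 3) *
              (max C 0 * (1 + Real.log (nrm (Matrix.SpecialLinearGroup.map ι g)))) :=
                mul_le_mul_of_nonneg_left hc' hlogm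
            _ = B + Real.log (nrm (Matrix.SpecialLinearGroup.map ι g)) * B := by
                rw [hlm, hB]; ring
        linarith [Real.exp_le_exp.mpr this]
    _ = (2 * Real.exp B) * (nrm (Matrix.SpecialLinearGroup.map ι g)) ^ B := by
        rw [Real.exp_add, Real.rpow_def_of_pos (by linarith)]
        ring

theorem core {R : Type*} [CommRing R] [IsDomain R] [Algebra ℚ R] [Algebra.FiniteType ℚ R]
    (ι : R →+* ℂ) (hι : Function.Injective ι) (S T : Finset SL(2, R))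
    (hT : ∀ u ∈ T, ((u : Matrix (Fin 2) (Fin 2) R) - 1) ^ 2 = 0) (C : ℝ)
    (Γ₁ Γ₂ : Subgroup SL(2, R))
    (hlog : ∀ g ∈ Γ₁, ∃ l : List (SL(2, R) × ℤ),
      (∀ x ∈ l, (x.1 ∈ S ∧ x.2 = 1) ∨ x.1 ∈ T) ∧ pr l = g ∧
      cost l ≤ C * (1 + Real.log (nrm (Matrix.SpecialLinearGroup.map ι g))))
    (hfg : Γ₂.FG)
    (hwc : ∀ g ∈ Γ₂, Semisimple (Matrix.SpecialLinearGroup.map ι g) →
      ¬ IsOfFinOrder (Matrix.SpecialLinearGroup.map ι g) →
      ∃ h ∈ Γ₁, WComm (Matrix.SpecialLinearGroup.map ι g) (Matrix.SpecialLinearGroup.map ι h)) :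
    ∃ δ : ℝ, 0 < δ ∧ {z : ℂ | ‖z - 2‖ < δ ∧
      ∃ g ∈ Γ₂, z = ι (Matrix.trace (g : Matrix (Fin 2) (Fin 2) R))}.Finite := by
  classical
  obtain ⟨S₂, hS₂⟩ := hfg
  set E : Finset R := entr S ∪ entr T ∪ entr S₂ with hE
  have hES : ∀ x ∈ S, ∀ i j, (x : Matrix (Fin 2) (Fin 2) R) i j ∈ E := fun x hx i j => by
    simp only [hE, Finset.mem_union]; exact Or.inl (Or.inl (mem_entr S x hx i j))
  have hET : ∀ x ∈ T, ∀ i j, (x : Matrix (Fin 2) (Fin 2) R) i j ∈ E := fun x hx i j => by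
    simp only [hE, Finset.mem_union]; exact Or.inl (Or.inr (mem_entr T x hx i j))
  have hES₂ : ∀ x ∈ S₂, ∀ i j, (x : Matrix (Fin 2) (Fin 2) R) i j ∈ E := fun x hx i j => by
    simp only [hE, Finset.mem_union]; exact Or.inr (mem_entr S₂ x hx i j)
  obtain ⟨ε, hε, hfin⟩ := exists_eps_finite R E
  set C' : ℝ := max C 0 with hC'
  have hC0 : 0 ≤ C' := le_max_right _ _
  have hη : 0 < ε / (3 * C' + 1) := by positivity
  obtain ⟨δ, hδ, hsmall⟩ := small_unit (ε / (3 * C' + 1)) hη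
  refine ⟨δ, hδ, ?_⟩
  refine (hfin.image ι).subset ?_
  rintro z ⟨hz, g, hg, rfl⟩
  refine ⟨Matrix.trace (g : Matrix (Fin 2) (Fin 2) R), ?_, rfl⟩
  obtain ⟨t, ht, ht1⟩ := exists_unit (ι (Matrix.trace (g : Matrix (Fin 2) (Fin 2) R)))
  have hlt := hsmall _ hz t ht ht1
  have hlt0 : 0 ≤ Real.log ‖(t : ℂ)‖ := Real.log_nonneg ht1
  have htpos : 0 < ‖(t : ℂ)‖ := by linarith
  -- comparison of the powers
  have hpow : ∀ s : ℝ, 0 ≤ s → ‖(t : ℂ)‖ ^ (3 * C' * Real.log (3 + s)) ≤ (3 + s) ^ ε := by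
    intro s hs
    have h3 : 0 ≤ Real.log (3 + s) := Real.log_nonneg (by linarith)
    rw [Real.rpow_def_of_pos htpos, Real.rpow_def_of_pos (by linarith : (0:ℝ) < 3 + s)]
    refine Real.exp_le_exp.mpr ?_
    have h4 : 3 * C' * Real.log ‖(t : ℂ)‖ ≤ ε := by
      calc 3 * C' * Real.log ‖(t : ℂ)‖ ≤ 3 * C' * (ε / (3 * C' + 1)) :=
            mul_le_mul_of_nonneg_left hlt.le (by positivity)
        _ ≤ (3 * C' + 1) * (ε / (3 * C' + 1)) := by
            refine mul_le_mul_of_nonneg_right (by linarith) hη.le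
        _ = ε := by field_simp
    calc Real.log ‖(t : ℂ)‖ * (3 * C' * Real.log (3 + s)) =
        (3 * C' * Real.log ‖(t : ℂ)‖) * Real.log (3 + s) := by ring
      _ ≤ ε * Real.log (3 + s) := mul_le_mul_of_nonneg_right h4 h3
      _ = Real.log (3 + s) * ε := by ring
  -- growth for every seminorm
  have hgrow : ∀ N : R → ℝ, IsMS N → ∃ k : ℕ, 1 ≤ k ∧ ∃ K' : ℝ, ∀ n : ℕ,
      N (Matrix.trace ((g ^ (k * n) : SL(2, R)) : Matrix (Fin 2) (Fin 2) R)) ≤
        K' * (‖(t : ℂ)‖ ^ (3 * C' * Real.log (3 + ∑ e ∈ E, N e))) ^ (k * n) := by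
    intro N hN
    have hs : 0 ≤ ∑ e ∈ E, N e := Finset.sum_nonneg fun e _ => hN.nonneg e
    have h3 : 0 ≤ Real.log (3 + ∑ e ∈ E, N e) := Real.log_nonneg (by linarith)
    exact growth_of_dom ι hι N hN Γ₁ (3 * C' * Real.log (3 + ∑ e ∈ E, N e))
      (2 * Real.exp (3 * C' * Real.log (3 + ∑ e ∈ E, N e))) (by positivity) (by positivity)
      (dom_of_log ι S T hT C Γ₁ hlog E hES hET hN _ rfl) g (hwc g hg) t ht ht1
  refine ⟨trace_mem_adjoin (S₂ : Set SL(2, R)) (E : Set R) hES₂ g (hS₂ ▸ hg), ?_, ?_⟩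
  · intro φ
    obtain ⟨k, hk, K', hK'⟩ := hgrow _ (isMS_norm φ)
    have hs : 0 ≤ ∑ e ∈ E, ‖φ e‖ := Finset.sum_nonneg fun e _ => norm_nonneg _
    have h3 : 0 ≤ Real.log (3 + ∑ e ∈ E, ‖φ e‖) := Real.log_nonneg (by linarith)
    have key := arch_of_growth (Matrix.SpecialLinearGroup.map φ g) k hk K'
      (‖(t : ℂ)‖ ^ (3 * C' * Real.log (3 + ∑ e ∈ E, ‖φ e‖)))
      (Real.one_le_rpow ht1 (by positivity)) (by
        intro n
        have h6 := hK' n
        rw [← map_pow, trace_map_eq]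
        exact h6)
    rw [trace_map_eq] at key
    refine key.trans ?_
    exact mul_le_mul_of_nonneg_left (hpow _ hs) (by norm_num)
  · intro N hN hna
    obtain ⟨k, hk, K', hK'⟩ := hgrow N hN
    have hs : 0 ≤ ∑ e ∈ E, N e := Finset.sum_nonneg fun e _ => hN.nonneg e
    have h3 : 0 ≤ Real.log (3 + ∑ e ∈ E, N e) := Real.log_nonneg (by linarith)
    exact (nonarch_of_growth hN hna g k hk K' _ (Real.one_le_rpow ht1 (by positivity)) hK').trans
      (hpow _ hs)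

end MPc2b80f
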