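import Pool.Agent.Lib.MP_c2b80f_alB.Defs

/-!
# Norm of a product of elements of `S` and powers of unipotent elements
-/

open Matrix MatrixGroups

namespace MPc2b80f

variable {R : Type*} [CommRing R] {N : R → ℝ}

theorem IsMS.neg (hN : IsMS N) (x : R) : N (-x) = N x := by
  have h1 : N (-1) * N (-1) = 1 := by
    rw [← hN.mul, neg_mul_neg, one_mul, hN.one]
  have h2 : N (-1) = 1 := by
    have := hN.nonneg (-1)
    nlinarith
  rw [← neg_one_mul, hN.mul, h2, one_mul]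

theorem IsMS.natCast_le (hN : IsMS N) (n : ℕ) : N (n : R) ≤ n := by
  induction n with
  | zero => simp [hN.zero]
  | succ n ih =>
    push_cast
    calc N ((n : R) + 1) ≤ N (n : R) + N 1 := hN.add _ _
      _ ≤ n + 1 := by rw [hN.one]; linarith

theorem IsMS.intCast_le (hN : IsMS N) (n : ℤ) : N (n : R) ≤ |(n : ℝ)| := by
  rcases Int.eq_nat_or_neg n with ⟨m, rfl | rfl⟩
  · simpa using hN.natCast_le m
  · rw [Int.cast_neg, hN.neg]
    simpa using hN.natCast_le m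

theorem nr_nonneg (hN : IsMS N) (A : Matrix (Fin 2) (Fin 2) R) : 0 ≤ nr N A := by
  unfold nr
  have := hN.nonneg (A 0 0)
  have := hN.nonneg (A 0 1)
  have := hN.nonneg (A 1 0)
  have := hN.nonneg (A 1 1)
  positivity

theorem nr_mul_le (hN : IsMS N) (A B : Matrix (Fin 2) (Fin 2) R) :
    nr N (A * B) ≤ nr N A * nr N B := by
  have h : ∀ i j, N ((A * B) i j) ≤ N (A i 0) * N (B 0 j) + N (A i 1) * N (B 1 j) := by
    intro i j
    rw [Matrix.mul_apply, Fin.sum_univ_two]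
    exact (hN.add _ _).trans_eq (by rw [hN.mul, hN.mul])
  have p := fun i j => hN.nonneg (A i j)
  have q := fun i j => hN.nonneg (B i j)
  have e1 : 0 ≤ N (A 0 0) * N (B 1 0) := mul_nonneg (p _ _) (q _ _)
  have e2 : 0 ≤ N (A 0 0) * N (B 1 1) := mul_nonneg (p _ _) (q _ _)
  have e3 : 0 ≤ N (A 0 1) * N (B 0 0) := mul_nonneg (p _ _) (q _ _)
  have e4 : 0 ≤ N (A 0 1) * N (B 0 1) := mul_nonneg (p _ _) (q _ _)
  have e5 : 0 ≤ N (A 1 0) * N (B 1 0) := mul_nonneg (p _ _) (q _ _)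
  have e6 : 0 ≤ N (A 1 0) * N (B 1 1) := mul_nonneg (p _ _) (q _ _)
  have e7 : 0 ≤ N (A 1 1) * N (B 0 0) := mul_nonneg (p _ _) (q _ _)
  have e8 : 0 ≤ N (A 1 1) * N (B 0 1) := mul_nonneg (p _ _) (q _ _)
  unfold nr
  nlinarith [h 0 0, h 0 1, h 1 0, h 1 1]

theorem trace_le_nr (hN : IsMS N) (A : Matrix (Fin 2) (Fin 2) R) :
    N (Matrix.trace A) ≤ nr N A := by
  rw [Matrix.trace_fin_two]
  have := hN.add (A 0 0) (A 1 1)
  have := hN.nonneg (A 0 1)
  have := hN.nonneg (A 1 0)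
  unfold nr
  linarith

theorem unip_pow_nat (u : SL(2, R)) (hu : ((u : Matrix (Fin 2) (Fin 2) R) - 1) ^ 2 = 0) (n : ℕ) :
    ((u ^ n : SL(2, R)) : Matrix (Fin 2) (Fin 2) R) =
      1 + n • ((u : Matrix (Fin 2) (Fin 2) R) - 1) := by
  induction n with
  | zero => simp
  | succ n ih =>
    rw [pow_succ, Matrix.SpecialLinearGroup.coe_mul, ih]
    have h : (u : Matrix (Fin 2) (Fin 2) R) = 1 + ((u : Matrix (Fin 2) (Fin 2) R) - 1) := by abel
    set X := (u : Matrix (Fin 2) (Fin 2) R) - 1 with hX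
    rw [h, add_mul, one_mul, smul_mul_assoc, mul_add, mul_one, ← sq, hu, add_zero, succ_nsmul]
    abel

/-- Powers of unipotent elements. -/
theorem unip_zpow (u : SL(2, R)) (hu : ((u : Matrix (Fin 2) (Fin 2) R) - 1) ^ 2 = 0) (n : ℤ) :
    ((u ^ n : SL(2, R)) : Matrix (Fin 2) (Fin 2) R) =
      1 + n • ((u : Matrix (Fin 2) (Fin 2) R) - 1) := by
  have hinv : ((u⁻¹ : SL(2, R)) : Matrix (Fin 2) (Fin 2) R) =
      1 - ((u : Matrix (Fin 2) (Fin 2) R) - 1) := by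
    set X := (u : Matrix (Fin 2) (Fin 2) R) - 1 with hX
    have h : (u : Matrix (Fin 2) (Fin 2) R) = 1 + X := by rw [hX]; abel
    have h1 : (u : Matrix (Fin 2) (Fin 2) R) * (1 - X) = 1 := by
      rw [h, add_mul, one_mul, mul_sub, mul_one, ← sq, hu, sub_zero]
      abel
    have h2 : ((u⁻¹ : SL(2, R)) : Matrix (Fin 2) (Fin 2) R) * (u : Matrix (Fin 2) (Fin 2) R) = 1 := by
      rw [← Matrix.SpecialLinearGroup.coe_mul, inv_mul_cancel, Matrix.SpecialLinearGroup.coe_one]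
    calc ((u⁻¹ : SL(2, R)) : Matrix (Fin 2) (Fin 2) R) =
        ((u⁻¹ : SL(2, R)) : Matrix (Fin 2) (Fin 2) R) * ((u : Matrix (Fin 2) (Fin 2) R) * (1 - X)) := by
          rw [h1, mul_one]
      _ = 1 - X := by rw [← mul_assoc, h2, one_mul]
  rcases Int.eq_nat_or_neg n with ⟨m, rfl | rfl⟩
  · rw [_root_.zpow_natCast, unip_pow_nat u hu, natCast_zsmul]
  · have hu' : (((u⁻¹ : SL(2, R)) : Matrix (Fin 2) (Fin 2) R) - 1) ^ 2 = 0 := by
      rw [hinv, show (1 : Matrix (Fin 2) (Fin 2) R) - ((u : Matrix (Fin 2) (Fin 2) R) - 1) - 1 =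
        -((u : Matrix (Fin 2) (Fin 2) R) - 1) by abel, neg_sq, hu]
    rw [_root_.zpow_neg, _root_.zpow_natCast, ← inv_pow, unip_pow_nat _ hu', hinv, neg_smul, natCast_zsmul,
      show (1 : Matrix (Fin 2) (Fin 2) R) - ((u : Matrix (Fin 2) (Fin 2) R) - 1) - 1 =
        -((u : Matrix (Fin 2) (Fin 2) R) - 1) by abel, smul_neg]

theorem nr_one (hN : IsMS N) : nr N (1 : Matrix (Fin 2) (Fin 2) R) = 2 := by
  unfold nr
  simp [hN.zero, hN.one]
  norm_num

theorem nr_zpow_le (hN : IsMS N) (u : SL(2, R))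
    (hu : ((u : Matrix (Fin 2) (Fin 2) R) - 1) ^ 2 = 0) (n : ℤ) {M : ℝ}
    (hM : nr N (u : Matrix (Fin 2) (Fin 2) R) + 2 ≤ M) :
    nr N ((u ^ n : SL(2, R)) : Matrix (Fin 2) (Fin 2) R) ≤ (1 + |(n : ℝ)|) * M := by
  rw [unip_zpow u hu]
  have h : ∀ i j, N ((1 + n • ((u : Matrix (Fin 2) (Fin 2) R) - 1) : Matrix (Fin 2) (Fin 2) R) i j) ≤
      N ((1 : Matrix (Fin 2) (Fin 2) R) i j) + |(n : ℝ)| *
        (N ((u : Matrix (Fin 2) (Fin 2) R) i j) + N ((1 : Matrix (Fin 2) (Fin 2) R) i j)) := by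
    intro i j
    rw [Matrix.add_apply, Matrix.smul_apply, Matrix.sub_apply]
    refine (hN.add _ _).trans ?_
    have h1 : n • ((u : Matrix (Fin 2) (Fin 2) R) i j - (1 : Matrix (Fin 2) (Fin 2) R) i j) =
        (n : R) * ((u : Matrix (Fin 2) (Fin 2) R) i j - (1 : Matrix (Fin 2) (Fin 2) R) i j) := by
      rw [zsmul_eq_mul]
    rw [h1, hN.mul]
    have h2 : N ((u : Matrix (Fin 2) (Fin 2) R) i j - (1 : Matrix (Fin 2) (Fin 2) R) i j) ≤
        N ((u : Matrix (Fin 2) (Fin 2) R) i j) + N ((1 : Matrix (Fin 2) (Fin 2) R) i j) := by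
      rw [sub_eq_add_neg]
      exact (hN.add _ _).trans_eq (by rw [hN.neg])
    have h3 := mul_le_mul (hN.intCast_le n) h2 (hN.nonneg _) (abs_nonneg _)
    linarith
  have h1 : nr N ((1 + n • ((u : Matrix (Fin 2) (Fin 2) R) - 1) : Matrix (Fin 2) (Fin 2) R)) ≤
      nr N (1 : Matrix (Fin 2) (Fin 2) R) + |(n : ℝ)| *
        (nr N (u : Matrix (Fin 2) (Fin 2) R) + nr N (1 : Matrix (Fin 2) (Fin 2) R)) := by
    unfold nr
    linarith [h 0 0, h 0 1, h 1 0, h 1 1]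
  rw [nr_one hN] at h1
  have h4 := nr_nonneg hN (u : Matrix (Fin 2) (Fin 2) R)
  have h5 : |(n : ℝ)| * (nr N (u : Matrix (Fin 2) (Fin 2) R) + 2) ≤ |(n : ℝ)| * M :=
    mul_le_mul_of_nonneg_left hM (abs_nonneg _)
  linarith

/-- The norm of a product is at most exponential in the cost.
Proof: induction on `l`. For `x ∈ S`, `n = 1`: the norm of `x` is at most `M`, which is at most
`exp (log M * (1 + log 2))`. For `u ∈ T`: `u ^ n = 1 + n (u - 1)`, hence
`nr N (u ^ n) ≤ 2 + |n| (nr N u + 2) ≤ (1 + |n|) M`, and `1 + |n| = exp (log (1 + |n|))` is at most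
`exp (log M * log (1 + |n|))` because `log M ≥ 1`. The empty product has norm `2`. -/
theorem nr_pr_le (hN : IsMS N) {S T : Set SL(2, R)}
    (hT : ∀ u ∈ T, ((u : Matrix (Fin 2) (Fin 2) R) - 1) ^ 2 = 0)
    {M : ℝ} (hM : Real.exp 1 ≤ M) (hS : ∀ x ∈ S, nr N (x : Matrix (Fin 2) (Fin 2) R) ≤ M)
    (hT' : ∀ u ∈ T, nr N (u : Matrix (Fin 2) (Fin 2) R) + 2 ≤ M)
    (l : List (SL(2, R) × ℤ)) (hl : ∀ x ∈ l, (x.1 ∈ S ∧ x.2 = 1) ∨ x.1 ∈ T) :
    nr N ((pr l : SL(2, R)) : Matrix (Fin 2) (Fin 2) R) ≤ 2 * Real.exp (Real.log M * cost l) := by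
  have hMpos : 0 < M := (Real.exp_pos 1).trans_le hM
  have hlogM : 1 ≤ Real.log M := by
    rw [← Real.log_exp 1]
    exact Real.log_le_log (Real.exp_pos 1) hM
  induction l with
  | nil =>
    simp only [pr, cost, List.map_nil, List.prod_nil, List.sum_nil, mul_zero, Real.exp_zero,
      Matrix.SpecialLinearGroup.coe_one]
    rw [nr_one hN]
    norm_num
  | cons a l ih =>
    have ih' := ih fun x hx => hl x (List.mem_cons_of_mem _ hx)
    have hpr : pr (a :: l) = a.1 ^ a.2 * pr l := by simp [pr]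
    have hcost : cost (a :: l) = (1 + Real.log (1 + |(a.2 : ℝ)|)) + cost l := by simp [cost]
    have hstep : nr N ((a.1 ^ a.2 : SL(2, R)) : Matrix (Fin 2) (Fin 2) R) ≤
        Real.exp (Real.log M * (1 + Real.log (1 + |(a.2 : ℝ)|))) := by
      have h1 : 0 ≤ Real.log (1 + |(a.2 : ℝ)|) := Real.log_nonneg (by linarith [abs_nonneg (a.2 : ℝ)])
      have h2 : (1 + |(a.2 : ℝ)|) * M ≤ Real.exp (Real.log M * (1 + Real.log (1 + |(a.2 : ℝ)|))) := by
        have h3 : (1 + |(a.2 : ℝ)|) * M =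
            Real.exp (Real.log (1 + |(a.2 : ℝ)|) + Real.log M) := by
          rw [Real.exp_add, Real.exp_log (by linarith [abs_nonneg (a.2 : ℝ)]), Real.exp_log hMpos]
        rw [h3]
        refine Real.exp_le_exp.mpr ?_
        nlinarith
      rcases hl a List.mem_cons_self with ⟨hs, h1'⟩ | ht
      · rw [h1', zpow_one]
        refine (hS _ hs).trans ?_
        rw [h1'] at h2
        refine le_trans ?_ h2
        have : (0:ℝ) ≤ |((1 : ℤ) : ℝ)| := abs_nonneg _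
        nlinarith
      · exact (nr_zpow_le hN _ (hT _ ht) _ (hT' _ ht)).trans h2
    rw [hpr, hcost, Matrix.SpecialLinearGroup.coe_mul, mul_add, Real.exp_add]
    calc nr N (((a.1 ^ a.2 : SL(2, R)) : Matrix (Fin 2) (Fin 2) R) * ((pr l : SL(2, R)) :
          Matrix (Fin 2) (Fin 2) R)) ≤ nr N ((a.1 ^ a.2 : SL(2, R)) : Matrix (Fin 2) (Fin 2) R) *
            nr N ((pr l : SL(2, R)) : Matrix (Fin 2) (Fin 2) R) := nr_mul_le hN _ _
      _ ≤ Real.exp (Real.log M * (1 + Real.log (1 + |(a.2 : ℝ)|))) *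
            (2 * Real.exp (Real.log M * cost l)) :=
          mul_le_mul hstep ih' (nr_nonneg hN _) (Real.exp_pos _).le
      _ = 2 * (Real.exp (Real.log M * (1 + Real.log (1 + |(a.2 : ℝ)|))) *
            Real.exp (Real.log M * cost l)) := by ring

end MPc2b80f
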