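import Mathlib

/-!
# MP_c2b80f_al: weak commensurability and discreteness, type A_1 over the complex numbers: definitions
-/

open Matrix MatrixGroups

namespace MPc2b80f

/-- The diagonal matrix with diagonal entries `t` and `t⁻¹`. The maximal tori of `SL_2` over the
complex numbers are the conjugates of the group of these matrices, and the characters of such a torus are
`p * dg t * p⁻¹ ↦ t ^ k` with `k` an integer. -/
noncomputable def dg (t : ℂˣ) : SL(2, ℂ) :=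
  ⟨!![(t : ℂ), 0; 0, ((t⁻¹ : ℂˣ) : ℂ)], by simp [Matrix.det_fin_two]⟩

/-- Semisimple (diagonalisable) elements of `SL_2(ℂ)`. -/
def Semisimple (g : SL(2, ℂ)) : Prop :=
  ∃ (p : SL(2, ℂ)) (t : ℂˣ), g = p * dg t * p⁻¹

/-- Weak commensurability of (semisimple) elements of `SL_2(ℂ)`. -/
def WComm (g h : SL(2, ℂ)) : Prop :=
  ∃ (p q : SL(2, ℂ)) (s t : ℂˣ) (k l : ℤ),
    g = p * dg s * p⁻¹ ∧ h = q * dg t * q⁻¹ ∧ s ^ k = t ^ l ∧ s ^ k ≠ 1

/-- Sum of the values of `N` on the four entries of a matrix. -/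
noncomputable def nr {R : Type*} (N : R → ℝ) (A : Matrix (Fin 2) (Fin 2) R) : ℝ :=
  N (A 0 0) + N (A 0 1) + N (A 1 0) + N (A 1 1)

/-- The norm of an element of `SL_2(ℂ)`: the sum of the absolute values of the four entries. -/
noncomputable def nrm (g : SL(2, ℂ)) : ℝ := nr (fun z : ℂ => ‖z‖) (g : Matrix (Fin 2) (Fin 2) ℂ)

/-- The product `x₁ ^ n₁ * x₂ ^ n₂ * ...` of a list of pairs `(xᵢ, nᵢ)`. -/
def pr {G : Type*} [Group G] (l : List (G × ℤ)) : G := (l.map fun x => x.1 ^ x.2).prod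

/-- The cost of a list of pairs `(xᵢ, nᵢ)`: the sum of the numbers `1 + log (1 + |nᵢ|)`. -/
noncomputable def cost {G : Type*} (l : List (G × ℤ)) : ℝ :=
  (l.map fun x => 1 + Real.log (1 + |(x.2 : ℝ)|)).sum

/-- `Γ` is logarithmically generated: there are finite sets `S` and `T` of elements of `SL_2(ℂ)`, the elements
of `T` being unipotent, and a constant `C` such that every `g` in `Γ` is a product of elements of `S` and
of powers `u ^ n` (`n` an integer) of elements `u` of `T`, where the sum of the numbers `1 + log (1 + |n|)`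
(with `n = 1` for factors in `S`) over all factors is at most `C * (1 + log ‖g‖)`. -/
def LogGen (Γ : Subgroup SL(2, ℂ)) : Prop :=
  ∃ (S T : Finset SL(2, ℂ)) (C : ℝ),
    (∀ u ∈ T, ((u : Matrix (Fin 2) (Fin 2) ℂ) - 1) ^ 2 = 0) ∧
    ∀ g ∈ Γ, ∃ l : List (SL(2, ℂ) × ℤ),
      (∀ x ∈ l, (x.1 ∈ S ∧ x.2 = 1) ∨ x.1 ∈ T) ∧ pr l = g ∧
      cost l ≤ C * (1 + Real.log (nrm g))

/-- Zariski density in `SL_2(ℂ)`: a polynomial in the four entries which vanishes on `Γ` vanishes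
on `SL_2(ℂ)`. -/
def ZDense (Γ : Subgroup SL(2, ℂ)) : Prop :=
  ∀ P : MvPolynomial (Fin 2 × Fin 2) ℂ,
    (∀ g ∈ Γ, MvPolynomial.eval (fun ij : Fin 2 × Fin 2 => (g : Matrix (Fin 2) (Fin 2) ℂ) ij.1 ij.2) P = 0) →
    ∀ g : SL(2, ℂ), MvPolynomial.eval
      (fun ij : Fin 2 × Fin 2 => (g : Matrix (Fin 2) (Fin 2) ℂ) ij.1 ij.2) P = 0

/-- `Γ` has no invariant line in `ℂ²` (no common eigenvector). Zariski dense subgroups have this property, see
`noLine_of_zDense` in `Near.lean`. -/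
def NoLine (Γ : Subgroup SL(2, ℂ)) : Prop :=
  ∀ v : Fin 2 → ℂ, v ≠ 0 → ∃ g ∈ Γ, ∀ c : ℂ, (g : Matrix (Fin 2) (Fin 2) ℂ) *ᵥ v ≠ c • v

/-- Multiplicative seminorms on a commutative ring. -/
structure IsMS {R : Type*} [CommRing R] (N : R → ℝ) : Prop where
  nonneg : ∀ x, 0 ≤ N x
  zero : N 0 = 0
  one : N 1 = 1
  add : ∀ x y, N (x + y) ≤ N x + N y
  mul : ∀ x y, N (x * y) = N x * N y

end MPc2b80f
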