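import Pool.Agent.Lib.MP_c2b80f_alB.Core

/-!
# The theorem for subgroups of `SL_2(ℂ)`
-/

open Matrix MatrixGroups

namespace MPc2b80f

/-- A matrix with entries in a subring lifts. -/
theorem exists_lift {R : Type*} [CommRing R] (ι : R →+* ℂ) (hι : Function.Injective ι) (g : SL(2, ℂ))
    (hg : ∀ i j, (g : Matrix (Fin 2) (Fin 2) ℂ) i j ∈ ι.range) :
    ∃ g' : SL(2, R), Matrix.SpecialLinearGroup.map ι g' = g := by
  choose f hf using hg
  have hdet : (Matrix.of f).det = 1 := by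
    apply hι
    rw [Matrix.det_fin_two]
    have h := g.2
    rw [Matrix.det_fin_two] at h
    simp only [Matrix.of_apply, map_sub, map_mul, map_one, hf]
    exact h
  refine ⟨⟨Matrix.of f, hdet⟩, ?_⟩
  ext i j
  simp [hf]

theorem map_inj {R : Type*} [CommRing R] (ι : R →+* ℂ) (hι : Function.Injective ι) :
    Function.Injective (Matrix.SpecialLinearGroup.map (n := Fin 2) ι) := by
  intro x y h
  ext i j
  apply hι
  have := congrArg (fun g : SL(2, ℂ) => (g : Matrix (Fin 2) (Fin 2) ℂ) i j) h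
  simpa using this

theorem pr_map {G H : Type*} [Group G] [Group H] (f : G →* H) (l : List (G × ℤ)) :
    f (pr l) = pr (l.map fun x => (f x.1, x.2)) := by
  unfold pr
  rw [map_list_prod, List.map_map, List.map_map]
  congr 1
  refine List.map_congr_left ?_
  intro x _
  simp

theorem cost_map {G H : Type*} [Group G] [Group H] (f : G → H) (l : List (G × ℤ)) :
    cost (l.map fun x => (f x.1, x.2)) = cost l := by
  unfold cost
  rw [List.map_map]
  rfl

theorem final_SL (Γ₁ Γ₂ : Subgroup SL(2, ℂ)) (h1 : LogGen Γ₁) (hfg : Γ₂.FG) (hz : NoLine Γ₂)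
    (hwc : ∀ g ∈ Γ₂, Semisimple g → ¬ IsOfFinOrder g → ∃ h ∈ Γ₁, WComm g h) :
    DiscreteTopology Γ₂ := by
  classical
  by_contra hnd
  obtain ⟨S, T, C, hT, hlog⟩ := h1
  obtain ⟨S₂, hS₂⟩ := id hfg
  set E : Finset ℂ := entr S ∪ entr T ∪ entr S₂ with hE
  have hES : ∀ x ∈ S, ∀ i j, (x : Matrix (Fin 2) (Fin 2) ℂ) i j ∈ E := fun x hx i j => by
    simp only [hE, Finset.mem_union]; exact Or.inl (Or.inl (mem_entr S x hx i j))
  have hET : ∀ x ∈ T, ∀ i j, (x : Matrix (Fin 2) (Fin 2) ℂ) i j ∈ E := fun x hx i j => by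
    simp only [hE, Finset.mem_union]; exact Or.inl (Or.inr (mem_entr T x hx i j))
  have hES₂ : ∀ x ∈ S₂, ∀ i j, (x : Matrix (Fin 2) (Fin 2) ℂ) i j ∈ E := fun x hx i j => by
    simp only [hE, Finset.mem_union]; exact Or.inr (mem_entr S₂ x hx i j)
  let A : Subalgebra ℚ ℂ := Algebra.adjoin ℚ (E : Set ℂ)
  have hA : Algebra.FiniteType ℚ A :=
    (Subalgebra.fg_iff_finiteType A).mp (Subalgebra.fg_adjoin_finset E)
  let ι : A →+* ℂ := A.val.toRingHom
  have hι : Function.Injective ι := Subtype.val_injective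
  have hrange : ∀ z : ℂ, z ∈ A → z ∈ ι.range := fun z hz => ⟨⟨z, hz⟩, rfl⟩
  have hEA : ∀ z ∈ E, z ∈ A := fun z hz => Algebra.subset_adjoin hz
  let f : SL(2, A) →* SL(2, ℂ) := Matrix.SpecialLinearGroup.map ι
  have hf : Function.Injective f := map_inj ι hι
  have hliftS : ∀ x ∈ S, ∃ y : SL(2, A), f y = x := fun x hx =>
    exists_lift ι hι x fun i j => hrange _ (hEA _ (hES x hx i j))
  have hliftT : ∀ x ∈ T, ∃ y : SL(2, A), f y = x := fun x hx =>
    exists_lift ι hι x fun i j => hrange _ (hEA _ (hET x hx i j))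
  have hliftS₂ : ∀ x ∈ S₂, ∃ y : SL(2, A), f y = x := fun x hx =>
    exists_lift ι hι x fun i j => hrange _ (hEA _ (hES₂ x hx i j))
  let S' : Finset SL(2, A) := S.preimage f hf.injOn
  let T' : Finset SL(2, A) := T.preimage f hf.injOn
  let S₂' : Finset SL(2, A) := S₂.preimage f hf.injOn
  let Γ₁' : Subgroup SL(2, A) := Γ₁.comap f
  let Γ₂' : Subgroup SL(2, A) := Γ₂.comap f
  -- lists lift
  have hlistlift : ∀ l : List (SL(2, ℂ) × ℤ), (∀ x ∈ l, (x.1 ∈ S ∧ x.2 = 1) ∨ x.1 ∈ T) →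
      ∃ l' : List (SL(2, A) × ℤ), (∀ x ∈ l', (x.1 ∈ S' ∧ x.2 = 1) ∨ x.1 ∈ T') ∧
        l'.map (fun x => (f x.1, x.2)) = l := by
    intro l
    induction l with
    | nil => intro _; exact ⟨[], by simp, rfl⟩
    | cons a l ih =>
      intro h
      obtain ⟨l', h1, h2⟩ := ih fun x hx => h x (List.mem_cons_of_mem _ hx)
      have ha := h a List.mem_cons_self
      have hy : ∃ y : SL(2, A), f y = a.1 := by
        rcases ha with ha | ha
        · exact hliftS _ ha.1
        · exact hliftT _ ha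
      obtain ⟨y, hy⟩ := hy
      refine ⟨(y, a.2) :: l', ?_, ?_⟩
      · intro x hx
        rcases List.mem_cons.mp hx with rfl | hx
        · rcases ha with ha | ha
          · left; exact ⟨by simpa [S', hy] using ha.1, ha.2⟩
          · right; simpa [T', hy] using ha
        · exact h1 x hx
      · rw [List.map_cons, h2, hy]
  have hT' : ∀ u ∈ T', ((u : Matrix (Fin 2) (Fin 2) A) - 1) ^ 2 = 0 := by
    intro u hu
    have hu' : f u ∈ T := by simpa [T'] using hu
    have h := hT _ hu'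
    have h7 : ((u : Matrix (Fin 2) (Fin 2) A) - 1).map ι =
        ((f u : SL(2, ℂ)) : Matrix (Fin 2) (Fin 2) ℂ) - 1 := by
      ext i j
      simp only [Matrix.map_apply, Matrix.sub_apply, map_sub, Matrix.one_apply, f]
      congr 1
      split_ifs <;> simp
    have h8 : (((u : Matrix (Fin 2) (Fin 2) A) - 1) ^ 2).map ι = 0 := by
      have : (((u : Matrix (Fin 2) (Fin 2) A) - 1) ^ 2).map ι =
          (((u : Matrix (Fin 2) (Fin 2) A) - 1).map ι) ^ 2 := by
        have := map_pow (ι.mapMatrix (m := Fin 2)) ((u : Matrix (Fin 2) (Fin 2) A) - 1) 2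
        simpa [RingHom.mapMatrix_apply] using this
      rw [this, h7, h]
    ext i j
    have h9 := congrArg (fun M : Matrix (Fin 2) (Fin 2) ℂ => M i j) h8
    simp only [Matrix.map_apply, Matrix.zero_apply] at h9
    have h10 : ((((u : Matrix (Fin 2) (Fin 2) A) - 1) ^ 2 : Matrix (Fin 2) (Fin 2) A)) i j = 0 :=
      hι (by rw [h9, map_zero])
    rw [h10]
    rfl
  have hlog' : ∀ g ∈ Γ₁', ∃ l : List (SL(2, A) × ℤ),
      (∀ x ∈ l, (x.1 ∈ S' ∧ x.2 = 1) ∨ x.1 ∈ T') ∧ pr l = g ∧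
      cost l ≤ C * (1 + Real.log (nrm (Matrix.SpecialLinearGroup.map ι g))) := by
    intro g hg
    obtain ⟨l, h1, h2, h3⟩ := hlog (f g) hg
    obtain ⟨l', h4, h5⟩ := hlistlift l h1
    refine ⟨l', h4, ?_, ?_⟩
    · apply hf
      rw [pr_map, h5, h2]
    · rw [← cost_map (fun x => f x) l', h5]
      exact h3
  have hmapS₂ : Γ₂ ≤ f.range := by
    rw [← hS₂, Subgroup.closure_le]
    intro x hx
    exact hliftS₂ x hx
  have hfg' : Γ₂'.FG := by
    refine ⟨S₂', ?_⟩
    apply le_antisymm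
    · rw [Subgroup.closure_le]
      intro x hx
      have : f x ∈ S₂ := by simpa [S₂'] using hx
      show f x ∈ Γ₂
      rw [← hS₂]
      exact Subgroup.subset_closure this
    · intro x hx
      have h1 : f x ∈ Subgroup.closure (S₂ : Set SL(2, ℂ)) := by rw [hS₂]; exact hx
      have h2 : (S₂ : Set SL(2, ℂ)) = f '' (S₂' : Set SL(2, A)) := by
        ext y
        constructor
        · intro hy
          obtain ⟨x, hx⟩ := hliftS₂ y hy
          exact ⟨x, by simpa [S₂', hx] using hy, hx⟩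
        · rintro ⟨x, hx, rfl⟩
          simpa [S₂'] using hx
      rw [h2, ← MonoidHom.map_closure] at h1
      obtain ⟨y, hy, hxy⟩ := h1
      rwa [← hf hxy]
  obtain ⟨δ, hδ, hfin⟩ := core ι hι S' T' hT' C Γ₁' Γ₂' hlog' hfg' (by
    intro g hg hs ho
    obtain ⟨h, hh, hw⟩ := hwc (f g) hg hs ho
    -- `h` lifts, because `Γ₁` is contained in the range
    obtain ⟨l, h1, h2, -⟩ := hlog h hh
    obtain ⟨l', h4, h5⟩ := hlistlift l h1
    have h6 : f (pr l') = h := by rw [pr_map, h5, h2]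
    exact ⟨pr l', by show f (pr l') ∈ Γ₁; rw [h6]; exact hh, by
      show WComm (f g) (f (pr l')); rw [h6]; exact hw⟩)
  set Z : Set ℂ := {z : ℂ | ‖z - 2‖ < δ ∧
      ∃ g ∈ Γ₂', z = ι (Matrix.trace (g : Matrix (Fin 2) (Fin 2) A))} with hZ
  -- minimal distance
  have hmin : ∃ δ' : ℝ, 0 < δ' ∧ δ' ≤ δ ∧ ∀ z ∈ Z, z ≠ 2 → δ' ≤ ‖z - 2‖ := by
    have : ∀ W : Set ℂ, W.Finite → ∃ δ' : ℝ, 0 < δ' ∧ δ' ≤ δ ∧ ∀ z ∈ W, z ≠ 2 → δ' ≤ ‖z - 2‖ := by
      intro W hW
      refine Set.Finite.induction_on W hW ⟨δ, hδ, le_rfl, by simp⟩ ?_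
      intro a W' _ _ ih
      obtain ⟨δ', h1, h2, h3⟩ := ih
      by_cases ha : a = 2
      · refine ⟨δ', h1, h2, ?_⟩
        rintro z (rfl | hz) hz2
        · exact absurd ha hz2
        · exact h3 z hz hz2
      · have hpos : 0 < ‖a - 2‖ := norm_pos_iff.mpr (sub_ne_zero.mpr ha)
        refine ⟨min δ' ‖a - 2‖, lt_min h1 hpos, (min_le_left _ _).trans h2, ?_⟩
        rintro z (rfl | hz) hz2
        · exact min_le_right _ _
        · exact (min_le_left _ _).trans (h3 z hz hz2)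
    exact this Z hfin
  obtain ⟨δ', hδ', hle, hmin⟩ := hmin
  obtain ⟨g, hg, hg2, hgδ⟩ := exists_trace_near_two Γ₂ hfg hz hnd δ' hδ'
  obtain ⟨g', rfl⟩ := hmapS₂ hg
  have htr : Matrix.trace ((f g' : SL(2, ℂ)) : Matrix (Fin 2) (Fin 2) ℂ) =
      ι (Matrix.trace (g' : Matrix (Fin 2) (Fin 2) A)) := trace_map_eq ι g'
  have hmem : Matrix.trace ((f g' : SL(2, ℂ)) : Matrix (Fin 2) (Fin 2) ℂ) ∈ Z :=
    ⟨lt_of_lt_of_le hgδ hle, g', hg, htr⟩
  exact absurd hgδ (not_lt.mpr (hmin _ hmem hg2))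

end MPc2b80f
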