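import Pool.Agent.Lib.MP_c2b80f_alB.Forms
import Pool.Agent.Lib.MP_c2b80f_alB.FinalSL

/-!
# The theorem for `SL_2` and `PGL_2`
-/

open Matrix MatrixGroups Topology

namespace MPc2b80f

/-- The projection of `SL_2(ℂ)` to `SL_2(ℂ)` or `PGL_2(ℂ)`. -/
noncomputable def prj : (F : Form) → SL(2, ℂ) →* F.Pts
  | .sl => MonoidHom.id SL(2, ℂ)
  | .pgl => Matrix.SpecialLinearGroup.toPGL (n := Fin 2) (R := ℂ)

theorem mem_up (F : Form) (Γ : Subgroup F.Pts) (g : SL(2, ℂ)) : g ∈ up F Γ ↔ prj F g ∈ Γ := by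
  cases F <;> rfl

/-- A square root of the determinant. -/
theorem exists_scaled (g : GL (Fin 2) ℂ) : ∃ (u : ℂˣ) (x : SL(2, ℂ)),
    g = Matrix.SpecialLinearGroup.toGL x * Matrix.GeneralLinearGroup.scalar (Fin 2) u := by
  obtain ⟨z, hz⟩ := IsAlgClosed.exists_pow_nat_eq ((Matrix.GeneralLinearGroup.det g : ℂˣ) : ℂ)
    (n := 2) (by norm_num)
  have hz0 : z ≠ 0 := by
    rintro rfl
    exact (Matrix.GeneralLinearGroup.det g).ne_zero (by rw [← hz]; simp)
  have hdet : (g : Matrix (Fin 2) (Fin 2) ℂ).det = z ^ 2 := by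
    rw [hz]; rfl
  refine ⟨Units.mk0 z hz0, ⟨z⁻¹ • (g : Matrix (Fin 2) (Fin 2) ℂ), ?_⟩, ?_⟩
  · rw [Matrix.det_smul, hdet, Fintype.card_fin, ← mul_pow, inv_mul_cancel₀ hz0, one_pow]
  · apply Units.ext
    rw [Units.val_mul, Matrix.GeneralLinearGroup.coe_scalar]
    ext i j
    simp [Matrix.mul_apply, Matrix.scalar_apply, Matrix.diagonal_apply]
    fin_cases i <;> fin_cases j <;> simp <;> field_simp

theorem prj_surjective (F : Form) : Function.Surjective (prj F) := by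
  cases F with
  | sl => exact fun g => ⟨g, rfl⟩
  | pgl =>
    intro g
    obtain ⟨g, rfl⟩ := Matrix.ProjGenLinGroup.mk_surjective g
    obtain ⟨u, x, rfl⟩ := exists_scaled g
    refine ⟨x, ?_⟩
    show Matrix.ProjGenLinGroup.mk (Matrix.SpecialLinearGroup.toGL x) = _
    rw [map_mul, Matrix.ProjGenLinGroup.mk_scalar, mul_one]

/-- Elements of the kernel are `1` and `-1`. -/
theorem sq_of_prj_eq_one (F : Form) (g : SL(2, ℂ)) (hg : prj F g = 1) : g ^ 2 = 1 := by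
  cases F with
  | sl =>
    have : g = 1 := hg
    rw [this, one_pow]
  | pgl =>
    have h1 : Matrix.ProjGenLinGroup.mk (Matrix.SpecialLinearGroup.toGL g) =
        Matrix.ProjGenLinGroup.mk 1 := hg
    obtain ⟨u, hu⟩ := Matrix.ProjGenLinGroup.mk_eq_mk_iff.mp h1.symm
    rw [one_mul] at hu
    have h2 : (g : Matrix (Fin 2) (Fin 2) ℂ) = Matrix.scalar (Fin 2) (u : ℂ) := by
      have := congrArg (fun A : GL (Fin 2) ℂ => (A : Matrix (Fin 2) (Fin 2) ℂ)) hu
      simpa using this.symm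
    have h3 := g.2
    rw [show (g.1 : Matrix (Fin 2) (Fin 2) ℂ) = Matrix.scalar (Fin 2) (u : ℂ) from h2] at h3
    rw [Matrix.det_fin_two] at h3
    simp [Matrix.scalar_apply] at h3
    apply Subtype.ext
    show ((g ^ 2 : SL(2, ℂ)) : Matrix (Fin 2) (Fin 2) ℂ) = 1
    rw [Matrix.SpecialLinearGroup.coe_pow, h2, sq]
    ext i j
    fin_cases i <;> fin_cases j <;> simp [Matrix.mul_apply, Matrix.scalar_apply, h3]

theorem finOrder_of_prj (F : Form) (g : SL(2, ℂ)) (hg : IsOfFinOrder (prj F g)) : IsOfFinOrder g := by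
  rw [isOfFinOrder_iff_pow_eq_one] at hg ⊢
  obtain ⟨n, hn, h⟩ := hg
  refine ⟨n * 2, by omega, ?_⟩
  rw [pow_mul]
  apply sq_of_prj_eq_one F
  rw [map_pow, h]

theorem isSs_of_semisimple (F : Form) (g : SL(2, ℂ)) (hg : Semisimple g) : IsSs F (prj F g) := by
  obtain ⟨p, t, rfl⟩ := hg
  cases F with
  | sl => exact ⟨1, p, t, 0, rfl, by simp⟩
  | pgl =>
    refine ⟨1, Matrix.SpecialLinearGroup.toGL p, t, t⁻¹, 0, ?_, by simp⟩
    show Matrix.ProjGenLinGroup.mk (Matrix.SpecialLinearGroup.toGL (p * dg t * p⁻¹)) = _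
    rw [map_mul Matrix.SpecialLinearGroup.toGL, map_mul Matrix.SpecialLinearGroup.toGL,
      map_inv Matrix.SpecialLinearGroup.toGL]
    have h1 : Matrix.SpecialLinearGroup.toGL (dg t) = dgl t t⁻¹ := by
      apply Units.ext
      rfl
    rw [h1]

/-- Character values lift to `SL_2`. -/
theorem charVal_lift (F : Form) (g : SL(2, ℂ)) (c : ℂˣ) (h : charVal F (prj F g) c) :
    ∃ (p : SL(2, ℂ)) (t : ℂˣ) (k : ℤ), g = p * dg t * p⁻¹ ∧ c = t ^ k := by
  cases F with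
  | sl => exact h
  | pgl =>
    obtain ⟨p, a, b, k, hg, rfl⟩ := h
    obtain ⟨v, q, rfl⟩ := exists_scaled p
    have h0 : Matrix.SpecialLinearGroup.toGL q * Matrix.GeneralLinearGroup.scalar (Fin 2) v *
        dgl a b * (Matrix.SpecialLinearGroup.toGL q * Matrix.GeneralLinearGroup.scalar (Fin 2) v)⁻¹ =
        Matrix.SpecialLinearGroup.toGL q * dgl a b * (Matrix.SpecialLinearGroup.toGL q)⁻¹ := by
      rw [_root_.mul_inv_rev, mul_assoc (Matrix.SpecialLinearGroup.toGL q),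
        Matrix.GeneralLinearGroup.scalar_commute]
      group
    rw [h0] at hg
    have hg' : Matrix.ProjGenLinGroup.mk (Matrix.SpecialLinearGroup.toGL g) =
        Matrix.ProjGenLinGroup.mk (Matrix.SpecialLinearGroup.toGL q * dgl a b *
          (Matrix.SpecialLinearGroup.toGL q)⁻¹) := hg
    obtain ⟨z, hz⟩ := Matrix.ProjGenLinGroup.mk_eq_mk_iff.mp hg'.symm
    have h1 : Matrix.SpecialLinearGroup.toGL (q⁻¹ * g * q) =
        dgl a b * Matrix.GeneralLinearGroup.scalar (Fin 2) z := by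
      rw [map_mul, map_mul, map_inv, ← hz, mul_assoc, mul_assoc, mul_assoc, mul_assoc,
        Matrix.GeneralLinearGroup.scalar_commute z (Matrix.SpecialLinearGroup.toGL q),
        inv_mul_cancel_left, inv_mul_cancel_left]
    have h2 : ((q⁻¹ * g * q : SL(2, ℂ)) : Matrix (Fin 2) (Fin 2) ℂ) =
        !![(a : ℂ) * z, 0; 0, (b : ℂ) * z] := by
      have := congrArg (fun A : GL (Fin 2) ℂ => (A : Matrix (Fin 2) (Fin 2) ℂ)) h1
      simp only [Units.val_mul, Matrix.GeneralLinearGroup.coe_scalar] at this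
      rw [show ((Matrix.SpecialLinearGroup.toGL (q⁻¹ * g * q) : GL (Fin 2) ℂ) :
        Matrix (Fin 2) (Fin 2) ℂ) = ((q⁻¹ * g * q : SL(2, ℂ)) : Matrix (Fin 2) (Fin 2) ℂ) from rfl,
        show ((dgl a b : GL (Fin 2) ℂ) : Matrix (Fin 2) (Fin 2) ℂ) =
          !![(a : ℂ), 0; 0, (b : ℂ)] from rfl] at this
      rw [this]
      ext i j
      fin_cases i <;> fin_cases j <;> simp [Matrix.mul_apply, Matrix.scalar_apply]
    have hdet : (a : ℂ) * z * ((b : ℂ) * z) = 1 := by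
      have h3 := (q⁻¹ * g * q : SL(2, ℂ)).2
      rw [show ((q⁻¹ * g * q : SL(2, ℂ)).1 : Matrix (Fin 2) (Fin 2) ℂ) =
        !![(a : ℂ) * z, 0; 0, (b : ℂ) * z] from h2, Matrix.det_fin_two_of] at h3
      simpa using h3
    have hdet' : a * z * (b * z) = 1 := Units.ext (by simpa using hdet)
    have hbz : (a * z)⁻¹ = b * z := inv_eq_of_mul_eq_one_right hdet'
    have h4 : q⁻¹ * g * q = dg (a * z) := by
      apply Subtype.ext
      show ((q⁻¹ * g * q : SL(2, ℂ)) : Matrix (Fin 2) (Fin 2) ℂ) = _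
      rw [h2]
      show _ = !![((a * z : ℂˣ) : ℂ), 0; 0, (((a * z)⁻¹ : ℂˣ) : ℂ)]
      rw [hbz]
      simp
    refine ⟨q, a * z, 2 * k, ?_, ?_⟩
    · rw [← h4]; group
    · have h5 : a / b = (a * z) ^ 2 := by
        rw [div_eq_iff_eq_mul]
        apply Units.ext
        have h6 : (a : ℂ) * z * ((b : ℂ) * z) = 1 := hdet
        push_cast
        linear_combination (-(a : ℂ)) * h6
      rw [h5, _root_.zpow_mul]
      norm_cast

theorem up_wc (F₁ F₂ : Form) (Γ₁ : Subgroup F₁.Pts) (Γ₂ : Subgroup F₂.Pts)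
    (hwc : ∀ g ∈ Γ₂, IsSs F₂ g → ¬ IsOfFinOrder g →
      ∃ h ∈ Γ₁, IsSs F₁ h ∧ ¬ IsOfFinOrder h ∧ WeakComm F₂ F₁ g h) :
    ∀ g ∈ up F₂ Γ₂, Semisimple g → ¬ IsOfFinOrder g → ∃ h ∈ up F₁ Γ₁, WComm g h := by
  intro g hg hs ho
  obtain ⟨h', hh', -, -, c, hc1, hc2, hc3⟩ := hwc (prj F₂ g) ((mem_up _ _ _).mp hg)
    (isSs_of_semisimple _ _ hs) (fun h => ho (finOrder_of_prj _ _ h))
  obtain ⟨h, rfl⟩ := prj_surjective F₁ h'
  obtain ⟨p, t, k, e1, e2⟩ := charVal_lift _ _ _ hc2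
  obtain ⟨q, s, l, e3, e4⟩ := charVal_lift _ _ _ hc3
  exact ⟨h, (mem_up _ _ _).mpr hh', p, q, t, s, k, l, e1, e3, by rw [← e2, ← e4], by rw [← e2]; exact hc1⟩

theorem up_fg (F : Form) (Γ : Subgroup F.Pts) (h : Γ.FG) : (up F Γ).FG := by
  classical
  cases F with
  | sl => exact h
  | pgl =>
    obtain ⟨S, hS⟩ := h
    choose lf hlf using prj_surjective Form.pgl
    -- the element -1
    let e : SL(2, ℂ) := -1
    refine ⟨insert e (S.image lf), ?_⟩
    apply le_antisymm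
    · rw [Subgroup.closure_le]
      intro x hx
      rw [Finset.coe_insert, Set.mem_insert_iff] at hx
      show x ∈ up Form.pgl Γ
      rw [mem_up]
      rcases hx with rfl | hx
      · have : prj Form.pgl e = 1 := by
          show Matrix.ProjGenLinGroup.mk (Matrix.SpecialLinearGroup.toGL e) = 1
          have h1 : Matrix.SpecialLinearGroup.toGL e =
              Matrix.GeneralLinearGroup.scalar (Fin 2) (-1 : ℂˣ) := by
            apply Units.ext
            ext i j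
            fin_cases i <;> fin_cases j <;> simp [e, Matrix.scalar_apply]
          rw [h1, Matrix.ProjGenLinGroup.mk_scalar]
        rw [this]
        exact one_mem _
      · rw [Finset.coe_image] at hx
        obtain ⟨y, hy, rfl⟩ := hx
        rw [hlf, ← hS]
        exact Subgroup.subset_closure hy
    · intro x hx
      rw [mem_up] at hx
      -- every element of Γ is the image of an element of the closure
      have key : ∀ y ∈ Γ, ∃ x' ∈ Subgroup.closure ((insert e (S.image lf) : Finset SL(2, ℂ)) :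
          Set SL(2, ℂ)), prj Form.pgl x' = y := by
        intro y hy
        rw [← hS] at hy
        refine Subgroup.closure_induction (p := fun y _ => ∃ x' ∈ Subgroup.closure
          ((insert e (S.image lf) : Finset SL(2, ℂ)) : Set SL(2, ℂ)), prj Form.pgl x' = y) ?_ ?_ ?_ ?_ hy
        · intro y hy
          refine ⟨lf y, Subgroup.subset_closure ?_, hlf y⟩
          rw [Finset.coe_insert, Finset.coe_image]
          exact Set.mem_insert_of_mem _ ⟨y, hy, rfl⟩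
        · exact ⟨1, one_mem _, map_one _⟩
        · rintro y z _ _ ⟨y', hy', rfl⟩ ⟨z', hz', rfl⟩
          exact ⟨y' * z', mul_mem hy' hz', map_mul _ _ _⟩
        · rintro y _ ⟨y', hy', rfl⟩
          exact ⟨y'⁻¹, inv_mem hy', map_inv _ _⟩
      obtain ⟨x', hx', hxx⟩ := key _ hx
      have h1 : prj Form.pgl (x'⁻¹ * x) = 1 := by
        rw [map_mul, map_inv, hxx, inv_mul_cancel]
      have h2 : x'⁻¹ * x = 1 ∨ x'⁻¹ * x = e := by
        have h3 : Matrix.ProjGenLinGroup.mk (Matrix.SpecialLinearGroup.toGL (x'⁻¹ * x)) =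
            Matrix.ProjGenLinGroup.mk 1 := h1
        obtain ⟨u, hu⟩ := Matrix.ProjGenLinGroup.mk_eq_mk_iff.mp h3.symm
        rw [one_mul] at hu
        have h2 : ((x'⁻¹ * x : SL(2, ℂ)) : Matrix (Fin 2) (Fin 2) ℂ) = Matrix.scalar (Fin 2) (u : ℂ) := by
          have := congrArg (fun A : GL (Fin 2) ℂ => (A : Matrix (Fin 2) (Fin 2) ℂ)) hu
          exact this.symm
        have h3 := (x'⁻¹ * x : SL(2, ℂ)).2
        rw [show ((x'⁻¹ * x : SL(2, ℂ)).1 : Matrix (Fin 2) (Fin 2) ℂ) =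
          Matrix.scalar (Fin 2) (u : ℂ) from h2, Matrix.det_fin_two] at h3
        simp only [Matrix.scalar_apply, Matrix.diagonal_apply_eq] at h3
        have h4 : (u : ℂ) * u = 1 := by
          rw [Matrix.diagonal_apply_ne _ (by decide : (0 : Fin 2) ≠ 1)] at h3
          simpa using h3
        rcases mul_self_eq_one_iff.mp h4 with h5 | h5
        · left
          apply Subtype.ext
          show ((x'⁻¹ * x : SL(2, ℂ)) : Matrix (Fin 2) (Fin 2) ℂ) = 1
          rw [h2, h5]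
          simp
        · right
          apply Subtype.ext
          show ((x'⁻¹ * x : SL(2, ℂ)) : Matrix (Fin 2) (Fin 2) ℂ) = _
          rw [h2, h5]
          ext i j
          fin_cases i <;> fin_cases j <;> simp [e, Matrix.scalar_apply]
      have h3 : x = x' * (x'⁻¹ * x) := by group
      rw [h3]
      refine mul_mem hx' ?_
      rcases h2 with h2 | h2
      · rw [h2]; exact one_mem _
      · rw [h2]
        refine Subgroup.subset_closure ?_
        rw [Finset.coe_insert]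
        exact Set.mem_insert _ _

/-- Normalisation of the determinant, as a map. -/
noncomputable def nz (g : GL (Fin 2) ℂ) : SL(2, ℂ) :=
  ⟨(((g : Matrix (Fin 2) (Fin 2) ℂ).det) ^ (1 / 2 : ℂ))⁻¹ • (g : Matrix (Fin 2) (Fin 2) ℂ), by
    have h0 : (g : Matrix (Fin 2) (Fin 2) ℂ).det ≠ 0 := (Matrix.GeneralLinearGroup.det g).ne_zero
    rw [Matrix.det_smul, Fintype.card_fin, inv_pow, ← Complex.cpow_nat_mul]
    norm_num
    exact inv_mul_cancel₀ h0⟩

theorem mk_nz (g : GL (Fin 2) ℂ) :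
    Matrix.ProjGenLinGroup.mk (Matrix.SpecialLinearGroup.toGL (nz g)) = Matrix.ProjGenLinGroup.mk g := by
  have h0 : (g : Matrix (Fin 2) (Fin 2) ℂ).det ≠ 0 := (Matrix.GeneralLinearGroup.det g).ne_zero
  rw [Matrix.ProjGenLinGroup.mk_eq_mk_iff]
  have h1 : ((g : Matrix (Fin 2) (Fin 2) ℂ).det) ^ (1 / 2 : ℂ) ≠ 0 := by
    rw [Ne, Complex.cpow_eq_zero_iff]
    exact fun h => h0 h.1
  refine ⟨Units.mk0 _ h1, ?_⟩
  apply Units.ext
  rw [Units.val_mul, Matrix.GeneralLinearGroup.coe_scalar]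
  ext i j
  fin_cases i <;> fin_cases j <;>
    simp [nz, Matrix.mul_apply, Matrix.scalar_apply] <;> field_simp

theorem nz_one : nz 1 = 1 := by
  apply Subtype.ext
  show (((1 : GL (Fin 2) ℂ) : Matrix (Fin 2) (Fin 2) ℂ).det ^ (1 / 2 : ℂ))⁻¹ •
    ((1 : GL (Fin 2) ℂ) : Matrix (Fin 2) (Fin 2) ℂ) = 1
  simp

theorem continuousAt_nz : ContinuousAt nz 1 := by
  have hind : Topology.IsInducing (fun g : SL(2, ℂ) => (g : Matrix (Fin 2) (Fin 2) ℂ)) :=
    Topology.IsInducing.subtypeVal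
  refine hind.continuousAt_iff.mpr ?_
  have h1 : Continuous fun g : GL (Fin 2) ℂ => (g : Matrix (Fin 2) (Fin 2) ℂ) := Units.continuous_val
  have h2 : Continuous fun g : GL (Fin 2) ℂ => (g : Matrix (Fin 2) (Fin 2) ℂ).det := h1.matrix_det
  have h3 : ContinuousAt (fun g : GL (Fin 2) ℂ =>
      (((g : Matrix (Fin 2) (Fin 2) ℂ).det) ^ (1 / 2 : ℂ))⁻¹) 1 := by
    refine ContinuousAt.inv₀ ?_ (by simp)
    refine ContinuousAt.cpow h2.continuousAt continuousAt_const ?_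
    simp
  exact ContinuousAt.smul (M := ℂ) (X := Matrix (Fin 2) (Fin 2) ℂ) h3 h1.continuousAt

theorem isDiscr_of_up (F : Form) (Γ : Subgroup F.Pts) (h : DiscreteTopology (up F Γ)) : IsDiscr F Γ := by
  have h1 : ∃ V : Set SL(2, ℂ), IsOpen V ∧ 1 ∈ V ∧ ∀ g ∈ V, g ∈ up F Γ → g = 1 := by
    have h2 : IsOpen ({1} : Set (up F Γ)) := isOpen_discrete _
    obtain ⟨V, hV, hV1⟩ := isOpen_induced_iff.mp h2
    refine ⟨V, hV, ?_, ?_⟩
    · have : (1 : up F Γ) ∈ (Subtype.val ⁻¹' V : Set (up F Γ)) := by rw [hV1]; rfl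
      exact this
    · intro g hg hgΓ
      have : (⟨g, hgΓ⟩ : up F Γ) ∈ (Subtype.val ⁻¹' V : Set (up F Γ)) := hg
      rw [hV1] at this
      exact congrArg Subtype.val this
  obtain ⟨V, hV, h1V, hVΓ⟩ := h1
  cases F with
  | sl => exact ⟨V, hV, h1V, hVΓ⟩
  | pgl =>
    have h3 : nz ⁻¹' V ∈ 𝓝 (1 : GL (Fin 2) ℂ) := by
      apply continuousAt_nz
      rw [nz_one]
      exact hV.mem_nhds h1V
    obtain ⟨U, hU, hUo, h1U⟩ := mem_nhds_iff.mp h3
    refine ⟨U, hUo, h1U, ?_⟩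
    intro g hg hgΓ
    have h4 : nz g ∈ up Form.pgl Γ := by
      rw [mem_up]
      show Matrix.ProjGenLinGroup.mk (Matrix.SpecialLinearGroup.toGL (nz g)) ∈ Γ
      rw [mk_nz]
      exact hgΓ
    have h5 := hVΓ _ (hU hg) h4
    rw [← mk_nz, h5]
    simp

/-- The theorem. -/
theorem final_A1 (F₁ F₂ : Form) (Γ₁ : Subgroup F₁.Pts) (Γ₂ : Subgroup F₂.Pts)
    (h₁ : LogGen (up F₁ Γ₁)) (h₂ : Γ₂.FG) (hz : NoLine (up F₂ Γ₂))
    (hwc : ∀ g ∈ Γ₂, IsSs F₂ g → ¬ IsOfFinOrder g →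
      ∃ h ∈ Γ₁, IsSs F₁ h ∧ ¬ IsOfFinOrder h ∧ WeakComm F₂ F₁ g h) :
    IsDiscr F₂ Γ₂ :=
  isDiscr_of_up F₂ Γ₂ (final_SL (up F₁ Γ₁) (up F₂ Γ₂) h₁ (up_fg F₂ Γ₂ h₂) hz (up_wc F₁ F₂ Γ₁ Γ₂ hwc))

end MPc2b80f
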