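import Pool.Agent.Lib.MP_c2b80f_alB.Defs

/-!
# The two forms `SL_2` and `PGL_2` over the complex numbers
-/

open Matrix MatrixGroups

namespace MPc2b80f

/-- The connected absolutely almost simple algebraic groups of type `A_1` over the complex numbers are `SL_2` and
`PGL_2`. -/
inductive Form
  | sl
  | pgl

/-- The group of complex points: `SL_2(ℂ)` or `PGL_2(ℂ)` (`GL_2(ℂ)` modulo its centre). -/
def Form.Pts : Form → Type
  | .sl => SL(2, ℂ)
  | .pgl => PGL(2, ℂ)

noncomputable instance (F : Form) : Group F.Pts :=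
  match F with
  | .sl => inferInstanceAs (Group SL(2, ℂ))
  | .pgl => inferInstanceAs (Group PGL(2, ℂ))

/-- The diagonal matrix with diagonal entries `a` and `b`. -/
noncomputable def dgl (a b : ℂˣ) : GL (Fin 2) ℂ :=
  Matrix.GeneralLinearGroup.mkOfDetNeZero !![(a : ℂ), 0; 0, (b : ℂ)] (by
    rw [Matrix.det_fin_two_of]; simp)

/-- `charVal F g c`: the number `c` is the value at `g` of a character of a maximal torus containing `g`.
In `SL_2` the maximal tori are the conjugates of the group of all `diag (t, 1 / t)` and the characters are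
`t ↦ t ^ k`; in `PGL_2` they are the conjugates of the group of the classes of `diag (a, b)` and the characters are
`(a / b) ^ k`. -/
def charVal : (F : Form) → F.Pts → ℂˣ → Prop
  | .sl, g, c => ∃ (p : SL(2, ℂ)) (t : ℂˣ) (k : ℤ), g = p * dg t * p⁻¹ ∧ c = t ^ k
  | .pgl, g, c => ∃ (p : GL (Fin 2) ℂ) (a b : ℂˣ) (k : ℤ),
      g = Matrix.ProjGenLinGroup.mk (p * dgl a b * p⁻¹) ∧ c = (a / b) ^ k

/-- Semisimple elements: elements of maximal tori. -/
def IsSs (F : Form) (g : F.Pts) : Prop := ∃ c, charVal F g c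

/-- Weak commensurability of elements. -/
def WeakComm (F₁ F₂ : Form) (g₁ : F₁.Pts) (g₂ : F₂.Pts) : Prop :=
  ∃ c : ℂˣ, c ≠ 1 ∧ charVal F₁ g₁ c ∧ charVal F₂ g₂ c

/-- The preimage in `SL_2(ℂ)` of a subgroup of `SL_2(ℂ)` or `PGL_2(ℂ)`. -/
noncomputable def up : (F : Form) → Subgroup F.Pts → Subgroup SL(2, ℂ)
  | .sl, Γ => Γ
  | .pgl, Γ => Subgroup.comap (Matrix.SpecialLinearGroup.toPGL (n := Fin 2) (R := ℂ)) Γ

/-- Discreteness: some neighbourhood of the identity meets `Γ` only in the identity (the topology of `PGL_2(ℂ)` is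
the quotient topology of `GL_2(ℂ)`). -/
def IsDiscr : (F : Form) → Subgroup F.Pts → Prop
  | .sl, Γ => ∃ U : Set SL(2, ℂ), IsOpen U ∧ 1 ∈ U ∧ ∀ g ∈ U, g ∈ Γ → g = 1
  | .pgl, Γ => ∃ U : Set (GL (Fin 2) ℂ), IsOpen U ∧ 1 ∈ U ∧
      ∀ g ∈ U, Matrix.ProjGenLinGroup.mk g ∈ Γ → Matrix.ProjGenLinGroup.mk g = 1

end MPc2b80f
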