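import Pool.Agent.Lib.MP_c2b80f_alB.GFDefs

/-!
# Horoballs and vectors
-/

open Matrix MatrixGroups

namespace MPc2b80f

/-- The determinant of two row vectors. -/
def dv (v w : Fin 2 → ℂ) : ℂ := v 0 * w 1 - v 1 * w 0

private theorem horo_vecMul_zero (v : Fin 2 → ℂ) (A : Matrix (Fin 2) (Fin 2) ℂ) :
    (v ᵥ* A) 0 = v 0 * A 0 0 + v 1 * A 1 0 := by
  simp [Matrix.vecMul, dotProduct, Fin.sum_univ_two]

private theorem horo_vecMul_one (v : Fin 2 → ℂ) (A : Matrix (Fin 2) (Fin 2) ℂ) :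
    (v ᵥ* A) 1 = v 0 * A 0 1 + v 1 * A 1 1 := by
  simp [Matrix.vecMul, dotProduct, Fin.sum_univ_two]

private theorem horo_det (x : SL(2, ℂ)) :
    (x : Matrix (Fin 2) (Fin 2) ℂ) 0 0 * (x : Matrix (Fin 2) (Fin 2) ℂ) 1 1 -
      (x : Matrix (Fin 2) (Fin 2) ℂ) 0 1 * (x : Matrix (Fin 2) (Fin 2) ℂ) 1 0 = 1 := by
  have := x.2
  rwa [Matrix.det_fin_two] at this

theorem dv_vecMul (v w : Fin 2 → ℂ) (x : SL(2, ℂ)) :
    dv (v ᵥ* (x : Matrix (Fin 2) (Fin 2) ℂ)) (w ᵥ* (x : Matrix (Fin 2) (Fin 2) ℂ)) = dv v w := by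
  have h := horo_det x
  simp only [dv, horo_vecMul_zero, horo_vecMul_one]
  linear_combination (v 0 * w 1 - v 1 * w 0) * h

theorem transl_horo (γ : SL(2, ℂ)) (v : Fin 2 → ℂ) :
    transl γ (horo v) = horo (v ᵥ* ((γ⁻¹ : SL(2, ℂ)) : Matrix (Fin 2) (Fin 2) ℂ)) := by
  ext x
  simp only [transl, horo, Set.mem_ofPred_eq, Matrix.SpecialLinearGroup.coe_mul, Matrix.vecMul_vecMul]

theorem transl_transl (γ δ : SL(2, ℂ)) (B : Set SL(2, ℂ)) : transl γ (transl δ B) = transl (γ * δ) B := by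
  ext x
  simp only [transl, Set.mem_ofPred_eq, _root_.mul_inv_rev, _root_.mul_assoc]

private theorem horo_cs (a b x y : ℂ) :
    ‖a * x + b * y‖ ^ 2 ≤ (‖a‖ ^ 2 + ‖b‖ ^ 2) * (‖x‖ ^ 2 + ‖y‖ ^ 2) := by
  have h1 : ‖a * x + b * y‖ ≤ ‖a‖ * ‖x‖ + ‖b‖ * ‖y‖ := by
    refine (norm_add_le _ _).trans ?_
    rw [norm_mul, norm_mul]
  have h2 : ‖a * x + b * y‖ ^ 2 ≤ (‖a‖ * ‖x‖ + ‖b‖ * ‖y‖) ^ 2 := by
    gcongr
  nlinarith [sq_nonneg (‖a‖ * ‖y‖ - ‖b‖ * ‖x‖)]

/-- Norm bound: `vsq (v x) ≤ vsq v * (nrm x) ^ 2`. -/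
theorem vsq_vecMul_le (v : Fin 2 → ℂ) (x : SL(2, ℂ)) :
    vsq (v ᵥ* (x : Matrix (Fin 2) (Fin 2) ℂ)) ≤ vsq v * (nrm x) ^ 2 := by
  simp only [vsq, horo_vecMul_zero, horo_vecMul_one, nrm, nr]
  have h1 := horo_cs (v 0) (v 1) ((x : Matrix (Fin 2) (Fin 2) ℂ) 0 0) ((x : Matrix (Fin 2) (Fin 2) ℂ) 1 0)
  have h2 := horo_cs (v 0) (v 1) ((x : Matrix (Fin 2) (Fin 2) ℂ) 0 1) ((x : Matrix (Fin 2) (Fin 2) ℂ) 1 1)
  set a := ‖(x : Matrix (Fin 2) (Fin 2) ℂ) 0 0‖ with ha
  set b := ‖(x : Matrix (Fin 2) (Fin 2) ℂ) 0 1‖ with hb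
  set c := ‖(x : Matrix (Fin 2) (Fin 2) ℂ) 1 0‖ with hc
  set d := ‖(x : Matrix (Fin 2) (Fin 2) ℂ) 1 1‖ with hd
  have ha0 : 0 ≤ a := norm_nonneg _
  have hb0 : 0 ≤ b := norm_nonneg _
  have hc0 : 0 ≤ c := norm_nonneg _
  have hd0 : 0 ≤ d := norm_nonneg _
  have h3 : a ^ 2 + b ^ 2 + c ^ 2 + d ^ 2 ≤ (a + b + c + d) ^ 2 := by
    have := mul_nonneg ha0 hb0
    have := mul_nonneg ha0 hc0
    have := mul_nonneg ha0 hd0
    have := mul_nonneg hb0 hc0
    have := mul_nonneg hb0 hd0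
    have := mul_nonneg hc0 hd0
    nlinarith
  have h4 : 0 ≤ ‖v 0‖ ^ 2 + ‖v 1‖ ^ 2 := by positivity
  nlinarith [mul_le_mul_of_nonneg_left h3 h4]

/-- Every nonzero vector is the first row of a matrix of determinant `1`; so it can be mapped to
any `(ε, 0)`. -/
private theorem horo_exists_map (v : Fin 2 → ℂ) (hv : v ≠ 0) (ε : ℝ) (hε : 0 < ε) :
    ∃ x : SL(2, ℂ), v ᵥ* (x : Matrix (Fin 2) (Fin 2) ℂ) = ![(ε : ℂ), 0] := by
  set N : ℝ := Complex.normSq (v 0) + Complex.normSq (v 1) with hN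
  have hN0 : N ≠ 0 := by
    intro h
    have h1 := Complex.normSq_nonneg (v 0)
    have h2 := Complex.normSq_nonneg (v 1)
    have h3 : Complex.normSq (v 0) = 0 := by linarith
    have h4 : Complex.normSq (v 1) = 0 := by linarith
    apply hv
    ext i
    fin_cases i
    · simpa using h3
    · simpa using h4
  have hNc : (N : ℂ) ≠ 0 := by exact_mod_cast hN0
  have hεc : (ε : ℂ) ≠ 0 := by exact_mod_cast hε.ne'
  have hNe : (v 0) * (starRingEnd ℂ) (v 0) + (v 1) * (starRingEnd ℂ) (v 1) = (N : ℂ) := by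
    rw [Complex.mul_conj, Complex.mul_conj, hN]
    push_cast
    ring
  refine ⟨⟨!![(ε : ℂ) * (starRingEnd ℂ) (v 0) / N, - v 1 / ε; (ε : ℂ) * (starRingEnd ℂ) (v 1) / N, v 0 / ε], ?_⟩, ?_⟩
  · rw [Matrix.det_fin_two_of]
    field_simp
    linear_combination hNe
  · ext i
    fin_cases i
    · simp only [Fin.zero_eta, horo_vecMul_zero]
      simp only [Matrix.of_apply, Matrix.cons_val', Matrix.cons_val_zero, Matrix.cons_val_fin_one, Matrix.cons_val_one]
      field_simp
      linear_combination hNe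
    · simp only [Fin.mk_one, horo_vecMul_one]
      simp only [Matrix.of_apply, Matrix.cons_val', Matrix.cons_val_zero, Matrix.cons_val_fin_one, Matrix.cons_val_one]
      field_simp
      ring

private theorem horo_exists_map2 (v w : Fin 2 → ℂ) (h : dv v w ≠ 0) (a b : ℂ) (hab : a * b = dv v w) :
    ∃ x : SL(2, ℂ), v ᵥ* (x : Matrix (Fin 2) (Fin 2) ℂ) = ![a, 0] ∧
      w ᵥ* (x : Matrix (Fin 2) (Fin 2) ℂ) = ![0, b] := by
  set d := dv v w with hd
  have hd' : v 0 * w 1 - v 1 * w 0 = d := by rw [hd, dv]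
  refine ⟨⟨!![w 1 * a / d, - v 1 * b / d; - w 0 * a / d, v 0 * b / d], ?_⟩, ?_, ?_⟩
  · rw [Matrix.det_fin_two_of]
    field_simp
    linear_combination (v 0 * w 1 - v 1 * w 0) * hab + d * hd'
  · ext i
    fin_cases i
    · simp only [Fin.zero_eta, horo_vecMul_zero]
      simp only [Matrix.of_apply, Matrix.cons_val', Matrix.cons_val_zero, Matrix.cons_val_fin_one, Matrix.cons_val_one]
      field_simp
      linear_combination a * hd'
    · simp only [Fin.mk_one, horo_vecMul_one]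
      simp only [Matrix.of_apply, Matrix.cons_val', Matrix.cons_val_zero, Matrix.cons_val_fin_one, Matrix.cons_val_one]
      field_simp
      ring
  · ext i
    fin_cases i
    · simp only [Fin.zero_eta, horo_vecMul_zero]
      simp only [Matrix.of_apply, Matrix.cons_val', Matrix.cons_val_zero, Matrix.cons_val_fin_one, Matrix.cons_val_one]
      field_simp
      ring
    · simp only [Fin.mk_one, horo_vecMul_one]
      simp only [Matrix.of_apply, Matrix.cons_val', Matrix.cons_val_zero, Matrix.cons_val_fin_one, Matrix.cons_val_one]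
      field_simp
      linear_combination b * hd'

/-- Disjoint or equal horoballs. Proof. If `v` and `w` are linearly independent (`dv v w ≠ 0`) let `M` be the matrix with rows
`v` and `w`. For every `D` with `det D = det M = dv v w` the matrix `x = M⁻¹ D` is in `SL_2(ℂ)` and `v x`, `w x` are the rows
of `D`. If `|dv v w| < 1` take `D = diag (z, z)` with `z ^ 2 = dv v w`: then `x` is in both horoballs, so they are not
disjoint; and `D = diag (1 / 2, 2 dv v w / 1 ...)` with a very small first entry `ε` and second entry `dv v w / ε`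
shows that they are not equal. If `w = c v` (`c ≠ 0`), there is `x` with `v x = (ε, 0)` for any `ε > 0`, so the horoballs
are not disjoint, and `ε = 1`, or `ε = 1 / |c|` (whichever shows it) gives `|c| = 1` if they are equal. -/
theorem horo_dichotomy (v w : Fin 2 → ℂ) (hv : v ≠ 0) (hw : w ≠ 0)
    (h : Disjoint (horo v) (horo w) ∨ horo v = horo w) :
    1 ≤ ‖dv v w‖ ∨ ∃ ζ : ℂ, ‖ζ‖ = 1 ∧ w = ζ • v := by
  by_cases hlt : 1 ≤ ‖dv v w‖
  · exact Or.inl hlt
  push Not at hlt
  right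
  by_cases hd : dv v w = 0
  · -- proportional
    obtain ⟨c, hc⟩ : ∃ c : ℂ, w = c • v := by
      have h0 : v 0 * w 1 - v 1 * w 0 = 0 := by rw [← hd, dv]
      by_cases hv0 : v 0 = 0
      · have hv1 : v 1 ≠ 0 := by
          intro hv1
          apply hv
          ext i
          fin_cases i
          · simpa using hv0
          · simpa using hv1
        refine ⟨w 1 / v 1, ?_⟩
        ext i
        fin_cases i
        · simp only [Fin.zero_eta, Pi.smul_apply, smul_eq_mul]
          field_simp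
          linear_combination (-1 : ℂ) * h0
        · simp only [Fin.mk_one, Pi.smul_apply, smul_eq_mul]
          field_simp
      · refine ⟨w 0 / v 0, ?_⟩
        ext i
        fin_cases i
        · simp only [Fin.zero_eta, Pi.smul_apply, smul_eq_mul]
          field_simp
        · simp only [Fin.mk_one, Pi.smul_apply, smul_eq_mul]
          field_simp
          linear_combination h0
    have hc0 : c ≠ 0 := by
      rintro rfl
      exact hw (by rw [hc, zero_smul])
    refine ⟨c, ?_, hc⟩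
    have hcn : 0 < ‖c‖ := norm_pos_iff.2 hc0
    -- membership of the test elements
    have key : ∀ ε : ℝ, 0 < ε → ∃ x : SL(2, ℂ), (x ∈ horo v ↔ ε < 1) ∧ (x ∈ horo w ↔ ‖c‖ * ε < 1) := by
      intro ε hε
      obtain ⟨x, hx⟩ := horo_exists_map v hv ε hε
      refine ⟨x, ?_, ?_⟩
      · simp only [horo, Set.mem_ofPred_eq, hx, vsq, Matrix.cons_val_zero, Matrix.cons_val_one, norm_zero,
          Complex.norm_real, Real.norm_eq_abs, sq_abs]
        constructor
        · intro h1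
          nlinarith
        · intro h1
          nlinarith
      · have hwx : w ᵥ* (x : Matrix (Fin 2) (Fin 2) ℂ) = c • ![(ε : ℂ), 0] := by
          rw [hc, Matrix.smul_vecMul, hx]
        simp only [horo, Set.mem_ofPred_eq, hwx, vsq, Pi.smul_apply, smul_eq_mul, Matrix.cons_val_zero,
          Matrix.cons_val_one, mul_zero, norm_zero, norm_mul, Complex.norm_real, Real.norm_eq_abs, abs_of_pos hε]
        have hpos : 0 < ‖c‖ * ε := mul_pos hcn hε
        constructor
        · intro h1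
          nlinarith
        · intro h1
          nlinarith
    have hnd : horo v = horo w := by
      rcases h with h | h
      · exfalso
        obtain ⟨x, hx1, hx2⟩ := key (min (1 / 2) (1 / (2 * ‖c‖))) (by positivity)
        have m1 : x ∈ horo v := hx1.2 (lt_of_le_of_lt (min_le_left _ _) (by norm_num))
        have m2 : x ∈ horo w := by
          apply hx2.2
          calc ‖c‖ * min (1 / 2) (1 / (2 * ‖c‖)) ≤ ‖c‖ * (1 / (2 * ‖c‖)) := by
                gcongr
                exact min_le_right _ _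
            _ = 1 / 2 := by field_simp
            _ < 1 := by norm_num
        exact Set.disjoint_left.1 h m1 m2
      · exact h
    rcases lt_trichotomy ‖c‖ 1 with hc1 | hc1 | hc1
    · exfalso
      obtain ⟨x, hx1, hx2⟩ := key 1 one_pos
      have m2 : x ∈ horo w := hx2.2 (by linarith)
      rw [← hnd] at m2
      exact lt_irrefl _ (hx1.1 m2)
    · exact hc1
    · exfalso
      obtain ⟨x, hx1, hx2⟩ := key (1 / ‖c‖) (by positivity)
      have m1 : x ∈ horo v := hx1.2 (by rw [div_lt_one hcn]; exact hc1)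
      rw [hnd] at m1
      have := hx2.1 m1
      rw [mul_one_div_cancel hcn.ne'] at this
      exact lt_irrefl _ this
  · exfalso
    have hdn : 0 < ‖dv v w‖ := norm_pos_iff.2 hd
    rcases h with h | h
    · obtain ⟨z, hz⟩ := IsAlgClosed.exists_pow_nat_eq (dv v w) (n := 2) (by norm_num)
      obtain ⟨x, hx1, hx2⟩ := horo_exists_map2 v w hd z z (by rw [← hz]; ring)
      have hz2 : ‖z‖ ^ 2 < 1 := by
        rw [← norm_pow, hz]
        exact hlt
      have m1 : x ∈ horo v := by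
        simp only [horo, Set.mem_ofPred_eq, hx1, vsq, Matrix.cons_val_zero, Matrix.cons_val_one, norm_zero]
        linarith
      have m2 : x ∈ horo w := by
        simp only [horo, Set.mem_ofPred_eq, hx2, vsq, Matrix.cons_val_zero, Matrix.cons_val_one, norm_zero]
        linarith
      exact Set.disjoint_left.1 h m1 m2
    · obtain ⟨x, hx1, hx2⟩ := horo_exists_map2 v w hd ((‖dv v w‖ : ℝ) : ℂ) (dv v w / ((‖dv v w‖ : ℝ) : ℂ)) (by
        have : ((‖dv v w‖ : ℝ) : ℂ) ≠ 0 := by exact_mod_cast hdn.ne'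
        field_simp)
      have m1 : x ∈ horo v := by
        simp only [horo, Set.mem_ofPred_eq, hx1, vsq, Matrix.cons_val_zero, Matrix.cons_val_one, norm_zero,
          Complex.norm_real, norm_norm]
        nlinarith
      have m2 : x ∉ horo w := by
        simp only [horo, Set.mem_ofPred_eq, hx2, vsq, Matrix.cons_val_zero, Matrix.cons_val_one, norm_zero,
          norm_div, Complex.norm_real, norm_norm, div_self hdn.ne']
        norm_num
      exact m2 (h ▸ m1)

private theorem horo_norm_le (v : Fin 2 → ℂ) (R : ℝ) (hR : 0 ≤ R) (h : vsq v ≤ R) (i : Fin 2) : ‖v i‖ ≤ R + 1 := by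
  have h0 : 0 ≤ ‖v 0‖ ^ 2 := by positivity
  have h1 : 0 ≤ ‖v 1‖ ^ 2 := by positivity
  have h2 : ‖v i‖ ^ 2 ≤ R := by
    fin_cases i
    · simp only [vsq] at h
      simp only [Fin.zero_eta]
      linarith
    · simp only [vsq] at h
      simp only [Fin.mk_one]
      linarith
  nlinarith [norm_nonneg (v i)]

/-- Finiteness. Let `𝒱` be a set of vectors such that any two of them satisfy the dichotomy above. For every `R` there is a
finite subset `W ⊆ 𝒱` such that every `v ∈ 𝒱` with `vsq v ≤ R` is `ζ • w` with `w ∈ W`, `|ζ| = 1`.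
Proof: cover the compact set `{v | vsq v ≤ R}` by finitely many small balls; for `v, w` in one ball
`|dv v w| = |dv v (w - v)| < 1`; choose a representative in every ball which meets `𝒱`. -/
theorem exists_finite_reps (𝒱 : Set (Fin 2 → ℂ))
    (h : ∀ v ∈ 𝒱, ∀ w ∈ 𝒱, 1 ≤ ‖dv v w‖ ∨ ∃ ζ : ℂ, ‖ζ‖ = 1 ∧ w = ζ • v) (R : ℝ) :
    ∃ W : Finset (Fin 2 → ℂ), (∀ w ∈ W, w ∈ 𝒱) ∧
      ∀ v ∈ 𝒱, vsq v ≤ R → ∃ w ∈ W, ∃ ζ : ℂ, ‖ζ‖ = 1 ∧ v = ζ • w := by
  set R' := max R 0 with hR'
  have hR0 : 0 ≤ R' := le_max_right _ _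
  set S : Set (Fin 2 → ℂ) := {v | v ∈ 𝒱 ∧ vsq v ≤ R'} with hS
  have hb : S ⊆ Metric.closedBall 0 (R' + 1) := by
    intro v hv
    rw [mem_closedBall_zero_iff, pi_norm_le_iff_of_nonneg (by linarith)]
    exact horo_norm_le v R' hR0 hv.2
  have htb : TotallyBounded S :=
    (isCompact_closedBall (0 : Fin 2 → ℂ) (R' + 1)).totallyBounded.subset hb
  set δ : ℝ := 1 / (2 * (R' + 1)) with hδ
  have hδ0 : 0 < δ := by positivity
  obtain ⟨t, hts, htf, hcov⟩ := Metric.finite_approx_of_totallyBounded htb δ hδ0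
  refine ⟨htf.toFinset, ?_, ?_⟩
  · intro w hw
    exact (hts (htf.mem_toFinset.1 hw)).1
  · intro v hv hvR
    have hvS : v ∈ S := ⟨hv, hvR.trans (le_max_left _ _)⟩
    obtain ⟨w, hw, hvw⟩ := Set.mem_iUnion₂.1 (hcov hvS)
    have hwS := hts hw
    refine ⟨w, htf.mem_toFinset.2 hw, ?_⟩
    rcases h w hwS.1 v hv with h1 | h1
    · exfalso
      have hd : dist v w < δ := hvw
      rw [dist_eq_norm] at hd
      have e : dv w v = w 0 * (v - w) 1 - w 1 * (v - w) 0 := by
        simp only [dv, Pi.sub_apply]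
        ring
      have n0 : ‖w 0‖ ≤ R' + 1 := horo_norm_le w R' hR0 hwS.2 0
      have n1 : ‖w 1‖ ≤ R' + 1 := horo_norm_le w R' hR0 hwS.2 1
      have m0 : ‖(v - w) 0‖ < δ := lt_of_le_of_lt (norm_le_pi_norm (v - w) 0) hd
      have m1 : ‖(v - w) 1‖ < δ := lt_of_le_of_lt (norm_le_pi_norm (v - w) 1) hd
      have : ‖dv w v‖ < 1 := by
        rw [e]
        calc ‖w 0 * (v - w) 1 - w 1 * (v - w) 0‖ ≤ ‖w 0‖ * ‖(v - w) 1‖ + ‖w 1‖ * ‖(v - w) 0‖ := by
              refine (norm_sub_le _ _).trans ?_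
              rw [norm_mul, norm_mul]
          _ ≤ (R' + 1) * ‖(v - w) 1‖ + (R' + 1) * ‖(v - w) 0‖ := by gcongr
          _ < (R' + 1) * δ + (R' + 1) * δ := by
              have : 0 < R' + 1 := by linarith
              gcongr
          _ = 1 := by
              rw [hδ]
              field_simp
              norm_num
      linarith
    · exact h1

end MPc2b80f
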