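import Pool.Agent.Lib.MP_c2b80f_alB.GFDefs
import Pool.Agent.Lib.MP_c2b80f_alB.CostB

/-!
# Discrete additive subgroups of the complex numbers
-/

open Matrix MatrixGroups

namespace MPc2b80f

/-- Discrete additive subgroups of `ℂ`: there are a finite list of at most two generators, linearly independent over `ℝ`, so that the
coefficients are bounded by the absolute value. (For instance from `ZLattice` theory, or by hand: take `b₁` of minimal
absolute value, and `b₂` of minimal absolute value among the elements not in `ℝ b₁`.) -/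
theorem exists_basis_discrete (L : AddSubgroup ℂ) (hL : DiscreteTopology L) :
    ∃ (b₁ b₂ : ℂ) (C : ℝ), b₁ ∈ L ∧ b₂ ∈ L ∧ 0 ≤ C ∧
      ∀ z ∈ L, ∃ m n : ℤ, z = m * b₁ + n * b₂ ∧ |(m : ℝ)| ≤ C * ‖z‖ ∧ |(n : ℝ)| ≤ C * ‖z‖ := by
  classical
  let L' : Submodule ℤ ℂ := L.toIntSubmodule
  have hLL : ∀ z : ℂ, z ∈ L' ↔ z ∈ L := fun z => Iff.rfl
  let E := Submodule.span ℝ (L' : Set ℂ)
  let f : E →ₗ[ℝ] ℂ := E.subtype
  let L₀ : Submodule ℤ E := L'.comap (f.restrictScalars ℤ)
  have h_img : f '' L₀ = L' := by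
    rw [← LinearMap.coe_restrictScalars ℤ f, ← Submodule.map_coe (f.restrictScalars ℤ),
      Submodule.map_comap_eq_self]
    exact fun x hx ↦ LinearMap.mem_range.mpr ⟨⟨x, Submodule.subset_span hx⟩, rfl⟩
  have hd' : DiscreteTopology (L' : Set ℂ) := hL
  have hd : DiscreteTopology L₀ := by
    refine DiscreteTopology.preimage_of_continuous_injective (L' : Set ℂ) ?_ (Submodule.injective_subtype _)
    exact LinearMap.continuous_of_finiteDimensional f
  have hz : IsZLattice ℝ L₀ := ⟨by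
    rw [← (Submodule.map_injective_of_injective (Submodule.injective_subtype E)).eq_iff, Submodule.map_span,
      Submodule.map_top, Submodule.range_subtype]
    have h1 : (E.subtype : E → ℂ) '' (L₀ : Set E) = (L' : Set ℂ) := h_img
    rw [h1]⟩
  have hfin : Module.Finite ℤ L₀ := ZLattice.module_finite ℝ L₀
  have hfree : Module.Free ℤ L₀ := ZLattice.module_free ℝ L₀
  let b₀ := Module.Free.chooseBasis ℤ L₀
  let B := b₀.ofZLatticeBasis ℝ L₀
  have hcard : Fintype.card (Module.Free.ChooseBasisIndex ℤ L₀) ≤ Fintype.card (Fin 2) := by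
    have h1 : Module.finrank ℝ E = Fintype.card (Module.Free.ChooseBasisIndex ℤ L₀) :=
      Module.finrank_eq_card_basis B
    have h2 : Module.finrank ℝ E ≤ Module.finrank ℝ ℂ := Submodule.finrank_le E
    rw [Complex.finrank_real_complex] at h2
    rw [← h1, Fintype.card_fin]
    exact h2
  obtain ⟨e⟩ := Function.Embedding.nonempty_of_card_le hcard
  -- padded generators
  let b' : Fin 2 → ℂ := Function.extend e (fun i => ((b₀ i : E) : ℂ)) 0
  have hb' : ∀ j, b' j ∈ L := by
    intro j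
    by_cases hj : ∃ i, e i = j
    · obtain ⟨i, rfl⟩ := hj
      simp only [b', e.injective.extend_apply]
      exact (b₀ i).2
    · simp only [b', Function.extend_apply' _ _ _ hj, Pi.zero_apply]
      exact L.zero_mem
  let ℓ : Module.Free.ChooseBasisIndex ℤ L₀ → (E →L[ℝ] ℝ) := fun i => LinearMap.toContinuousLinearMap (B.coord i)
  let C : ℝ := ∑ i, ‖ℓ i‖
  have hC : 0 ≤ C := Finset.sum_nonneg fun i _ => ContinuousLinearMap.opNorm_nonneg _
  refine ⟨b' 0, b' 1, C, hb' 0, hb' 1, hC, ?_⟩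
  intro z hz
  have hzL : z ∈ (L' : Set ℂ) := hz
  let x : L₀ := ⟨⟨z, Submodule.subset_span hzL⟩, hz⟩
  let m : Fin 2 → ℤ := Function.extend e (fun i => b₀.repr x i) 0
  have hm : ∀ j, |(m j : ℝ)| ≤ C * ‖z‖ := by
    intro j
    by_cases hj : ∃ i, e i = j
    · obtain ⟨i, rfl⟩ := hj
      simp only [m, e.injective.extend_apply]
      have h1 : ((b₀.repr x i : ℤ) : ℝ) = ℓ i (x : E) := by
        have := Module.Basis.ofZLatticeBasis_repr_apply ℝ L₀ b₀ x i
        change _ = B.repr (x : E) i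
        rw [this]
      rw [h1]
      calc |ℓ i (x : E)| = ‖ℓ i (x : E)‖ := rfl
        _ ≤ ‖ℓ i‖ * ‖(x : E)‖ := (ℓ i).le_opNorm _
        _ ≤ C * ‖z‖ := by
            have h3 : ‖(x : E)‖ = ‖z‖ := rfl
            rw [h3]
            gcongr
            exact Finset.single_le_sum (f := fun i => ‖ℓ i‖) (fun i _ => ContinuousLinearMap.opNorm_nonneg _) (Finset.mem_univ i)
    · simp only [m, Function.extend_apply' _ _ _ hj, Pi.zero_apply]
      rw [Int.cast_zero, abs_zero]
      positivity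
  refine ⟨m 0, m 1, ?_, hm 0, hm 1⟩
  have h2 : ∑ j : Fin 2, (m j : ℂ) * b' j = ∑ i, ((b₀.repr x i : ℤ) : ℂ) * ((b₀ i : E) : ℂ) := by
    refine (Fintype.sum_of_injective e e.injective _ _ ?_ ?_).symm
    · intro j hj
      have hj' : ¬ ∃ i, e i = j := fun ⟨i, hi⟩ => hj ⟨i, hi⟩
      simp only [m, Function.extend_apply' _ _ _ hj', Pi.zero_apply, Int.cast_zero, zero_mul]
    · intro i
      simp only [m, b', e.injective.extend_apply]
  have h3 : ((∑ i, b₀.repr x i • b₀ i : L₀) : E) = (x : E) := by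
    rw [b₀.sum_repr]
  have h4 : (((∑ i, b₀.repr x i • b₀ i : L₀) : E) : ℂ) = z := by
    rw [h3]
  rw [Fin.sum_univ_two] at h2
  rw [h2, ← h4]
  push_cast
  refine Finset.sum_congr rfl fun i _ => ?_
  rw [zsmul_eq_mul]

end MPc2b80f
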