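import Pool.Agent.Lib.MP_c2b80f_alB.GFDefs
import Pool.Agent.Lib.MP_c2b80f_alB.CostB
import Pool.Agent.Lib.MP_c2b80f_alB.ParabBasis

/-!
# Discrete groups stabilising a horoball are logarithmically generated
-/

open Matrix MatrixGroups

namespace MPc2b80f

/-- The unipotent upper triangular matrix. -/
def up1 (b : ℂ) : SL(2, ℂ) := ⟨!![1, b; 0, 1], by simp [Matrix.det_fin_two_of]⟩

private theorem parab_isMS : IsMS (fun z : ℂ => ‖z‖) :=
  ⟨fun x => norm_nonneg x, norm_zero, norm_one, fun x y => norm_add_le x y,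
    fun x y => norm_mul x y⟩

private theorem parab_nrm_mul_le (g h : SL(2, ℂ)) : nrm (g * h) ≤ nrm g * nrm h := by
  have := nr_mul_le parab_isMS (g : Matrix (Fin 2) (Fin 2) ℂ) (h : Matrix (Fin 2) (Fin 2) ℂ)
  simpa [nrm, Matrix.SpecialLinearGroup.coe_mul] using this

private theorem parab_det (g : SL(2, ℂ)) : g.1 0 0 * g.1 1 1 - g.1 0 1 * g.1 1 0 = 1 := by
  have := g.2
  rwa [Matrix.det_fin_two] at this

private theorem parab_two_le_nrm (g : SL(2, ℂ)) : 2 ≤ nrm g := by
  have h1 := parab_det g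
  have h2 : (1 : ℝ) ≤ ‖g.1 0 0‖ * ‖g.1 1 1‖ + ‖g.1 0 1‖ * ‖g.1 1 0‖ := by
    have h3 := norm_sub_le (g.1 0 0 * g.1 1 1) (g.1 0 1 * g.1 1 0)
    rwa [h1, norm_one, norm_mul, norm_mul] at h3
  show 2 ≤ ‖g.1 0 0‖ + ‖g.1 0 1‖ + ‖g.1 1 0‖ + ‖g.1 1 1‖
  have ha := norm_nonneg (g.1 0 0)
  have hb := norm_nonneg (g.1 0 1)
  have hc := norm_nonneg (g.1 1 0)
  have hd := norm_nonneg (g.1 1 1)
  by_contra hlt
  push Not at hlt
  nlinarith [sq_nonneg (‖g.1 0 0‖ - ‖g.1 1 1‖), sq_nonneg (‖g.1 0 1‖ - ‖g.1 1 0‖),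
    mul_nonneg (add_nonneg ha hd) (add_nonneg hb hc)]

/-- Finiteness of bounded parts of discrete groups. -/
private theorem parab_finite (P : Subgroup SL(2, ℂ)) (hP : DiscreteTopology P) (R : ℝ) :
    {p : SL(2, ℂ) | p ∈ P ∧ ∀ i j, ‖p.1 i j‖ ≤ R}.Finite := by
  have hemb : Topology.IsClosedEmbedding (fun g : SL(2, ℂ) => (g : Matrix (Fin 2) (Fin 2) ℂ)) := by
    refine Topology.IsClosedEmbedding.subtypeVal ?_
    have h1 : IsClosed {A : Matrix (Fin 2) (Fin 2) ℂ | A.det = 1} :=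
      isClosed_singleton.preimage (Continuous.matrix_det continuous_id)
    exact h1
  have hK : IsCompact {A : Matrix (Fin 2) (Fin 2) ℂ | ∀ i j, ‖A i j‖ ≤ R} := by
    have h1 : {A : Matrix (Fin 2) (Fin 2) ℂ | ∀ i j, ‖A i j‖ ≤ R} =
        Set.pi Set.univ fun _ : Fin 2 => Set.pi Set.univ fun _ : Fin 2 => Metric.closedBall (0 : ℂ) R := by
      ext A
      constructor
      · intro hA i _ j _
        exact mem_closedBall_zero_iff.2 (hA i j)
      · intro hA i j
        exact mem_closedBall_zero_iff.1 (hA i trivial j trivial)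
    rw [h1]
    exact isCompact_univ_pi fun _ => isCompact_univ_pi fun _ => isCompact_closedBall _ _
  have hK' : IsCompact {p : SL(2, ℂ) | ∀ i j, ‖p.1 i j‖ ≤ R} := hemb.isCompact_preimage hK
  have hPc : IsClosed (P : Set SL(2, ℂ)) := by
    have := hP
    exact Subgroup.isClosed_of_discrete
  have hc : IsCompact ({p : SL(2, ℂ) | ∀ i j, ‖p.1 i j‖ ≤ R} ∩ (P : Set SL(2, ℂ))) := hK'.inter_right hPc
  have hf := hc.finite ⟨DiscreteTopology.of_subset (s := (P : Set SL(2, ℂ))) hP Set.inter_subset_right⟩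
  refine hf.subset ?_
  rintro p ⟨h1, h2⟩
  exact ⟨h2, h1⟩

private theorem parab_up1_add (a b : ℂ) : up1 (a + b) = up1 a * up1 b := by
  apply Subtype.ext
  rw [Matrix.SpecialLinearGroup.coe_mul]
  ext i j
  fin_cases i <;> fin_cases j <;> simp [up1, Matrix.mul_apply, Fin.sum_univ_two, add_comm]

private theorem parab_up1_zero : up1 0 = 1 := by
  apply Subtype.ext
  ext i j
  fin_cases i <;> fin_cases j <;> simp [up1]

private theorem parab_up1_neg (a : ℂ) : up1 (-a) = (up1 a)⁻¹ := by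
  rw [eq_inv_iff_mul_eq_one, ← parab_up1_add, neg_add_cancel, parab_up1_zero]

/-- The additive group of the translations in `P`. -/
private def parabL (P : Subgroup SL(2, ℂ)) : AddSubgroup ℂ where
  carrier := {b | up1 b ∈ P}
  add_mem' := by
    intro a b ha hb
    show up1 (a + b) ∈ P
    rw [parab_up1_add]
    exact P.mul_mem ha hb
  zero_mem' := by
    show up1 0 ∈ P
    rw [parab_up1_zero]
    exact P.one_mem
  neg_mem' := by
    intro a ha
    show up1 (-a) ∈ P
    rw [parab_up1_neg]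
    exact P.inv_mem ha

private theorem parab_mem_L (P : Subgroup SL(2, ℂ)) (b : ℂ) : b ∈ parabL P ↔ up1 b ∈ P := Iff.rfl

private theorem parab_up1_inj : Function.Injective up1 := by
  intro a b h
  have := congrArg (fun g : SL(2, ℂ) => (g : Matrix (Fin 2) (Fin 2) ℂ) 0 1) h
  simpa [up1] using this

private theorem parab_up1_cont : Continuous up1 := by
  have hind : Topology.IsInducing (fun g : SL(2, ℂ) => (g : Matrix (Fin 2) (Fin 2) ℂ)) :=
    Topology.IsInducing.subtypeVal
  rw [hind.continuous_iff]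
  refine continuous_matrix fun i j => ?_
  fin_cases i <;> fin_cases j
  · show Continuous fun _ : ℂ => (1 : ℂ)
    fun_prop
  · show Continuous fun s : ℂ => s
    fun_prop
  · show Continuous fun _ : ℂ => (0 : ℂ)
    fun_prop
  · show Continuous fun _ : ℂ => (1 : ℂ)
    fun_prop

private theorem parab_L_discrete (P : Subgroup SL(2, ℂ)) (hP : DiscreteTopology P) :
    DiscreteTopology (parabL P) := by
  have h := DiscreteTopology.preimage_of_continuous_injective (P : Set SL(2, ℂ)) parab_up1_cont parab_up1_inj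
  exact h

/-- Quotients of upper triangular matrices with the same diagonal. -/
private theorem parab_quot (A B : SL(2, ℂ)) (hA : A.1 1 0 = 0) (hB : B.1 1 0 = 0) (h : A.1 0 0 = B.1 0 0) :
    B⁻¹ * A = up1 (B.1 1 1 * A.1 0 1 - B.1 0 1 * A.1 1 1) := by
  have dA := parab_det A
  have dB := parab_det B
  rw [hA, mul_zero, sub_zero] at dA
  rw [hB, mul_zero, sub_zero] at dB
  have h0 : B.1 0 0 ≠ 0 := by
    intro h0
    rw [h0, zero_mul] at dB
    exact zero_ne_one dB
  have h11 : A.1 1 1 = B.1 1 1 := by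
    apply mul_left_cancel₀ h0
    rw [← h, dA, h, dB]
  have hcoe : ((B⁻¹ * A : SL(2, ℂ)) : Matrix (Fin 2) (Fin 2) ℂ) = !![B.1 1 1, -B.1 0 1; -B.1 1 0, B.1 0 0] * A.1 := by
    rw [Matrix.SpecialLinearGroup.coe_mul, Matrix.SpecialLinearGroup.SL2_inv_expl]
    rfl
  apply Subtype.ext
  rw [hcoe]
  ext i j
  fin_cases i <;> fin_cases j
  · simp [up1, Matrix.mul_apply, Fin.sum_univ_two, hA, h]
    linear_combination dB
  · simp [up1, Matrix.mul_apply, Fin.sum_univ_two]
    ring
  · simp [up1, Matrix.mul_apply, Fin.sum_univ_two, hA, hB]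
  · simp [up1, Matrix.mul_apply, Fin.sum_univ_two, hB, h11]
    linear_combination dB

private theorem parab_norm11 (p : SL(2, ℂ)) (h : p.1 1 0 = 0 ∧ ‖p.1 0 0‖ = 1) : ‖p.1 1 1‖ = 1 := by
  have d := parab_det p
  rw [h.1, mul_zero, sub_zero] at d
  have := congrArg norm d
  rwa [norm_mul, h.2, one_mul, norm_one] at this

private theorem parab_sq_fiber (c : ℂ) : {z : ℂ | z ^ 2 = c}.Finite := by
  by_cases h : ∃ z₁ : ℂ, z₁ ^ 2 = c
  · obtain ⟨z₁, h₁⟩ := h
    refine (Set.toFinite ({z₁, -z₁} : Set ℂ)).subset ?_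
    intro z hz
    have h2 : z ^ 2 = z₁ ^ 2 := by rw [h₁]; exact hz
    rcases sq_eq_sq_iff_eq_or_eq_neg.1 h2 with h3 | h3
    · left; exact h3
    · right; exact h3
  · refine (Set.toFinite (∅ : Set ℂ)).subset ?_
    intro z hz
    exact (h ⟨z, hz⟩).elim

/-- The set of upper left entries is finite. -/
private theorem parab_Z_finite (P : Subgroup SL(2, ℂ)) (hP : DiscreteTopology P)
    (h : ∀ p ∈ P, (p : Matrix (Fin 2) (Fin 2) ℂ) 1 0 = 0 ∧ ‖(p : Matrix (Fin 2) (Fin 2) ℂ) 0 0‖ = 1) :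
    {z : ℂ | ∃ p ∈ P, (p : Matrix (Fin 2) (Fin 2) ℂ) 0 0 = z}.Finite := by
  by_cases hL : ∃ x : ℂ, x ≠ 0 ∧ up1 x ∈ P
  · obtain ⟨x, hx0, hx⟩ := hL
    have hF : {y : ℂ | up1 y ∈ P ∧ ‖y‖ ≤ ‖x‖}.Finite := by
      refine Set.Finite.of_finite_image (f := up1) ((parab_finite P hP (max 1 ‖x‖)).subset ?_)
        parab_up1_inj.injOn
      rintro _ ⟨y, ⟨hy1, hy2⟩, rfl⟩
      refine ⟨hy1, ?_⟩
      intro i j
      fin_cases i <;> fin_cases j
      · simp [up1]
      · simp [up1, hy2]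
      · simp [up1]
      · simp [up1]
    have hG : ((fun z : ℂ => z ^ 2) ⁻¹' ((fun y : ℂ => y / x) '' {y : ℂ | up1 y ∈ P ∧ ‖y‖ ≤ ‖x‖})).Finite := by
      refine (hF.image _).preimage' ?_
      intro b _
      exact parab_sq_fiber b
    refine hG.subset ?_
    rintro z ⟨p, hp, rfl⟩
    obtain ⟨h10, h00⟩ := h p hp
    refine ⟨p.1 0 0 ^ 2 * x, ⟨?_, ?_⟩, ?_⟩
    · have h1 : up1 (p.1 0 0 ^ 2 * x) = p * up1 x * p⁻¹ := by
        rw [eq_mul_inv_iff_mul_eq]
        have dp := parab_det p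
        rw [h10, mul_zero, sub_zero] at dp
        apply Subtype.ext
        rw [Matrix.SpecialLinearGroup.coe_mul, Matrix.SpecialLinearGroup.coe_mul]
        ext i j
        fin_cases i <;> fin_cases j
        · simp [up1, Matrix.mul_apply, Fin.sum_univ_two, h10]
        · simp [up1, Matrix.mul_apply, Fin.sum_univ_two]
          linear_combination (p.1 0 0 * x) * dp
        · simp [up1, Matrix.mul_apply, Fin.sum_univ_two, h10]
        · simp [up1, Matrix.mul_apply, Fin.sum_univ_two, h10]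
      rw [h1]
      exact P.mul_mem (P.mul_mem hp hx) (P.inv_mem hp)
    · rw [norm_mul, norm_pow, h00, one_pow, one_mul]
    · simp only
      field_simp
  · push Not at hL
    have hL' : ∀ x : ℂ, up1 x ∈ P → x = 0 := by
      intro x hx
      by_contra hne
      exact hL x hne hx
    -- commutativity
    have hcomm : ∀ p ∈ P, ∀ q ∈ P, p * q = q * p := by
      intro p hp q hq
      obtain ⟨p10, -⟩ := h p hp
      obtain ⟨q10, -⟩ := h q hq
      have e := parab_quot (p * q) (q * p) (h _ (P.mul_mem hp hq)).1 (h _ (P.mul_mem hq hp)).1 (by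
        show (p * q : SL(2, ℂ)).1 0 0 = (q * p : SL(2, ℂ)).1 0 0
        rw [Matrix.SpecialLinearGroup.coe_mul, Matrix.SpecialLinearGroup.coe_mul]
        simp [Matrix.mul_apply, Fin.sum_univ_two, p10, q10, mul_comm])
      have m : (q * p)⁻¹ * (p * q) ∈ P := P.mul_mem (P.inv_mem (P.mul_mem hq hp)) (P.mul_mem hp hq)
      rw [e] at m
      have z := hL' _ m
      rw [z, parab_up1_zero, inv_mul_eq_one] at e
      exact e.symm
    by_cases h1 : ∀ p ∈ P, p.1 0 0 ^ 2 = 1
    · refine (parab_sq_fiber 1).subset ?_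
      rintro z ⟨p, hp, rfl⟩
      exact h1 p hp
    · push Not at h1
      obtain ⟨p₀, hp₀, hne⟩ := h1
      obtain ⟨c10, c00⟩ := h p₀ hp₀
      have d0 := parab_det p₀
      rw [c10, mul_zero, sub_zero] at d0
      have hw : p₀.1 0 0 - p₀.1 1 1 ≠ 0 := by
        intro hw
        apply hne
        have : p₀.1 0 0 = p₀.1 1 1 := sub_eq_zero.1 hw
        rw [sq]
        nth_rewrite 2 [this]
        exact d0
      set R : ℝ := 2 * ‖p₀.1 0 1‖ / ‖p₀.1 0 0 - p₀.1 1 1‖ with hR
      have hR0 : 0 ≤ R := by positivity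
      have hfin := (parab_finite P hP (R + 1)).image (fun p : SL(2, ℂ) => p.1 0 0)
      refine hfin.subset ?_
      rintro z ⟨p, hp, rfl⟩
      refine ⟨p, ⟨hp, ?_⟩, rfl⟩
      obtain ⟨p10, p00⟩ := h p hp
      have p11 := parab_norm11 p ⟨p10, p00⟩
      have e : p.1 0 1 * (p₀.1 0 0 - p₀.1 1 1) = p₀.1 0 1 * (p.1 0 0 - p.1 1 1) := by
        have e1 := congrArg (fun g : SL(2, ℂ) => (g : Matrix (Fin 2) (Fin 2) ℂ) 0 1) (hcomm p hp p₀ hp₀)
        simp only [Matrix.SpecialLinearGroup.coe_mul, Matrix.mul_apply, Fin.sum_univ_two] at e1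
        linear_combination (-1 : ℂ) * e1
      have hb : ‖p.1 0 1‖ ≤ R := by
        rw [hR, le_div_iff₀ (norm_pos_iff.2 hw), ← norm_mul, e, norm_mul]
        have : ‖p.1 0 0 - p.1 1 1‖ ≤ 2 := by
          refine (norm_sub_le _ _).trans ?_
          rw [p00, p11]
          norm_num
        nlinarith [norm_nonneg (p₀.1 0 1)]
      intro i j
      fin_cases i <;> fin_cases j
      · show ‖p.1 0 0‖ ≤ _
        rw [p00]; linarith
      · show ‖p.1 0 1‖ ≤ _
        linarith
      · show ‖p.1 1 0‖ ≤ _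
        rw [p10, norm_zero]; linarith
      · show ‖p.1 1 1‖ ≤ _
        rw [p11]; linarith

private theorem parab_up1_unip (b : ℂ) : ((up1 b : Matrix (Fin 2) (Fin 2) ℂ) - 1) ^ 2 = 0 := by
  rw [sq]
  ext i j
  fin_cases i <;> fin_cases j <;> simp [up1, Matrix.mul_apply, Fin.sum_univ_two]

private theorem parab_up1_pow (b : ℂ) (n : ℕ) : up1 b ^ n = up1 (n * b) := by
  induction n with
  | zero => rw [pow_zero, Nat.cast_zero, zero_mul, parab_up1_zero]
  | succ n ih =>
    rw [pow_succ, ih, ← parab_up1_add]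
    congr 1
    push_cast
    ring

private theorem parab_up1_zpow (b : ℂ) (n : ℤ) : up1 b ^ n = up1 (n * b) := by
  rcases Int.eq_nat_or_neg n with ⟨k, rfl | rfl⟩
  · rw [zpow_natCast, parab_up1_pow]
    push_cast
    rfl
  · rw [_root_.zpow_neg, zpow_natCast, parab_up1_pow, ← parab_up1_neg]
    congr 1
    push_cast
    ring

/-- Case of upper triangular matrices `(ζ, b; 0, ζ⁻¹)`, `|ζ| = 1`. Proof. Let `L = {b | up1 b ∈ P}`, a discrete
subgroup of `ℂ`. The matrix `p = (ζ, b; 0, ζ⁻¹)` conjugates `up1 x` to `up1 (ζ ^ 2 x)`, and the commutator of two elements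
of `P` is `up1` of something.

Claim: `{up1 x | x ∈ L}` has finite index in `P`; more precisely the set of all `ζ` (lower right entries) of elements of `P`
is finite. Case `L ≠ 0`: `L` is mapped to itself by multiplication by `ζ ^ 2`, and `L` has only finitely many elements of
given absolute value, so `ζ ^ 2` takes finitely many values. Case `L = 0`: `P` is commutative. If all `ζ ^ 2 = 1` we are done.
Otherwise take `p₀ ∈ P` with `ζ₀ ^ 2 ≠ 1`; it has a unique fixed point `z₀ ∈ ℂ` under `z ↦ ζ₀ ^ 2 z + ζ₀ b₀`, i.e. it is conjugate by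
`up1 z₀` to a diagonal matrix, every element of `P` commutes with `p₀`, so is conjugated to a diagonal matrix
as well; so `P` is contained in a compact group, and it is finite, because it is discrete.

Choose for every value `ζ` one element `f_ζ ∈ P` with upper left entry `ζ`; `F` = set of these. For `p ∈ P` with entry `ζ`:
`f_ζ⁻¹ p = up1 x` with `x ∈ L`, `|x| ≤ nrm (f_ζ⁻¹) * nrm p`, `x = m b₁ + n b₂` (`exists_basis_discrete`), so
`p = f_ζ * (up1 b₁) ^ m * (up1 b₂) ^ n` has cost `≤ C (1 + log (nrm p))`. (`nrm p ≥ 2`; see `two_le_nrm` in Transfer, easy.) -/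
theorem logGen_upper (P : Subgroup SL(2, ℂ)) (hP : DiscreteTopology P)
    (h : ∀ p ∈ P, (p : Matrix (Fin 2) (Fin 2) ℂ) 1 0 = 0 ∧ ‖(p : Matrix (Fin 2) (Fin 2) ℂ) 0 0‖ = 1) :
    LogGen P := by
  classical
  have hZ := parab_Z_finite P hP h
  obtain ⟨b₁, b₂, C, hb₁, hb₂, hC, hrep⟩ := exists_basis_discrete (parabL P) (parab_L_discrete P hP)
  -- representatives
  have hf : ∀ z : ℂ, ∃ f : SL(2, ℂ), z ∈ {z : ℂ | ∃ p ∈ P, (p : Matrix (Fin 2) (Fin 2) ℂ) 0 0 = z} →
      f ∈ P ∧ f.1 0 0 = z := by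
    intro z
    by_cases hz : ∃ p ∈ P, (p : Matrix (Fin 2) (Fin 2) ℂ) 0 0 = z
    · obtain ⟨p, hp, hpz⟩ := hz
      exact ⟨p, fun _ => ⟨hp, hpz⟩⟩
    · exact ⟨1, fun hz' => (hz hz').elim⟩
  choose f hf using hf
  set M : ℝ := ∑ z ∈ hZ.toFinset, ‖(f z).1 0 1‖ with hM
  have hM0 : 0 ≤ M := Finset.sum_nonneg fun z _ => norm_nonneg _
  set K : ℝ := 1 + C + C * M with hK
  have hK1 : 1 ≤ K := by
    have := mul_nonneg hC hM0
    linarith
  have hlogK : 0 ≤ Real.log K := Real.log_nonneg hK1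
  refine ⟨hZ.toFinset.image f, {up1 b₁, up1 b₂}, 6 + 2 * Real.log K, ?_, ?_⟩
  · intro u hu
    rw [Finset.mem_insert, Finset.mem_singleton] at hu
    rcases hu with rfl | rfl
    · exact parab_up1_unip _
    · exact parab_up1_unip _
  · intro p hp
    set z := p.1 0 0 with hz
    have hzZ : z ∈ {z : ℂ | ∃ p ∈ P, (p : Matrix (Fin 2) (Fin 2) ℂ) 0 0 = z} := ⟨p, hp, rfl⟩
    obtain ⟨hfP, hf0⟩ := hf z hzZ
    have hpf := parab_quot p (f z) (h p hp).1 (h _ hfP).1 (by rw [hf0])
    set x := (f z).1 1 1 * p.1 0 1 - (f z).1 0 1 * p.1 1 1 with hx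
    have hxL : x ∈ parabL P := by
      rw [parab_mem_L, ← hpf]
      exact P.mul_mem (P.inv_mem hfP) hp
    obtain ⟨m, n, hxmn, hm, hn⟩ := hrep x hxL
    have hfM : ‖(f z).1 0 1‖ ≤ M :=
      Finset.single_le_sum (f := fun z => ‖(f z).1 0 1‖) (fun z _ => norm_nonneg _) (hZ.mem_toFinset.2 hzZ)
    have hp2 := parab_two_le_nrm p
    have hxn : ‖x‖ ≤ nrm p + M := by
      calc ‖x‖ ≤ ‖(f z).1 1 1 * p.1 0 1‖ + ‖(f z).1 0 1 * p.1 1 1‖ := norm_sub_le _ _
        _ = ‖p.1 0 1‖ + ‖(f z).1 0 1‖ := by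
            rw [norm_mul, norm_mul, parab_norm11 (f z) (h _ hfP), parab_norm11 p (h p hp), one_mul, mul_one]
        _ ≤ nrm p + M := by
            have : ‖p.1 0 1‖ ≤ nrm p := by
              show ‖p.1 0 1‖ ≤ ‖p.1 0 0‖ + ‖p.1 0 1‖ + ‖p.1 1 0‖ + ‖p.1 1 1‖
              have := norm_nonneg (p.1 0 0)
              have := norm_nonneg (p.1 1 0)
              have := norm_nonneg (p.1 1 1)
              linarith
            linarith
    have hlogb : ∀ k : ℤ, |(k : ℝ)| ≤ C * ‖x‖ → Real.log (1 + |(k : ℝ)|) ≤ Real.log K + Real.log (nrm p) := by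
      intro k hk
      rw [← Real.log_mul (by linarith) (by linarith)]
      apply Real.log_le_log (by positivity)
      have h1 : C * ‖x‖ ≤ C * (nrm p + M) := mul_le_mul_of_nonneg_left hxn hC
      have h2 : C * M ≤ C * M * nrm p := by
        have := mul_nonneg hC hM0
        nlinarith
      rw [hK]
      nlinarith
    refine ⟨[(f z, 1), (up1 b₁, m), (up1 b₂, n)], ?_, ?_, ?_⟩
    · intro y hy
      simp only [List.mem_cons, List.not_mem_nil, or_false] at hy
      rcases hy with rfl | rfl | rfl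
      · left
        exact ⟨Finset.mem_image_of_mem f (hZ.mem_toFinset.2 hzZ), rfl⟩
      · right
        simp
      · right
        simp
    · simp only [pr, List.map_cons, List.map_nil, List.prod_cons, List.prod_nil, mul_one, zpow_one]
      rw [parab_up1_zpow, parab_up1_zpow, ← parab_up1_add, ← hxmn, ← hpf, mul_inv_cancel_left]
    · have hc : cost [(f z, (1 : ℤ)), (up1 b₁, m), (up1 b₂, n)] = (1 + Real.log 2) +
          ((1 + Real.log (1 + |(m : ℝ)|)) + (1 + Real.log (1 + |(n : ℝ)|))) := by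
        simp only [cost, List.map_cons, List.map_nil, List.sum_cons, List.sum_nil, add_zero, Int.cast_one, abs_one]
        norm_num
      rw [hc]
      have h2 : Real.log 2 ≤ 1 := by
        have := Real.log_two_lt_d9
        linarith
      have h3 := hlogb m hm
      have h4 := hlogb n hn
      have h5 : 0 ≤ Real.log (nrm p) := Real.log_nonneg (by linarith)
      nlinarith [mul_nonneg hlogK h5]

/-- Conjugates of logarithmically generated groups. -/
private theorem parab_logGen_conj (P Q : Subgroup SL(2, ℂ)) (x : SL(2, ℂ))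
    (hPQ : ∀ p ∈ P, x⁻¹ * p * x ∈ Q) (hQ : LogGen Q) : LogGen P := by
  classical
  obtain ⟨S, T, C, hT, hg⟩ := hQ
  set K : ℝ := nrm x⁻¹ * nrm x with hK
  have h1 := parab_two_le_nrm x
  have h2 := parab_two_le_nrm x⁻¹
  have hK1 : 1 ≤ K := by
    rw [hK]
    nlinarith
  have hlogK : 0 ≤ Real.log K := Real.log_nonneg hK1
  refine ⟨S.image (fun s => x * s * x⁻¹), T.image (fun s => x * s * x⁻¹), max C 0 * (1 + Real.log K), ?_, ?_⟩
  · intro u hu
    obtain ⟨t, ht, rfl⟩ := Finset.mem_image.1 hu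
    have h3 := hT t ht
    have h4 : ((x * t * x⁻¹ : SL(2, ℂ)) : Matrix (Fin 2) (Fin 2) ℂ) - 1 =
        (x : Matrix (Fin 2) (Fin 2) ℂ) * ((t : Matrix (Fin 2) (Fin 2) ℂ) - 1) * ((x⁻¹ : SL(2, ℂ)) : Matrix (Fin 2) (Fin 2) ℂ) := by
      have h5 : (x : Matrix (Fin 2) (Fin 2) ℂ) * ((x⁻¹ : SL(2, ℂ)) : Matrix (Fin 2) (Fin 2) ℂ) = 1 := by
        rw [← Matrix.SpecialLinearGroup.coe_mul, mul_inv_cancel, Matrix.SpecialLinearGroup.coe_one]
      rw [mul_sub, sub_mul, mul_one, h5, Matrix.SpecialLinearGroup.coe_mul, Matrix.SpecialLinearGroup.coe_mul]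
    have h6 : ((x⁻¹ : SL(2, ℂ)) : Matrix (Fin 2) (Fin 2) ℂ) * (x : Matrix (Fin 2) (Fin 2) ℂ) = 1 := by
      rw [← Matrix.SpecialLinearGroup.coe_mul, inv_mul_cancel, Matrix.SpecialLinearGroup.coe_one]
    rw [h4, sq]
    calc _ = (x : Matrix (Fin 2) (Fin 2) ℂ) * ((t : Matrix (Fin 2) (Fin 2) ℂ) - 1) *
          (((x⁻¹ : SL(2, ℂ)) : Matrix (Fin 2) (Fin 2) ℂ) * (x : Matrix (Fin 2) (Fin 2) ℂ)) *
          ((t : Matrix (Fin 2) (Fin 2) ℂ) - 1) * ((x⁻¹ : SL(2, ℂ)) : Matrix (Fin 2) (Fin 2) ℂ) := by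
            simp only [_root_.mul_assoc]
      _ = (x : Matrix (Fin 2) (Fin 2) ℂ) * (((t : Matrix (Fin 2) (Fin 2) ℂ) - 1) ^ 2) *
          ((x⁻¹ : SL(2, ℂ)) : Matrix (Fin 2) (Fin 2) ℂ) := by
            rw [h6, mul_one, sq]
            simp only [_root_.mul_assoc]
      _ = 0 := by rw [h3, mul_zero, zero_mul]
  · intro p hp
    obtain ⟨l, hl, hpr, hcost⟩ := hg _ (hPQ p hp)
    refine ⟨l.map (fun y => (x * y.1 * x⁻¹, y.2)), ?_, ?_, ?_⟩
    · intro y hy
      obtain ⟨y', hy', rfl⟩ := List.mem_map.1 hy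
      rcases hl y' hy' with ⟨ha, hb⟩ | ha
      · left
        exact ⟨Finset.mem_image_of_mem _ ha, hb⟩
      · right
        exact Finset.mem_image_of_mem _ ha
    · have key : ∀ l : List (SL(2, ℂ) × ℤ), pr (l.map (fun y => (x * y.1 * x⁻¹, y.2))) = x * pr l * x⁻¹ := by
        intro l
        induction l with
        | nil => simp [pr]
        | cons a l ih =>
          have e1 : pr ((a :: l).map (fun y => (x * y.1 * x⁻¹, y.2))) =
              (x * a.1 * x⁻¹) ^ a.2 * pr (l.map (fun y => (x * y.1 * x⁻¹, y.2))) := by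
            simp [pr]
          have e2 : pr (a :: l) = a.1 ^ a.2 * pr l := by simp [pr]
          rw [e1, ih, e2, conj_zpow]
          group
      rw [key, hpr]
      group
    · have hc : cost (l.map (fun y => (x * y.1 * x⁻¹, y.2))) = cost l := by
        simp only [cost, List.map_map]
        rfl
      rw [hc]
      have hp2 := parab_two_le_nrm p
      have hq2 := parab_two_le_nrm (x⁻¹ * p * x)
      have h5 : 0 ≤ Real.log (nrm p) := Real.log_nonneg (by linarith)
      have h6 : 0 ≤ Real.log (nrm (x⁻¹ * p * x)) := Real.log_nonneg (by linarith)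
      have h7 : nrm (x⁻¹ * p * x) ≤ K * nrm p := by
        have a1 := parab_nrm_mul_le (x⁻¹ * p) x
        have a2 := parab_nrm_mul_le x⁻¹ p
        have a3 := mul_le_mul_of_nonneg_right a2 (by linarith : (0 : ℝ) ≤ nrm x)
        calc _ ≤ _ := a1
          _ ≤ _ := a3
          _ = K * nrm p := by rw [hK]; ring
      have h8 : Real.log (nrm (x⁻¹ * p * x)) ≤ Real.log K + Real.log (nrm p) := by
        rw [← Real.log_mul (by linarith) (by linarith)]
        exact Real.log_le_log (by linarith) h7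
      have h9 : 0 ≤ max C 0 := le_max_right _ _
      calc cost l ≤ C * (1 + Real.log (nrm (x⁻¹ * p * x))) := hcost
        _ ≤ max C 0 * (1 + Real.log (nrm (x⁻¹ * p * x))) := by
            gcongr
            exact le_max_left _ _
        _ ≤ max C 0 * ((1 + Real.log K) * (1 + Real.log (nrm p))) := by
            apply mul_le_mul_of_nonneg_left _ h9
            nlinarith [mul_nonneg hlogK h5]
        _ = _ := by ring

/-- General case, by conjugation: there is `x ∈ SL_2(ℂ)` with `v x = (0, 1)`... (any nonzero row vector can be completed to a matrix of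
determinant 1). If `v p = ζ v` then `(0, 1) (x⁻¹ p x) = ζ (0, 1)`, so `x⁻¹ p x` is upper triangular with entry `ζ`.
`LogGen` is invariant under conjugation (norms change by bounded factors, unipotent elements go to unipotent elements). -/
theorem logGen_parabolic (P : Subgroup SL(2, ℂ)) (hP : DiscreteTopology P) (v : Fin 2 → ℂ) (hv : v ≠ 0)
    (h : ∀ p ∈ P, ∃ ζ : ℂ, ‖ζ‖ = 1 ∧ v ᵥ* (p : Matrix (Fin 2) (Fin 2) ℂ) = ζ • v) :
    LogGen P := by
  -- completion of `v`
  obtain ⟨x, hx⟩ : ∃ x : SL(2, ℂ), v ᵥ* (x : Matrix (Fin 2) (Fin 2) ℂ) = ![0, 1] := by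
    set N : ℝ := Complex.normSq (v 0) + Complex.normSq (v 1) with hN
    have hN0 : N ≠ 0 := by
      intro h
      have h1 := Complex.normSq_nonneg (v 0)
      have h2 := Complex.normSq_nonneg (v 1)
      have h3 : Complex.normSq (v 0) = 0 := by linarith
      have h4 : Complex.normSq (v 1) = 0 := by linarith
      apply hv
      ext i
      fin_cases i
      · simpa using h3
      · simpa using h4
    have hNc : (N : ℂ) ≠ 0 := by exact_mod_cast hN0
    have hNe : (v 0) * (starRingEnd ℂ) (v 0) + (v 1) * (starRingEnd ℂ) (v 1) = (N : ℂ) := by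
      rw [Complex.mul_conj, Complex.mul_conj, hN]
      push_cast
      ring
    refine ⟨⟨!![v 1, (starRingEnd ℂ) (v 0) / N; - v 0, (starRingEnd ℂ) (v 1) / N], ?_⟩, ?_⟩
    · rw [Matrix.det_fin_two_of]
      field_simp
      linear_combination hNe
    · ext i
      fin_cases i
      · simp [Matrix.vecMul, dotProduct, Fin.sum_univ_two]
        ring
      · simp [Matrix.vecMul, dotProduct, Fin.sum_univ_two]
        field_simp
        linear_combination hNe
  -- the conjugated group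
  let Q : Subgroup SL(2, ℂ) := P.comap (MulAut.conj x).toMonoidHom
  have hQmem : ∀ y : SL(2, ℂ), y ∈ Q ↔ x * y * x⁻¹ ∈ P := by
    intro y
    exact Iff.rfl
  have hQd : DiscreteTopology Q := by
    have hc : Continuous (fun y : SL(2, ℂ) => x * y * x⁻¹) := by fun_prop
    have hi : Function.Injective (fun y : SL(2, ℂ) => x * y * x⁻¹) := by
      intro a b hab
      simpa using hab
    exact DiscreteTopology.preimage_of_continuous_injective (P : Set SL(2, ℂ)) hc hi
  refine parab_logGen_conj P Q x ?_ (logGen_upper Q hQd ?_)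
  · intro p hp
    rw [hQmem]
    have : x * (x⁻¹ * p * x) * x⁻¹ = p := by group
    rw [this]
    exact hp
  · intro y hy
    obtain ⟨ζ, hζ, hvp⟩ := h _ ((hQmem y).1 hy)
    have h1 : (![0, 1] : Fin 2 → ℂ) ᵥ* (y : Matrix (Fin 2) (Fin 2) ℂ) = ζ • ![0, 1] := by
      have h2 : x * y = (x * y * x⁻¹) * x := by group
      have h3 := congrArg (fun w : Fin 2 → ℂ => w ᵥ* (x : Matrix (Fin 2) (Fin 2) ℂ)) hvp
      simp only [Matrix.vecMul_vecMul, Matrix.smul_vecMul, hx] at h3
      rw [← Matrix.SpecialLinearGroup.coe_mul, ← h2, Matrix.SpecialLinearGroup.coe_mul,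
        ← Matrix.vecMul_vecMul, hx] at h3
      exact h3
    have e0 := congrFun h1 0
    have e1 := congrFun h1 1
    simp [Matrix.vecMul, dotProduct, Fin.sum_univ_two] at e0 e1
    have dy := parab_det y
    refine ⟨e0, ?_⟩
    change y.1 1 0 = 0 at e0
    rw [e0, mul_zero, sub_zero] at dy
    have hn := congrArg norm dy
    rw [norm_mul, norm_one] at hn
    change y.1 1 1 = ζ at e1
    rw [e1, hζ, mul_one] at hn
    exact hn

end MPc2b80f
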