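import Pool.Agent.Lib.MP_c2b80f_alB.CC
import Pool.Agent.Lib.MP_c2b80f_alB.Horo
import Pool.Agent.Lib.MP_c2b80f_alB.Parab

/-!
# Geometrically finite groups are logarithmically generated
-/

open Matrix MatrixGroups Topology

namespace MPc2b80f

/-- `g` is a product of cost at most `c`. -/
def Gen (S T : Finset SL(2, ℂ)) (g : SL(2, ℂ)) (c : ℝ) : Prop :=
  ∃ l : List (SL(2, ℂ) × ℤ), (∀ x ∈ l, (x.1 ∈ S ∧ x.2 = 1) ∨ x.1 ∈ T) ∧ pr l = g ∧ cost l ≤ c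

theorem Gen.mono {S T S' T' : Finset SL(2, ℂ)} {g : SL(2, ℂ)} {c c' : ℝ} (h : Gen S T g c)
    (hS : S ⊆ S') (hT : T ⊆ T') (hc : c ≤ c') : Gen S' T' g c' := by
  obtain ⟨l, h1, h2, h3⟩ := h
  exact ⟨l, fun x hx => (h1 x hx).imp (fun h => ⟨hS h.1, h.2⟩) (fun h => hT h), h2, h3.trans hc⟩

theorem Gen.mul {S T : Finset SL(2, ℂ)} {g h : SL(2, ℂ)} {a b : ℝ} (hg : Gen S T g a)
    (hh : Gen S T h b) : Gen S T (g * h) (a + b) := by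
  obtain ⟨l, h1, h2, h3⟩ := hg
  obtain ⟨m, h4, h5, h6⟩ := hh
  refine ⟨l ++ m, ?_, ?_, ?_⟩
  · intro x hx
    rcases List.mem_append.mp hx with hx | hx
    · exact h1 x hx
    · exact h4 x hx
  · rw [← h2, ← h5]; simp [pr]
  · have : cost (l ++ m) = cost l + cost m := by simp [cost]
    rw [this]; linarith

theorem Gen.single {S T : Finset SL(2, ℂ)} {g : SL(2, ℂ)} (hg : g ∈ S) : Gen S T g 2 := by
  refine ⟨[(g, 1)], ?_, by simp [pr], ?_⟩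
  · intro x hx
    rw [List.mem_singleton] at hx
    subst hx
    exact Or.inl ⟨hg, rfl⟩
  · have := Real.log_two_lt_d9
    simp only [cost, List.map_cons, List.map_nil, List.sum_cons, List.sum_nil]
    push_cast
    rw [abs_one, show (1:ℝ) + 1 = 2 by norm_num]
    linarith

theorem continuous_nrm : Continuous nrm := by
  have hval : Continuous fun x : SL(2, ℂ) => (x : Matrix (Fin 2) (Fin 2) ℂ) := continuous_subtype_val
  unfold nrm nr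
  have h : ∀ i j, Continuous fun x : SL(2, ℂ) => ‖(x : Matrix (Fin 2) (Fin 2) ℂ) i j‖ := fun i j =>
    (hval.matrix_elem i j).norm
  exact (((h 0 0).add (h 0 1)).add (h 1 0)).add (h 1 1)

theorem continuous_vsq_vecMul (u : Fin 2 → ℂ) :
    Continuous fun x : SL(2, ℂ) => vsq (u ᵥ* (x : Matrix (Fin 2) (Fin 2) ℂ)) := by
  have hval : Continuous fun x : SL(2, ℂ) => (x : Matrix (Fin 2) (Fin 2) ℂ) := continuous_subtype_val
  have h : ∀ j, Continuous fun x : SL(2, ℂ) => (u ᵥ* (x : Matrix (Fin 2) (Fin 2) ℂ)) j := by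
    intro j
    simp only [Matrix.vecMul, dotProduct, Fin.sum_univ_two]
    exact (continuous_const.mul (hval.matrix_elem 0 j)).add (continuous_const.mul (hval.matrix_elem 1 j))
  unfold vsq
  exact ((h 0).norm.pow 2).add ((h 1).norm.pow 2)

theorem vecMul_coe_mul (u : Fin 2 → ℂ) (x y : SL(2, ℂ)) :
    u ᵥ* ((x * y : SL(2, ℂ)) : Matrix (Fin 2) (Fin 2) ℂ) =
      (u ᵥ* (x : Matrix (Fin 2) (Fin 2) ℂ)) ᵥ* (y : Matrix (Fin 2) (Fin 2) ℂ) := by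
  rw [Matrix.SpecialLinearGroup.coe_mul, Matrix.vecMul_vecMul]

/-- If `vsq (u x) ≤ 1` then `vsq u ≤ (nrm x⁻¹) ^ 2`. -/
theorem vsq_le_of_vecMul (u : Fin 2 → ℂ) (x : SL(2, ℂ))
    (h : vsq (u ᵥ* (x : Matrix (Fin 2) (Fin 2) ℂ)) ≤ 1) : vsq u ≤ (nrm x⁻¹) ^ 2 := by
  have h1 := vsq_vecMul_le (u ᵥ* (x : Matrix (Fin 2) (Fin 2) ℂ)) x⁻¹
  rw [← vecMul_coe_mul, mul_inv_cancel, Matrix.SpecialLinearGroup.coe_one, Matrix.vecMul_one] at h1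
  have h2 : 0 ≤ (nrm x⁻¹) ^ 2 := sq_nonneg _
  nlinarith

theorem vecMul_ne_zero (u : Fin 2 → ℂ) (hu : u ≠ 0) (x : SL(2, ℂ)) :
    u ᵥ* (x : Matrix (Fin 2) (Fin 2) ℂ) ≠ 0 := by
  intro h
  apply hu
  have h1 : (u ᵥ* (x : Matrix (Fin 2) (Fin 2) ℂ)) ᵥ* ((x⁻¹ : SL(2, ℂ)) : Matrix (Fin 2) (Fin 2) ℂ) = u := by
    rw [← vecMul_coe_mul, mul_inv_cancel, Matrix.SpecialLinearGroup.coe_one, Matrix.vecMul_one]
  rw [← h1, h, Matrix.zero_vecMul]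

theorem transl_disjoint (γ : SL(2, ℂ)) (A B : Set SL(2, ℂ)) (h : Disjoint A B) :
    Disjoint (transl γ A) (transl γ B) := by
  rw [Set.disjoint_left] at h ⊢
  intro x hx hx'
  exact h hx hx'

/-- The norm of `a(τ)`. -/
theorem nrm_aexp_le (τ : ℝ) (hτ : 0 ≤ τ) : nrm (aexp τ) ≤ 2 * Real.exp τ := by
  unfold aexp
  rw [nrm_dg]
  have h : ‖((Units.mk0 ((Real.exp τ : ℝ) : ℂ)
      (by exact_mod_cast (Real.exp_pos τ).ne') : ℂˣ) : ℂ)‖ = Real.exp τ := by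
    rw [Units.val_mk0, Complex.norm_real, Real.norm_of_nonneg (Real.exp_pos τ).le]
  rw [h]
  have h1 : 1 ≤ Real.exp τ := Real.one_le_exp hτ
  have h2 : (Real.exp τ)⁻¹ ≤ 1 := inv_le_one_of_one_le₀ h1
  linarith

/-- The stabiliser of a line with multiplier of absolute value 1. -/
def stabU (Γ : Subgroup SL(2, ℂ)) (v : Fin 2 → ℂ) : Subgroup SL(2, ℂ) where
  carrier := {γ | γ ∈ Γ ∧ ∃ ζ : ℂ, ‖ζ‖ = 1 ∧ v ᵥ* (γ : Matrix (Fin 2) (Fin 2) ℂ) = ζ • v}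
  one_mem' := ⟨one_mem _, 1, by simp, by simp⟩
  mul_mem' := by
    rintro x y ⟨hx, ζ, hζ, hx'⟩ ⟨hy, ξ, hξ, hy'⟩
    refine ⟨mul_mem hx hy, ζ * ξ, by rw [norm_mul, hζ, hξ, one_mul], ?_⟩
    rw [vecMul_coe_mul, hx', Matrix.smul_vecMul, hy', smul_smul]
  inv_mem' := by
    rintro x ⟨hx, ζ, hζ, hx'⟩
    have hζ0 : ζ ≠ 0 := by
      intro h; rw [h, norm_zero] at hζ; exact zero_ne_one hζ
    refine ⟨inv_mem hx, ζ⁻¹, by rw [norm_inv, hζ, inv_one], ?_⟩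
    have h1 : (v ᵥ* (x : Matrix (Fin 2) (Fin 2) ℂ)) ᵥ* ((x⁻¹ : SL(2, ℂ)) : Matrix (Fin 2) (Fin 2) ℂ) = v := by
      rw [← vecMul_coe_mul, mul_inv_cancel, Matrix.SpecialLinearGroup.coe_one, Matrix.vecMul_one]
    rw [hx', Matrix.smul_vecMul] at h1
    rw [← h1, smul_smul, inv_mul_cancel₀ hζ0, one_smul, h1]

/-- The end of an excursion: an abstract lemma on continuous functions. -/
theorem exc_end {ι : Type*} (a s : ℝ) (has : a ≤ s) (F : ℝ → ℝ) (hF : Continuous F) (hFa : F a < 1)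
    (G : ι → ℝ → ℝ) (hG : ∀ j, Continuous (G j)) (P : ℝ → Prop)
    (hcov : ∀ τ ∈ Set.Icc a s, P τ ∨ ∃ j, G j τ < 1)
    (hd : ∀ j, (∀ τ, ¬ (F τ < 1 ∧ G j τ < 1)) ∨ (∀ τ, G j τ < 1 → F τ < 1)) :
    ∃ t' ∈ Set.Icc a s, F t' ≤ 1 ∧ (P t' ∨ t' = s) := by
  set Bad : Set ℝ := Set.Icc a s ∩ {τ | 1 ≤ F τ} with hBad
  by_cases hne : Bad.Nonempty
  · have hclosed : IsClosed Bad := isClosed_Icc.inter (isClosed_le continuous_const hF)
    have hbdd : BddBelow Bad := ⟨a, fun τ hτ => hτ.1.1⟩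
    have htB : sInf Bad ∈ Bad := hclosed.csInf_mem hne hbdd
    have hF1 : 1 ≤ F (sInf Bad) := htB.2
    have hlt : a < sInf Bad := by
      rcases lt_or_eq_of_le htB.1.1 with h | h
      · exact h
      · exfalso
        rw [← h] at hF1
        linarith
    have hbelow : ∀ τ ∈ Set.Ico a (sInf Bad), F τ < 1 := by
      intro τ hτ
      by_contra hcon'
      push Not at hcon'
      have : τ ∈ Bad := ⟨⟨hτ.1, hτ.2.le.trans htB.1.2⟩, hcon'⟩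
      exact absurd (csInf_le hbdd this) (not_le.mpr hτ.2)
    have hcl : sInf Bad ∈ closure (Set.Ico a (sInf Bad)) := by
      rw [closure_Ico hlt.ne]
      exact ⟨hlt.le, le_rfl⟩
    have hle1 : F (sInf Bad) ≤ 1 := by
      have hsubs : Set.Ico a (sInf Bad) ⊆ {τ | F τ ≤ 1} := fun τ hτ => (hbelow τ hτ).le
      exact closure_minimal hsubs (isClosed_le hF continuous_const) hcl
    refine ⟨sInf Bad, ⟨hlt.le, htB.1.2⟩, hle1, Or.inl ?_⟩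
    rcases hcov (sInf Bad) ⟨hlt.le, htB.1.2⟩ with h | ⟨j, hj⟩
    · exact h
    · exfalso
      rcases hd j with h | h
      · have hopen : IsOpen {τ : ℝ | G j τ < 1} := isOpen_lt (hG j) continuous_const
        obtain ⟨τ, hτ1, hτ2⟩ := mem_closure_iff.mp hcl _ hopen hj
        exact h τ ⟨hbelow τ hτ2, hτ1⟩
      · linarith [h _ hj]
  · refine ⟨s, ⟨has, le_rfl⟩, ?_, Or.inr rfl⟩
    by_contra hcon'
    push Not at hcon'
    exact hne ⟨s, ⟨has, le_rfl⟩, hcon'.le⟩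

/-- Parabolic steps, one vector. -/
theorem parab_one (Γ : Subgroup SL(2, ℂ)) (hdisc : DiscreteTopology Γ) (w : Fin 2 → ℂ) (hw : w ≠ 0) :
    ∃ (S T : Finset SL(2, ℂ)) (C : ℝ), 0 ≤ C ∧ (∀ u ∈ T, ((u : Matrix (Fin 2) (Fin 2) ℂ) - 1) ^ 2 = 0) ∧
      ∀ g ∈ stabU Γ w, Gen S T g (C * (1 + Real.log (nrm g))) := by
  have hd : DiscreteTopology (stabU Γ w) := by
    have hsub : ((stabU Γ w : Subgroup SL(2, ℂ)) : Set SL(2, ℂ)) ⊆ (Γ : Set SL(2, ℂ)) :=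
      fun x hx => hx.1
    exact DiscreteTopology.of_subset (s := (Γ : Set SL(2, ℂ))) hdisc hsub
  obtain ⟨S, T, C, hT, hC⟩ := logGen_parabolic (stabU Γ w) hd w hw (fun p hp => hp.2)
  refine ⟨S, T, max C 0, le_max_right _ _, hT, ?_⟩
  intro g hg
  obtain ⟨l, h1, h2, h3⟩ := hC g hg
  refine ⟨l, h1, h2, h3.trans ?_⟩
  have h4 : 0 ≤ Real.log (nrm g) := Real.log_nonneg (by linarith [two_le_nrm g])
  exact mul_le_mul_of_nonneg_right (le_max_left _ _) (by linarith)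

/-- The property of pairs of vectors. -/
def PairGen (Γ : Subgroup SL(2, ℂ)) (w w' : Fin 2 → ℂ) (S T : Finset SL(2, ℂ)) (C : ℝ) : Prop :=
  ∀ η ∈ Γ, (∃ ζ : ℂ, ‖ζ‖ = 1 ∧
    w ᵥ* ((η : SL(2, ℂ)) : Matrix (Fin 2) (Fin 2) ℂ) = ζ • w') → Gen S T η (C * (1 + Real.log (nrm η)))

/-- Parabolic steps, two vectors. -/
theorem parab_pair (Γ : Subgroup SL(2, ℂ)) (hdisc : DiscreteTopology Γ) (w w' : Fin 2 → ℂ) (hw : w ≠ 0) :
    ∃ (S T : Finset SL(2, ℂ)) (C : ℝ), 0 ≤ C ∧ (∀ u ∈ T, ((u : Matrix (Fin 2) (Fin 2) ℂ) - 1) ^ 2 = 0) ∧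
      PairGen Γ w w' S T C := by
  classical
  by_cases hex : ∃ γ ∈ Γ, ∃ ζ : ℂ, ‖ζ‖ = 1 ∧
      w ᵥ* ((γ : SL(2, ℂ)) : Matrix (Fin 2) (Fin 2) ℂ) = ζ • w'
  · obtain ⟨f, hfΓ, ξ, hξ, hfw⟩ := hex
    obtain ⟨S, T, C, hC0, hT, hC⟩ := parab_one Γ hdisc w hw
    have hF0 : 0 ≤ Real.log (nrm f⁻¹) := Real.log_nonneg (by linarith [two_le_nrm f⁻¹])
    generalize hFu : Real.log (nrm f⁻¹) = Fu at hF0
    refine ⟨insert f S, T, C * (1 + Fu) + 2, by positivity, hT, ?_⟩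
    intro η hη hζ
    obtain ⟨ζ, hζ1, hηw⟩ := hζ
    have hξ0 : ξ ≠ 0 := by
      intro h; rw [h, norm_zero] at hξ; exact zero_ne_one hξ
    have hp : η * f⁻¹ ∈ stabU Γ w := by
      refine ⟨mul_mem hη (inv_mem hfΓ), ζ * ξ⁻¹, by rw [norm_mul, norm_inv, hζ1, hξ]; norm_num, ?_⟩
      have h1 : w' = ξ⁻¹ • (w ᵥ* ((f : SL(2, ℂ)) : Matrix (Fin 2) (Fin 2) ℂ)) := by
        rw [hfw, smul_smul, inv_mul_cancel₀ hξ0, one_smul]
      have h2 : w' ᵥ* ((f⁻¹ : SL(2, ℂ)) : Matrix (Fin 2) (Fin 2) ℂ) = ξ⁻¹ • w := by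
        rw [h1, Matrix.smul_vecMul, ← vecMul_coe_mul, mul_inv_cancel,
          Matrix.SpecialLinearGroup.coe_one, Matrix.vecMul_one]
      rw [vecMul_coe_mul, hηw, Matrix.smul_vecMul, h2, smul_smul]
    have hg1 := hC _ hp
    have h2n : 2 ≤ nrm (η * f⁻¹) := two_le_nrm _
    have hlogη : 0 ≤ Real.log (nrm η) := Real.log_nonneg (by linarith [two_le_nrm η])
    have hlog1 : Real.log (nrm (η * f⁻¹)) ≤ Real.log (nrm η) + Fu := by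
      have h3 : nrm (η * f⁻¹) ≤ nrm η * nrm f⁻¹ := nrm_mul_le _ _
      have h4 : Real.log (nrm (η * f⁻¹)) ≤ Real.log (nrm η * nrm f⁻¹) :=
        Real.log_le_log (by linarith) h3
      rw [Real.log_mul (by linarith [two_le_nrm η]) (by linarith [two_le_nrm f⁻¹])] at h4
      linarith
    have hg2 : Gen (insert f S) T (η * f⁻¹) (C * (1 + Real.log (nrm η) + Fu)) := by
      refine hg1.mono (Finset.subset_insert _ _) subset_rfl ?_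
      exact mul_le_mul_of_nonneg_left (by linarith) hC0
    have hg3 : Gen (insert f S) T f 2 := Gen.single (Finset.mem_insert_self _ _)
    have hg4 := hg2.mul hg3
    rw [inv_mul_cancel_right] at hg4
    refine hg4.mono subset_rfl subset_rfl ?_
    have h20 : 0 ≤ C * Fu * Real.log (nrm η) := by positivity
    have h21 : (C * (1 + Fu) + 2) * (1 + Real.log (nrm η)) =
        C * (1 + Real.log (nrm η) + Fu) + 2 + (C * Fu * Real.log (nrm η) + 2 * Real.log (nrm η)) := by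
      ring
    rw [h21]
    linarith
  · exact ⟨∅, ∅, 0, le_rfl, by simp, fun η hη h => absurd ⟨η, hη, h⟩ hex⟩

theorem PairGen.mono {Γ : Subgroup SL(2, ℂ)} {w w' : Fin 2 → ℂ} {S T S' T' : Finset SL(2, ℂ)} {C C' : ℝ}
    (h : PairGen Γ w w' S T C) (hS : S ⊆ S') (hT : T ⊆ T') (hC : C ≤ C') : PairGen Γ w w' S' T' C' := by
  intro η hη hζ
  refine (h η hη hζ).mono hS hT ?_
  have h4 : 0 ≤ Real.log (nrm η) := Real.log_nonneg (by linarith [two_le_nrm η])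
  exact mul_le_mul_of_nonneg_right hC (by linarith)

/-- Parabolic steps. -/
theorem parab_list (Γ : Subgroup SL(2, ℂ)) (hdisc : DiscreteTopology Γ)
    (L : List ((Fin 2 → ℂ) × (Fin 2 → ℂ))) (hL : ∀ p ∈ L, p.1 ≠ 0) :
    ∃ (S T : Finset SL(2, ℂ)) (C : ℝ), 0 ≤ C ∧ (∀ u ∈ T, ((u : Matrix (Fin 2) (Fin 2) ℂ) - 1) ^ 2 = 0) ∧
      ∀ p ∈ L, PairGen Γ p.1 p.2 S T C := by
  classical
  induction L with
  | nil => exact ⟨∅, ∅, 0, le_rfl, by simp, by simp⟩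
  | cons a L ih =>
    obtain ⟨S, T, C, hC0, hT, h⟩ := ih fun p hp => hL p (List.mem_cons_of_mem _ hp)
    obtain ⟨S', T', C', hC0', hT', h'⟩ := parab_pair Γ hdisc a.1 a.2 (hL a List.mem_cons_self)
    refine ⟨S ∪ S', T ∪ T', max C C', le_max_of_le_left hC0, ?_, ?_⟩
    · intro u hu
      rcases Finset.mem_union.mp hu with hu | hu
      · exact hT u hu
      · exact hT' u hu
    · intro p hp
      rcases List.mem_cons.mp hp with rfl | hp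
      · exact h'.mono Finset.subset_union_right Finset.subset_union_right (le_max_right _ _)
      · exact (h p hp).mono Finset.subset_union_left Finset.subset_union_left (le_max_left _ _)

/-- Parabolic steps. -/
theorem parab_step (Γ : Subgroup SL(2, ℂ)) (hdisc : DiscreteTopology Γ) (W : Finset (Fin 2 → ℂ))
    (hW0 : ∀ w ∈ W, w ≠ 0) :
    ∃ (S T : Finset SL(2, ℂ)) (C : ℝ), 0 ≤ C ∧ (∀ u ∈ T, ((u : Matrix (Fin 2) (Fin 2) ℂ) - 1) ^ 2 = 0) ∧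
      ∀ η ∈ Γ, ∀ w ∈ W, ∀ w' ∈ W, (∃ ζ : ℂ, ‖ζ‖ = 1 ∧
        w ᵥ* ((η : SL(2, ℂ)) : Matrix (Fin 2) (Fin 2) ℂ) = ζ • w') →
        Gen S T η (C * (1 + Real.log (nrm η))) := by
  obtain ⟨S, T, C, hC0, hT, h⟩ := parab_list Γ hdisc (W ×ˢ W).toList (by
    intro p hp
    rw [Finset.mem_toList, Finset.mem_product] at hp
    exact hW0 _ hp.1)
  refine ⟨S, T, C, hC0, hT, ?_⟩
  intro η hη w hw w' hw' hζ
  exact h (w, w') (by rw [Finset.mem_toList, Finset.mem_product]; exact ⟨hw, hw'⟩) η hη hζ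

/-- Bounded steps. -/
theorem short_step (Γ : Subgroup SL(2, ℂ)) (hdisc : DiscreteTopology Γ) (K' : Set SL(2, ℂ))
    (hK'c : IsCompact K') :
    ∃ S : Finset SL(2, ℂ), ∀ κ ∈ K', ∀ κ' ∈ K', ∀ τ ∈ Set.Icc (0:ℝ) 1, κ * aexp τ * κ'⁻¹ ∈ Γ →
      κ * aexp τ * κ'⁻¹ ∈ S := by
  classical
  have hA₁c : IsCompact (aexp '' Set.Icc (0:ℝ) 1) := isCompact_Icc.image continuous_aexp
  have hQc : IsCompact ((fun x : (SL(2, ℂ) × SL(2, ℂ)) × SL(2, ℂ) => x.1.1 * x.1.2 * x.2⁻¹) ''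
    ((K' ×ˢ (aexp '' Set.Icc (0:ℝ) 1)) ×ˢ K')) := by
    refine ((hK'c.prod hA₁c).prod hK'c).image ?_
    fun_prop
  have hΓc : IsClosed (Γ : Set SL(2, ℂ)) := by
    have := hdisc
    exact Subgroup.isClosed_of_discrete
  have hfin : (((fun x : (SL(2, ℂ) × SL(2, ℂ)) × SL(2, ℂ) => x.1.1 * x.1.2 * x.2⁻¹) ''
    ((K' ×ˢ (aexp '' Set.Icc (0:ℝ) 1)) ×ˢ K')) ∩ (Γ : Set SL(2, ℂ))).Finite := by
    refine (hQc.inter_right hΓc).finite ?_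
    exact ⟨DiscreteTopology.of_subset (s := (Γ : Set SL(2, ℂ))) hdisc Set.inter_subset_right⟩
  refine ⟨hfin.toFinset, ?_⟩
  intro κ hκ κ' hκ' τ hτ hΓ
  rw [Set.Finite.mem_toFinset]
  exact ⟨⟨((κ, aexp τ), κ'), ⟨⟨hκ, ⟨τ, hτ, rfl⟩⟩, hκ'⟩, rfl⟩, hΓ⟩

/-- Bound of the norm on a compact set. -/
theorem nrm_bound (K' : Set SL(2, ℂ)) (hK'c : IsCompact K') :
    ∃ M : ℝ, 2 ≤ M ∧ ∀ κ ∈ K', nrm κ ≤ M ∧ nrm κ⁻¹ ≤ M := by
  obtain ⟨M₁, h₁⟩ := (hK'c.image continuous_nrm).bddAbove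
  obtain ⟨M₂, h₂⟩ := (hK'c.image (continuous_nrm.comp continuous_inv)).bddAbove
  exact ⟨max 2 (max M₁ M₂), le_max_left _ _, fun κ hκ =>
    ⟨((h₁ ⟨κ, hκ, rfl⟩).trans (le_max_left _ _)).trans (le_max_right _ _),
      ((h₂ ⟨κ, hκ, rfl⟩).trans (le_max_right _ _)).trans (le_max_right _ _)⟩⟩

/-- The set of vectors of the horoballs. -/
def vecs (Γ : Subgroup SL(2, ℂ)) (V : Finset (Fin 2 → ℂ)) : Set (Fin 2 → ℂ) :=
  {u | ∃ v ∈ V, ∃ γ ∈ Γ, u = v ᵥ* ((γ : SL(2, ℂ)) : Matrix (Fin 2) (Fin 2) ℂ)}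

theorem vecs_ne_zero (Γ : Subgroup SL(2, ℂ)) (V : Finset (Fin 2 → ℂ)) (hV0 : ∀ v ∈ V, v ≠ 0) :
    ∀ u ∈ vecs Γ V, u ≠ 0 := by
  rintro u ⟨v, hv, γ, hγ, rfl⟩
  exact vecMul_ne_zero v (hV0 v hv) γ

theorem vecs_mul (Γ : Subgroup SL(2, ℂ)) (V : Finset (Fin 2 → ℂ)) :
    ∀ u ∈ vecs Γ V, ∀ γ ∈ Γ, u ᵥ* ((γ : SL(2, ℂ)) : Matrix (Fin 2) (Fin 2) ℂ) ∈ vecs Γ V := by
  rintro u ⟨v, hv, δ, hδ, rfl⟩ γ hγ
  exact ⟨v, hv, δ * γ, mul_mem hδ hγ, by rw [vecMul_coe_mul]⟩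

theorem vecs_disj (Γ : Subgroup SL(2, ℂ)) (V : Finset (Fin 2 → ℂ))
    (hdisj : ∀ v ∈ V, ∀ w ∈ V, ∀ γ ∈ Γ, Disjoint (transl γ (horo v)) (horo w) ∨
      transl γ (horo v) = horo w) :
    ∀ u ∈ vecs Γ V, ∀ w ∈ vecs Γ V, Disjoint (horo u) (horo w) ∨ horo u = horo w := by
  rintro u ⟨v, hv, γ, hγ, rfl⟩ w ⟨v', hv', δ, hδ, rfl⟩
  have e1 : horo (v ᵥ* ((γ : SL(2, ℂ)) : Matrix (Fin 2) (Fin 2) ℂ)) = transl γ⁻¹ (horo v) := by
    rw [transl_horo, inv_inv]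
  have e2 : horo (v' ᵥ* ((δ : SL(2, ℂ)) : Matrix (Fin 2) (Fin 2) ℂ)) = transl δ⁻¹ (horo v') := by
    rw [transl_horo, inv_inv]
  have e3 : transl γ⁻¹ (horo v) = transl δ⁻¹ (transl (δ * γ⁻¹) (horo v)) := by
    rw [transl_transl]; congr 1; group
  rw [e1, e2, e3]
  rcases hdisj v hv v' hv' (δ * γ⁻¹) (mul_mem hδ (inv_mem hγ)) with h | h
  · left; exact transl_disjoint _ _ _ h
  · right; rw [h]

theorem zeta_ne_zero {ζ : ℂ} (h : ‖ζ‖ = 1) : ζ ≠ 0 := by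
  intro h0; rw [h0, norm_zero] at h; exact zero_ne_one h

/-- The norm of a step. -/
theorem step_norm (M : ℝ) (hM2 : 2 ≤ M) (κ κ'' : SL(2, ℂ)) (h1 : nrm κ ≤ M) (h2 : nrm κ''⁻¹ ≤ M)
    (τ : ℝ) (hτ : 0 ≤ τ) :
    Real.log (nrm (κ * aexp τ * κ''⁻¹)) ≤ 2 * Real.log M + Real.log 2 + τ := by
  have hMpos : 0 < M := by linarith
  have h4 : nrm (κ * aexp τ * κ''⁻¹) ≤ M * (2 * Real.exp τ) * M := by
    refine (nrm_mul_le _ _).trans ?_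
    refine mul_le_mul ((nrm_mul_le _ _).trans ?_) h2 (by linarith [two_le_nrm κ''⁻¹]) (by positivity)
    exact mul_le_mul h1 (nrm_aexp_le _ hτ) (by linarith [two_le_nrm (aexp τ)]) (by linarith)
  have h5 : Real.log (M * (2 * Real.exp τ) * M) = 2 * Real.log M + Real.log 2 + τ := by
    rw [Real.log_mul (by positivity) (by positivity), Real.log_mul (by positivity) (by positivity),
      Real.log_mul (by norm_num) (Real.exp_pos _).ne', Real.log_exp]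
    ring
  rw [← h5]
  exact Real.log_le_log (by linarith [two_le_nrm (κ * aexp τ * κ''⁻¹)]) h4

/-- The main induction. -/
theorem main_ind (Γ : Subgroup SL(2, ℂ)) (γ : SL(2, ℂ)) (hγ : γ ∈ Γ) (K' : Set SL(2, ℂ))
    (k₁ k₂ : SL(2, ℂ)) (hk₂ : k₂⁻¹ ∈ K') (s : ℝ) (hγe : γ = k₁ * aexp s * k₂) (S T : Finset SL(2, ℂ))
    (D : ℝ) (hD2 : 2 ≤ D)
    (hshort : ∀ κ ∈ K', ∀ κ' ∈ K', ∀ τ ∈ Set.Icc (0:ℝ) 1, κ * aexp τ * κ'⁻¹ ∈ Γ →
      κ * aexp τ * κ'⁻¹ ∈ S)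
    (hlong : ∀ t ∈ Set.Icc 0 s, t + 1 ≤ s → ∀ γ' ∈ Γ, ∀ κ ∈ K', k₁ * aexp t = γ' * κ →
      ∃ t' ∈ Set.Icc (t + 1) s, ∃ γ'' ∈ Γ, ∃ κ'' ∈ K', k₁ * aexp t' = γ'' * κ'' ∧
        Gen S T (γ'⁻¹ * γ'') (D * (t' - t))) :
    ∀ n : ℕ, ∀ t ∈ Set.Icc 0 s, s - t ≤ n → ∀ γ' ∈ Γ, ∀ κ ∈ K', k₁ * aexp t = γ' * κ →
      Gen S T (γ'⁻¹ * γ) (D * (s - t) + 2) := by
  have hclose : ∀ t ∈ Set.Icc 0 s, s - t ≤ 1 → ∀ γ' ∈ Γ, ∀ κ ∈ K', k₁ * aexp t = γ' * κ →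
      Gen S T (γ'⁻¹ * γ) (D * (s - t) + 2) := by
    intro t ht h1 γ' hγ' κ hκ he
    have h2 : γ'⁻¹ * γ = κ * aexp (s - t) * (k₂⁻¹)⁻¹ := by
      have h3 : aexp s = aexp t * aexp (s - t) := by rw [← aexp_add]; congr 1; ring
      rw [hγe, h3, ← mul_assoc k₁, he]; group
    have h4 : γ'⁻¹ * γ ∈ S := by
      rw [h2]
      refine hshort κ hκ _ hk₂ (s - t) ⟨by linarith [ht.2], h1⟩ ?_
      rw [← h2]
      exact mul_mem (inv_mem hγ') hγ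
    refine (Gen.single h4).mono subset_rfl subset_rfl ?_
    have : 0 ≤ D * (s - t) := mul_nonneg (by linarith) (by linarith [ht.2])
    linarith
  intro n
  induction n with
  | zero =>
    intro t ht hst γ' hγ' κ hκ he
    push_cast at hst
    exact hclose t ht (by linarith) γ' hγ' κ hκ he
  | succ n ih =>
    intro t ht hst γ' hγ' κ hκ he
    by_cases h1 : s - t ≤ 1
    · exact hclose t ht h1 γ' hγ' κ hκ he
    · push Not at h1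
      push_cast at hst
      obtain ⟨t', ht', γ'', hγ'', κ'', hκ'', he'', hg1⟩ := hlong t ht (by linarith) γ' hγ' κ hκ he
      have hg2 := ih t' ⟨by linarith [ht.1, ht'.1], ht'.2⟩ (by linarith [ht'.1]) γ'' hγ'' κ'' hκ'' he''
      have hg3 := hg1.mul hg2
      rw [show γ'⁻¹ * γ'' * (γ''⁻¹ * γ) = γ'⁻¹ * γ by group] at hg3
      refine hg3.mono subset_rfl subset_rfl (le_of_eq ?_)
      ring

/-- `s` is bounded by the norm. -/
theorem s_le_log (γ k₁ k₂ : SL(2, ℂ)) (hk₁ : k₁ ∈ SUtwo) (hk₂ : k₂ ∈ SUtwo) (s : ℝ)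
    (hγe : γ = k₁ * aexp s * k₂) : s ≤ 3 + Real.log (nrm γ) := by
  have hnrm : Real.exp s ≤ 16 * nrm γ := by
    have h1 : aexp s = k₁⁻¹ * γ * k₂⁻¹ := by rw [hγe]; group
    have h2 := exp_le_nrm_aexp s
    have h3 : nrm (k₁⁻¹ * γ * k₂⁻¹) ≤ nrm k₁⁻¹ * nrm γ * nrm k₂⁻¹ :=
      (nrm_mul_le _ _).trans (mul_le_mul_of_nonneg_right (nrm_mul_le _ _)
        (by linarith [two_le_nrm k₂⁻¹]))
    have h4 := nrm_SUtwo_le _ (inv_mem_SUtwo _ hk₁)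
    have h5 := nrm_SUtwo_le _ (inv_mem_SUtwo _ hk₂)
    have h6 := two_le_nrm γ
    have h7 : nrm k₁⁻¹ * nrm γ * nrm k₂⁻¹ ≤ 4 * nrm γ * 4 := by
      have h8 := two_le_nrm k₁⁻¹
      have h9 := two_le_nrm k₂⁻¹
      refine mul_le_mul (mul_le_mul_of_nonneg_right h4 (by linarith)) h5 (by linarith) (by positivity)
    rw [h1] at h2
    linarith
  have hpos : 0 < nrm γ := by linarith [two_le_nrm γ]
  have hs2 : s ≤ Real.log 16 + Real.log (nrm γ) := by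
    rw [← Real.log_mul (by norm_num) hpos.ne', ← Real.log_exp s]
    exact Real.log_le_log (Real.exp_pos s) hnrm
  have hlog16 : Real.log 16 ≤ 3 := by
    have : Real.log 16 = 4 * Real.log 2 := by
      rw [show (16:ℝ) = 2 ^ 4 by norm_num, Real.log_pow]; norm_num
    rw [this]
    have := Real.log_two_lt_d9
    linarith
  linarith

/-- One excursion. -/
theorem excursion (Γ : Subgroup SL(2, ℂ)) (K K' : Set SL(2, ℂ)) (hKK' : K ⊆ K')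
    (V : Finset (Fin 2 → ℂ))
    (hdisj' : ∀ u ∈ vecs Γ V, ∀ w ∈ vecs Γ V, Disjoint (horo u) (horo w) ∨ horo u = horo w)
    (γ : SL(2, ℂ)) (hγ : γ ∈ Γ) (k₁ k₂ : SL(2, ℂ)) (hk₂ : k₂⁻¹ ∈ K') (s : ℝ)
    (hγe : γ = k₁ * aexp s * k₂)
    (hseg : ∀ t ∈ Set.Icc 0 s, (∃ γ' ∈ Γ, ∃ κ ∈ K, k₁ * aexp t = γ' * κ) ∨
        ∃ γ' ∈ Γ, ∃ v ∈ V, k₁ * aexp t ∈ transl γ' (horo v))
    (a : ℝ) (ha : 0 ≤ a) (has : a ≤ s) (u : Fin 2 → ℂ) (hu : u ∈ vecs Γ V)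
    (hu1 : vsq (u ᵥ* ((k₁ * aexp a : SL(2, ℂ)) : Matrix (Fin 2) (Fin 2) ℂ)) < 1) :
    ∃ t' ∈ Set.Icc a s, ∃ γ'' ∈ Γ, ∃ κ'' ∈ K', k₁ * aexp t' = γ'' * κ'' ∧
      vsq (u ᵥ* ((k₁ * aexp t' : SL(2, ℂ)) : Matrix (Fin 2) (Fin 2) ℂ)) ≤ 1 := by
  have hc : ∀ u : Fin 2 → ℂ, Continuous fun t : ℝ => vsq (u ᵥ* ((k₁ * aexp t : SL(2, ℂ)) :
      Matrix (Fin 2) (Fin 2) ℂ)) := fun u =>
    (continuous_vsq_vecMul u).comp (continuous_const.mul continuous_aexp)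
  obtain ⟨t', ht', hle, hP⟩ := exc_end (ι := vecs Γ V) a s has
    (fun t => vsq (u ᵥ* ((k₁ * aexp t : SL(2, ℂ)) : Matrix (Fin 2) (Fin 2) ℂ))) (hc u) hu1
    (fun j t => vsq ((j : Fin 2 → ℂ) ᵥ* ((k₁ * aexp t : SL(2, ℂ)) : Matrix (Fin 2) (Fin 2) ℂ)))
    (fun j => hc j) (fun t => ∃ γ' ∈ Γ, ∃ κ ∈ K, k₁ * aexp t = γ' * κ) (by
      intro τ hτ
      rcases hseg τ ⟨ha.trans hτ.1, hτ.2⟩ with h | ⟨δ, hδ, v, hv, h⟩
      · exact Or.inl h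
      · right
        rw [transl_horo] at h
        exact ⟨⟨_, ⟨v, hv, δ⁻¹, inv_mem hδ, rfl⟩⟩, h⟩) (by
      intro j
      rcases hdisj' u hu j.1 j.2 with h | h
      · left
        rintro τ ⟨h1, h2⟩
        exact Set.disjoint_left.mp h h1 h2
      · right
        intro τ h2
        have h3 : k₁ * aexp τ ∈ horo u := by rw [h]; exact h2
        exact h3)
  rcases hP with ⟨γ'', hγ'', κ'', hκ'', he⟩ | rfl
  · exact ⟨t', ht', γ'', hγ'', κ'', hKK' hκ'', he, hle⟩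
  · exact ⟨t', ht', γ, hγ, k₂⁻¹, hk₂, by rw [hγe]; group, hle⟩

/-- Geometrically finite groups are logarithmically generated. -/
theorem logGen_of_geomFinite (Γ : Subgroup SL(2, ℂ)) (h : GeomFinite Γ) : LogGen Γ := by
  classical
  obtain ⟨hdisc, K, V, hK, hV0, hdisj, hseg⟩ := h
  have hK'c : IsCompact (K ∪ SUtwo) := hK.union isCompact_SUtwo
  obtain ⟨S₀, hS₀⟩ := short_step Γ hdisc (K ∪ SUtwo) hK'c
  obtain ⟨M, hM2, hM⟩ := nrm_bound (K ∪ SUtwo) hK'c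
  have hdisj' := vecs_disj Γ V hdisj
  have h𝒱0 := vecs_ne_zero Γ V hV0
  have h𝒱Γ := vecs_mul Γ V
  have hdich : ∀ u ∈ vecs Γ V, ∀ w ∈ vecs Γ V, 1 ≤ ‖dv u w‖ ∨ ∃ ζ : ℂ, ‖ζ‖ = 1 ∧ w = ζ • u :=
    fun u hu w hw => horo_dichotomy u w (h𝒱0 u hu) (h𝒱0 w hw) (hdisj' u hu w hw)
  obtain ⟨W, hW, hWrep⟩ := exists_finite_reps (vecs Γ V) hdich ((nrm (aexp 1)⁻¹ * M) ^ 2 + M ^ 2)
  obtain ⟨Sp, Tp, Cp, hCp0, hTp, hstep⟩ := parab_step Γ hdisc W (fun w hw => h𝒱0 w (hW w hw))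
  have hlogM : 0 ≤ Real.log M := Real.log_nonneg (by linarith)
  have hlog20 : 0 ≤ Real.log 2 := Real.log_nonneg (by norm_num)
  obtain ⟨D, hD⟩ : ∃ D : ℝ, D = Cp * (1 + 2 * Real.log M + Real.log 2) + Cp + 2 := ⟨_, rfl⟩
  have hCpp : 0 ≤ Cp * (1 + 2 * Real.log M + Real.log 2) := by positivity
  have hD2 : 2 ≤ D := by linarith
  refine ⟨S₀ ∪ Sp, Tp, D * 3 + 2 + D, hTp, ?_⟩
  intro γ hγ
  obtain ⟨k₁, hk₁, k₂, hk₂, s, hs, hγe⟩ := cartan γ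
  have hk₂' : k₂⁻¹ ∈ K ∪ SUtwo := Or.inr (inv_mem_SUtwo _ hk₂)
  have hsegγ := hseg γ hγ k₁ hk₁ k₂ hk₂ s hs hγe
  have key := main_ind Γ γ hγ (K ∪ SUtwo) k₁ k₂ hk₂' s hγe (S₀ ∪ Sp) Tp D hD2
    (fun κ hκ κ' hκ' τ hτ hh => Finset.mem_union_left _ (hS₀ κ hκ κ' hκ' τ hτ hh)) (by
      intro t ht ht1 γ' hγ' κ hκ he
      have ht1' : t + 1 ∈ Set.Icc 0 s := ⟨by linarith [ht.1], ht1⟩
      rcases hsegγ (t + 1) ht1' with ⟨γ'', hγ'', κ'', hκ'', he''⟩ | ⟨δ, hδ, v, hv, hhoro⟩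
      · -- ordinary step
        refine ⟨t + 1, ⟨le_rfl, ht1⟩, γ'', hγ'', κ'', Or.inl hκ'', he'', ?_⟩
        have h2 : γ'⁻¹ * γ'' = κ * aexp 1 * κ''⁻¹ := by
          have h3 : aexp (t + 1) = aexp t * aexp 1 := aexp_add _ _
          have h4 : γ'' = k₁ * aexp (t + 1) * κ''⁻¹ := by rw [he'']; group
          rw [h4, h3, ← mul_assoc k₁, he]; group
        have h5 : γ'⁻¹ * γ'' ∈ S₀ ∪ Sp := by
          rw [h2]
          refine Finset.mem_union_left _ (hS₀ κ hκ κ'' (Or.inl hκ'') 1 (by simp) ?_)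
          rw [← h2]; exact mul_mem (inv_mem hγ') hγ''
        refine (Gen.single h5).mono subset_rfl subset_rfl ?_
        linarith
      · -- excursion into a horoball
        have hu𝒱 : v ᵥ* ((δ⁻¹ : SL(2, ℂ)) : Matrix (Fin 2) (Fin 2) ℂ) ∈ vecs Γ V :=
          ⟨v, hv, δ⁻¹, inv_mem hδ, rfl⟩
        rw [transl_horo] at hhoro
        generalize v ᵥ* ((δ⁻¹ : SL(2, ℂ)) : Matrix (Fin 2) (Fin 2) ℂ) = u at hu𝒱 hhoro
        have hu1 : vsq (u ᵥ* ((k₁ * aexp (t + 1) : SL(2, ℂ)) : Matrix (Fin 2) (Fin 2) ℂ)) < 1 := hhoro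
        obtain ⟨t', ht', γ'', hγ'', κ'', hκ'', he'', hvs⟩ := excursion Γ K (K ∪ SUtwo)
          Set.subset_union_left V hdisj' γ hγ k₁ k₂ hk₂' s hγe hsegγ (t + 1) ht1'.1 ht1 u hu𝒱 hu1
        refine ⟨t', ht', γ'', hγ'', κ'', hκ'', he'', ?_⟩
        have hη : γ'⁻¹ * γ'' ∈ Γ := mul_mem (inv_mem hγ') hγ''
        have hui : vsq (u ᵥ* ((γ' : SL(2, ℂ)) : Matrix (Fin 2) (Fin 2) ℂ)) ≤
            (nrm (aexp 1)⁻¹ * M) ^ 2 + M ^ 2 := by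
          have h3 : k₁ * aexp (t + 1) = γ' * (κ * aexp 1) := by
            rw [aexp_add, ← mul_assoc, he, mul_assoc]
          rw [h3, vecMul_coe_mul] at hu1
          have h4 := vsq_le_of_vecMul _ _ hu1.le
          have h5 : nrm (κ * aexp 1)⁻¹ ≤ nrm (aexp 1)⁻¹ * M := by
            rw [_root_.mul_inv_rev]
            exact (nrm_mul_le _ _).trans (mul_le_mul_of_nonneg_left (hM κ hκ).2
              (by linarith [two_le_nrm (aexp 1)⁻¹]))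
          have h6 : (nrm (κ * aexp 1)⁻¹) ^ 2 ≤ (nrm (aexp 1)⁻¹ * M) ^ 2 :=
            pow_le_pow_left₀ (by linarith [two_le_nrm (κ * aexp 1)⁻¹]) h5 2
          have h7 : 0 ≤ M ^ 2 := sq_nonneg _
          linarith
        have hue : vsq (u ᵥ* ((γ'' : SL(2, ℂ)) : Matrix (Fin 2) (Fin 2) ℂ)) ≤
            (nrm (aexp 1)⁻¹ * M) ^ 2 + M ^ 2 := by
          rw [he'', vecMul_coe_mul] at hvs
          have h4 := vsq_le_of_vecMul _ _ hvs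
          have h6 : (nrm κ''⁻¹) ^ 2 ≤ M ^ 2 :=
            pow_le_pow_left₀ (by linarith [two_le_nrm κ''⁻¹]) (hM κ'' hκ'').2 2
          have h7 : 0 ≤ (nrm (aexp 1)⁻¹ * M) ^ 2 := sq_nonneg _
          linarith
        obtain ⟨w, hw, ζ, hζ, hwe⟩ := hWrep _ (h𝒱Γ u hu𝒱 γ' hγ') hui
        obtain ⟨w', hw', ζ', hζ', hwe'⟩ := hWrep _ (h𝒱Γ u hu𝒱 γ'' hγ'') hue
        have hζ0 : ζ ≠ 0 := zeta_ne_zero hζ
        have hww : w ᵥ* ((γ'⁻¹ * γ'' : SL(2, ℂ)) : Matrix (Fin 2) (Fin 2) ℂ) = (ζ⁻¹ * ζ') • w' := by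
          have h3 : w = ζ⁻¹ • (u ᵥ* ((γ' : SL(2, ℂ)) : Matrix (Fin 2) (Fin 2) ℂ)) := by
            rw [hwe, smul_smul, inv_mul_cancel₀ hζ0, one_smul]
          rw [h3, Matrix.smul_vecMul, ← vecMul_coe_mul, mul_inv_cancel_left, hwe', smul_smul]
        have hg1 := hstep _ hη w hw w' hw'
          ⟨ζ⁻¹ * ζ', by rw [norm_mul, norm_inv, hζ, hζ']; norm_num, hww⟩
        have hτ : 1 ≤ t' - t := by linarith [ht'.1]
        have hlogη : Real.log (nrm (γ'⁻¹ * γ'')) ≤ 2 * Real.log M + Real.log 2 + (t' - t) := by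
          have h3 : γ'⁻¹ * γ'' = κ * aexp (t' - t) * κ''⁻¹ := by
            have h4 : aexp t' = aexp t * aexp (t' - t) := by rw [← aexp_add]; congr 1; ring
            have h5 : γ'' = k₁ * aexp t' * κ''⁻¹ := by rw [he'']; group
            rw [h5, h4, ← mul_assoc k₁, he]; group
          rw [h3]
          exact step_norm M hM2 κ κ'' (hM κ hκ).1 (hM κ'' hκ'').2 _ (by linarith)
        refine hg1.mono Finset.subset_union_right subset_rfl ?_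
        have h11 : Cp * (1 + Real.log (nrm (γ'⁻¹ * γ''))) ≤
            Cp * (1 + (2 * Real.log M + Real.log 2 + (t' - t))) :=
          mul_le_mul_of_nonneg_left (by linarith) hCp0
        have h12 : Cp * (1 + (2 * Real.log M + Real.log 2 + (t' - t))) =
            Cp * (1 + 2 * Real.log M + Real.log 2) + Cp * (t' - t) := by ring
        have h13 : D * (t' - t) = Cp * (1 + 2 * Real.log M + Real.log 2) * (t' - t) +
            Cp * (t' - t) + 2 * (t' - t) := by rw [hD]; ring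
        have h15 : Cp * (1 + 2 * Real.log M + Real.log 2) ≤
            Cp * (1 + 2 * Real.log M + Real.log 2) * (t' - t) := le_mul_of_one_le_right hCpp hτ
        linarith)
  have hfinal := key ⌈s⌉₊ 0 ⟨le_rfl, hs⟩ (by simpa using Nat.le_ceil s) 1 (one_mem _) k₁ (Or.inr hk₁)
    (by rw [aexp_zero, one_mul, mul_one])
  rw [inv_one, one_mul, sub_zero] at hfinal
  have hgoal : Gen (S₀ ∪ Sp) Tp γ ((D * 3 + 2 + D) * (1 + Real.log (nrm γ))) := by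
    refine hfinal.mono subset_rfl subset_rfl ?_
    have hs3 := s_le_log γ k₁ k₂ hk₁ hk₂ s hγe
    have hlogn : 0 ≤ Real.log (nrm γ) := Real.log_nonneg (by linarith [two_le_nrm γ])
    have h20 : D * s ≤ D * (3 + Real.log (nrm γ)) := mul_le_mul_of_nonneg_left (by linarith) (by linarith)
    have h21 : 0 ≤ (D * 3 + 2) * Real.log (nrm γ) := by positivity
    have h22 : (D * 3 + 2 + D) * (1 + Real.log (nrm γ)) =
      D * (3 + Real.log (nrm γ)) + 2 + D + (D * 3 + 2) * Real.log (nrm γ) := by ring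
    rw [h22]
    linarith
  exact hgoal

end MPc2b80f
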