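import Pool.Agent.Lib.MP_c2b80f_alB.CCDefs

/-!
# Geometrically finite groups
-/

open Matrix MatrixGroups

namespace MPc2b80f

/-- The square of the Euclidean norm of a vector. -/
noncomputable def vsq (v : Fin 2 → ℂ) : ℝ := ‖v 0‖ ^ 2 + ‖v 1‖ ^ 2

/-- Horoballs: for a nonzero row vector `v` the image of `horo v` in hyperbolic 3-space `SL_2(ℂ) / SU(2)` is an open
horoball, and all open horoballs are of this form. -/
def horo (v : Fin 2 → ℂ) : Set SL(2, ℂ) :=
  {x | vsq (v ᵥ* (x : Matrix (Fin 2) (Fin 2) ℂ)) < 1}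

/-- The translate `γ B` of a set `B`. -/
def transl (γ : SL(2, ℂ)) (B : Set SL(2, ℂ)) : Set SL(2, ℂ) := {x | γ⁻¹ * x ∈ B}

/-- Geometrically finite subgroups of `SL_2(ℂ)`, acting on hyperbolic 3-space `SL_2(ℂ) / SU(2)` with base point `o` the
class of `1`: `Γ` is discrete, and there are finitely many horoballs whose translates by elements of `Γ` are pairwise
disjoint or equal, and a compact set `K`, such that for every `γ` in `Γ` the geodesic segment from `o` to `γ o` is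
contained in the union of `Γ K o` and all these translates. (If `γ = k₁ a(s) k₂` is a Cartan decomposition, this segment
consists of the points `k₁ a(t) o`, `0 ≤ t ≤ s`.) Without horoballs this is convex cocompactness. -/
def GeomFinite (Γ : Subgroup SL(2, ℂ)) : Prop :=
  DiscreteTopology Γ ∧ ∃ (K : Set SL(2, ℂ)) (V : Finset (Fin 2 → ℂ)), IsCompact K ∧
    (∀ v ∈ V, v ≠ 0) ∧
    (∀ v ∈ V, ∀ w ∈ V, ∀ γ ∈ Γ, Disjoint (transl γ (horo v)) (horo w) ∨ transl γ (horo v) = horo w) ∧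
    ∀ γ ∈ Γ, ∀ k₁ ∈ SUtwo, ∀ k₂ ∈ SUtwo, ∀ s : ℝ, 0 ≤ s → γ = k₁ * aexp s * k₂ →
      ∀ t ∈ Set.Icc 0 s, (∃ γ' ∈ Γ, ∃ κ ∈ K, k₁ * aexp t = γ' * κ) ∨
        ∃ γ' ∈ Γ, ∃ v ∈ V, k₁ * aexp t ∈ transl γ' (horo v)

end MPc2b80f
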