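import Pool.Agent.Lib.MP_c2b80f_alB.CostB

/-!
# Traces of powers
-/

open Matrix MatrixGroups

namespace MPc2b80f

variable {R : Type*} [CommRing R]

/-- Cayley-Hamilton. -/
theorem trace_pow_add_two (g : SL(2, R)) (n : ℕ) :
    Matrix.trace ((g ^ (n + 2) : SL(2, R)) : Matrix (Fin 2) (Fin 2) R) =
      Matrix.trace (g : Matrix (Fin 2) (Fin 2) R) *
        Matrix.trace ((g ^ (n + 1) : SL(2, R)) : Matrix (Fin 2) (Fin 2) R) -
      Matrix.trace ((g ^ n : SL(2, R)) : Matrix (Fin 2) (Fin 2) R) := by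
  have e1 : ((g ^ (n + 1) : SL(2, R)) : Matrix (Fin 2) (Fin 2) R) =
      (g : Matrix (Fin 2) (Fin 2) R) * ((g ^ n : SL(2, R)) : Matrix (Fin 2) (Fin 2) R) := by
    rw [pow_succ', Matrix.SpecialLinearGroup.coe_mul]
  have e2 : ((g ^ (n + 2) : SL(2, R)) : Matrix (Fin 2) (Fin 2) R) =
      (g : Matrix (Fin 2) (Fin 2) R) * ((g : Matrix (Fin 2) (Fin 2) R) *
        ((g ^ n : SL(2, R)) : Matrix (Fin 2) (Fin 2) R)) := by
    rw [← e1, pow_succ' g (n + 1), Matrix.SpecialLinearGroup.coe_mul]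
  have hd : (g : Matrix (Fin 2) (Fin 2) R) 0 0 * (g : Matrix (Fin 2) (Fin 2) R) 1 1 -
      (g : Matrix (Fin 2) (Fin 2) R) 0 1 * (g : Matrix (Fin 2) (Fin 2) R) 1 0 = 1 := by
    rw [← Matrix.det_fin_two]
    exact g.2
  rw [e2, e1]
  generalize ((g ^ n : SL(2, R)) : Matrix (Fin 2) (Fin 2) R) = B
  simp only [Matrix.trace_fin_two, Matrix.mul_apply, Fin.sum_univ_two]
  linear_combination (-(B 0 0) - B 1 1) * hd

theorem trace_pow_eq (g h : SL(2, R))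
    (h0 : Matrix.trace (g : Matrix (Fin 2) (Fin 2) R) = Matrix.trace (h : Matrix (Fin 2) (Fin 2) R))
    (n : ℕ) :
    Matrix.trace ((g ^ n : SL(2, R)) : Matrix (Fin 2) (Fin 2) R) =
      Matrix.trace ((h ^ n : SL(2, R)) : Matrix (Fin 2) (Fin 2) R) := by
  induction n using Nat.twoStepInduction with
  | zero => simp
  | one => simpa using h0
  | more n h1 h2 => rw [trace_pow_add_two, trace_pow_add_two, h1, h2, h0]

theorem trace_pow_unit (a : ℂˣ) (g : SL(2, ℂ))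
    (hg : Matrix.trace (g : Matrix (Fin 2) (Fin 2) ℂ) = a + ((a⁻¹ : ℂˣ) : ℂ)) (n : ℕ) :
    Matrix.trace ((g ^ n : SL(2, ℂ)) : Matrix (Fin 2) (Fin 2) ℂ) =
      ((a ^ n : ℂˣ) : ℂ) + (((a⁻¹) ^ n : ℂˣ) : ℂ) := by
  have hab : (a : ℂ) * ((a⁻¹ : ℂˣ) : ℂ) = 1 := Units.mul_inv a
  induction n using Nat.twoStepInduction with
  | zero => norm_num [Matrix.trace_fin_two]
  | one => simpa using hg
  | more n h1 h2 =>
    rw [trace_pow_add_two, h1, h2, hg]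
    simp only [Units.val_pow_eq_pow_val]
    linear_combination ((a : ℂ) ^ n + ((a⁻¹ : ℂˣ) : ℂ) ^ n) * hab

/-- Every complex number is `a + a⁻¹` with `|a| ≥ 1`. -/
theorem exists_unit (z : ℂ) : ∃ a : ℂˣ, z = a + ((a⁻¹ : ℂˣ) : ℂ) ∧ 1 ≤ ‖(a : ℂ)‖ := by
  obtain ⟨b, hb⟩ : ∃ b : ℂ, b * b - z * b + 1 = 0 := by
    obtain ⟨s, hs⟩ := IsAlgClosed.exists_pow_nat_eq (z ^ 2 - 4) (n := 2) (by norm_num)
    refine ⟨(z + s) / 2, ?_⟩
    linear_combination (1 / 4 : ℂ) * hs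
  have hb0 : b ≠ 0 := by
    rintro rfl
    simp at hb
  have hbb : z = b + b⁻¹ := by
    field_simp
    linear_combination -hb
  rcases le_total 1 ‖b‖ with h1 | h1
  · refine ⟨Units.mk0 b hb0, ?_, h1⟩
    simpa using hbb
  · refine ⟨(Units.mk0 b hb0)⁻¹, ?_, ?_⟩
    · rw [inv_inv, add_comm]
      simpa using hbb
    · have h2 : (((Units.mk0 b hb0)⁻¹ : ℂˣ) : ℂ) = b⁻¹ := by simp
      rw [h2, norm_inv]
      exact (one_le_inv₀ (norm_pos_iff.2 hb0)).2 h1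

private theorem Pow_le {x y B : ℝ} (hy : 0 < y) (l : ℕ) (hl : 1 ≤ l)
    (h : ∀ j : ℕ, x ^ (l * j) ≤ B * y ^ (l * j)) : x ≤ y := by
  by_contra hcon
  rw [not_le] at hcon
  have h1 : 1 < (x / y) ^ l := by
    apply one_lt_pow₀ _ (by omega)
    rwa [one_lt_div hy]
  obtain ⟨j, hj⟩ := pow_unbounded_of_one_lt B h1
  have h2 := h j
  rw [← pow_mul, div_pow, lt_div_iff₀ (by positivity)] at hj
  linarith

/-- Non-archimedean case: if `N (tr g) > 1` then `N (tr (g ^ n)) = N (tr g) ^ n` for `n ≥ 1`.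
Proof: strong induction with `trace_pow_add_two`; show at the same time that
`N (tr (g ^ n)) ≤ N (tr g) ^ n` for `n = 0` (this is `N 2 ≤ 1`); in the recursion
`tr g * tr (g ^ (n + 1))` has value `N (tr g) ^ (n + 2)`, strictly larger than the value of `tr (g ^ n)`. -/
theorem nonarch_trace_pow {N : R → ℝ} (hN : IsMS N) (hna : ∀ x y, N (x + y) ≤ max (N x) (N y))
    (g : SL(2, R)) (h1 : 1 < N (Matrix.trace (g : Matrix (Fin 2) (Fin 2) R))) (n : ℕ) (hn : 1 ≤ n) :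
    N (Matrix.trace ((g ^ n : SL(2, R)) : Matrix (Fin 2) (Fin 2) R)) =
      N (Matrix.trace (g : Matrix (Fin 2) (Fin 2) R)) ^ n := by
  have hneg : ∀ x : R, N (-x) = N x := fun x => hN.neg x
  have key : ∀ n, N (Matrix.trace ((g ^ (n + 1) : SL(2, R)) : Matrix (Fin 2) (Fin 2) R)) =
      N (Matrix.trace (g : Matrix (Fin 2) (Fin 2) R)) ^ (n + 1) ∧
      N (Matrix.trace ((g ^ n : SL(2, R)) : Matrix (Fin 2) (Fin 2) R)) ≤
      N (Matrix.trace (g : Matrix (Fin 2) (Fin 2) R)) ^ n := by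
    intro n
    induction n with
    | zero =>
      refine ⟨by simp, ?_⟩
      rw [pow_zero, pow_zero, Matrix.SpecialLinearGroup.coe_one, Matrix.trace_fin_two,
        Matrix.one_apply_eq, Matrix.one_apply_eq]
      refine le_trans (hna 1 1) ?_
      rw [hN.one, max_self]
    | succ n ih =>
      refine ⟨?_, ih.1.le⟩
      rw [trace_pow_add_two]
      set t := Matrix.trace (g : Matrix (Fin 2) (Fin 2) R) with ht
      set u := Matrix.trace ((g ^ (n + 1) : SL(2, R)) : Matrix (Fin 2) (Fin 2) R) with hu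
      set w := Matrix.trace ((g ^ n : SL(2, R)) : Matrix (Fin 2) (Fin 2) R) with hw
      have h3 : N (t * u) = N t ^ (n + 2) := by
        rw [hN.mul, ih.1]; ring
      have h4 : N w < N (t * u) := by
        rw [h3]
        calc N w ≤ N t ^ n := ih.2
          _ < N t ^ (n + 2) := pow_lt_pow_right₀ h1 (by omega)
      apply le_antisymm
      · calc N (t * u - w) = N (t * u + -w) := by rw [sub_eq_add_neg]
          _ ≤ max (N (t * u)) (N (-w)) := hna _ _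
          _ = N t ^ (n + 1 + 1) := by
            rw [hneg, max_eq_left h4.le, h3]
      · have h5 : N (t * u) ≤ max (N (t * u - w)) (N w) := by
          have := hna (t * u - w) w
          rwa [sub_add_cancel] at this
        rcases le_max_iff.1 h5 with h6 | h6
        · rw [h3] at h6
          exact h6
        · linarith
  obtain ⟨m, rfl⟩ : ∃ m, n = m + 1 := ⟨n - 1, by omega⟩
  exact (key m).1

/-- Archimedean case. Proof: write `tr g = a + a⁻¹` with `|a| ≥ 1` (`exists_unit`). Then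
`|a| ^ (k n) - 1 ≤ |tr (g ^ (k n))| ≤ K r ^ (k n)` for all `n`, so `|a| ≤ r` (otherwise
`(|a| / r) ^ (k n)` would be bounded by `K + 1`), and `|tr g| ≤ 2 |a|`. -/
theorem arch_of_growth (g : SL(2, ℂ)) (k : ℕ) (hk : 1 ≤ k) (K r : ℝ) (hr : 1 ≤ r)
    (h : ∀ n : ℕ, ‖Matrix.trace ((g ^ (k * n) : SL(2, ℂ)) : Matrix (Fin 2) (Fin 2) ℂ)‖ ≤
      K * r ^ (k * n)) :
    ‖Matrix.trace (g : Matrix (Fin 2) (Fin 2) ℂ)‖ ≤ 2 * r := by
  obtain ⟨a, ha, ha1⟩ := exists_unit (Matrix.trace (g : Matrix (Fin 2) (Fin 2) ℂ))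
  have hcd : (a : ℂ) * ((a⁻¹ : ℂˣ) : ℂ) = 1 := Units.mul_inv a
  have hd : ‖((a⁻¹ : ℂˣ) : ℂ)‖ ≤ 1 := by
    have h1 : ‖(a : ℂ)‖ * ‖((a⁻¹ : ℂˣ) : ℂ)‖ = 1 := by rw [← norm_mul, hcd, norm_one]
    nlinarith [norm_nonneg ((a⁻¹ : ℂˣ) : ℂ)]
  have h2 : ‖(a : ℂ)‖ ≤ r := by
    apply Pow_le (B := K + 1) (by linarith) k hk
    intro j
    have h3 := h j
    rw [trace_pow_unit a g ha, Units.val_pow_eq_pow_val, Units.val_pow_eq_pow_val] at h3
    have h4 : ‖(a : ℂ) ^ (k * j)‖ ≤ ‖(a : ℂ) ^ (k * j) + ((a⁻¹ : ℂˣ) : ℂ) ^ (k * j)‖ +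
        ‖((a⁻¹ : ℂˣ) : ℂ) ^ (k * j)‖ := by
      calc ‖(a : ℂ) ^ (k * j)‖ = ‖((a : ℂ) ^ (k * j) + ((a⁻¹ : ℂˣ) : ℂ) ^ (k * j)) -
            ((a⁻¹ : ℂˣ) : ℂ) ^ (k * j)‖ := by congr 1; ring
        _ ≤ _ := norm_sub_le _ _
    have h5 : ‖((a⁻¹ : ℂˣ) : ℂ) ^ (k * j)‖ ≤ 1 := by
      rw [norm_pow]
      exact pow_le_one₀ (norm_nonneg _) hd
    have h6 : 1 ≤ r ^ (k * j) := one_le_pow₀ hr
    rw [norm_pow] at h4
    linarith
  rw [ha]
  calc ‖(a : ℂ) + ((a⁻¹ : ℂˣ) : ℂ)‖ ≤ ‖(a : ℂ)‖ + ‖((a⁻¹ : ℂˣ) : ℂ)‖ := norm_add_le _ _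
    _ ≤ 2 * r := by linarith

/-- Non-archimedean case. Proof: if `N (tr g) > r ≥ 1` use `nonarch_trace_pow`: the powers
`(N (tr g) / r) ^ (k n)` would be bounded by `K`. -/
theorem nonarch_of_growth {N : R → ℝ} (hN : IsMS N) (hna : ∀ x y, N (x + y) ≤ max (N x) (N y))
    (g : SL(2, R)) (k : ℕ) (hk : 1 ≤ k) (K r : ℝ) (hr : 1 ≤ r)
    (h : ∀ n : ℕ, N (Matrix.trace ((g ^ (k * n) : SL(2, R)) : Matrix (Fin 2) (Fin 2) R)) ≤
      K * r ^ (k * n)) :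
    N (Matrix.trace (g : Matrix (Fin 2) (Fin 2) R)) ≤ r := by
  by_cases ht : N (Matrix.trace (g : Matrix (Fin 2) (Fin 2) R)) ≤ 1
  · linarith
  rw [not_le] at ht
  apply Pow_le (B := max K 1) (by linarith) k hk
  intro j
  rcases Nat.eq_zero_or_pos j with rfl | hj
  · simp
  · have h1 := h j
    rw [nonarch_trace_pow hN hna g ht (k * j) (Nat.mul_pos hk hj)] at h1
    refine le_trans h1 ?_
    gcongr
    exact le_max_left _ _

end MPc2b80f
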